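import Pool.Agent.AltALL.Chain79
import Pool.Agent.AltHP.LemmaS

/-! The pinwheel: from wedges to triangles, and the chain in a red-free convex polygon. -/

namespace Pool.Agent.AltALL

open Pool.Agent.AltPath Pool.Agent.AltHP Pool.Agent.HPD79

/-- The functional of the determinant with a fixed first vector. -/
def rot79 (u : ℝ × ℝ) : ℝ × ℝ := (-u.2, u.1)

theorem dt_rot79 (u x : ℝ × ℝ) : dt (rot79 u) x = cr u x := by
  simp only [dt, cr, rot79]; ring

theorem Dc79_disj {R X Y : Finset (ℝ × ℝ)} (h : Disjoint X Y) :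
    Dc79 R (X ∪ Y) = Dc79 R X + Dc79 R Y := by
  classical
  unfold Dc79
  have e1 : ((X ∪ Y) ∩ R).card = (X ∩ R).card + (Y ∩ R).card := by
    rw [Finset.union_inter_distrib_right, Finset.card_union_of_disjoint]
    exact Finset.disjoint_of_subset_left Finset.inter_subset_left
      (Finset.disjoint_of_subset_right Finset.inter_subset_left h)
  have e2 : ((X ∪ Y) \ R).card = (X \ R).card + (Y \ R).card := by
    rw [Finset.union_sdiff_distrib, Finset.card_union_of_disjoint]
    exact Finset.disjoint_of_subset_left Finset.sdiff_subset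
      (Finset.disjoint_of_subset_right Finset.sdiff_subset h)
  rw [e1, e2]
  push_cast
  ring

theorem Dc79_abs_le (R X : Finset (ℝ × ℝ)) : |Dc79 R X| ≤ X.card := by
  classical
  unfold Dc79
  have h := Finset.card_inter_add_card_sdiff X R
  rw [abs_le]
  constructor <;> omega

theorem Dc79_whole {R B : Finset (ℝ × ℝ)} (hdis : Disjoint R B) {n : ℕ} (hR : R.card = n)
    (hB : B.card = n) : Dc79 R (R ∪ B) = 0 := by
  classical
  rw [Dc79_eq hdis (le_refl _), Finset.inter_eq_left.mpr Finset.subset_union_left,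
    Finset.inter_eq_left.mpr Finset.subset_union_right, hR, hB]
  simp

/-- The wedge hypothesis: every open wedge with its apex in the set is balanced up to D. -/
def Wed79 (R B : Finset (ℝ × ℝ)) (D : ℤ) : Prop :=
  ∀ x ∈ R ∪ B, ∀ w₁ w₂ : ℝ × ℝ,
    |Dc79 R ((R ∪ B).filter (fun p => 0 < dt w₁ (p - x) ∧ 0 < dt w₂ (p - x)))| ≤ D

/-- The pinwheel. -/
theorem pinwheel79 {R B : Finset (ℝ × ℝ)} (hdis : Disjoint R B) (hgp : GP (R ∪ B)) {n : ℕ}
    (hR : R.card = n) (hB : B.card = n) {D : ℤ} (hW : Wed79 R B D) {a b c : ℝ × ℝ}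
    (ha : a ∈ R ∪ B) (hb : b ∈ R ∪ B) (hc : c ∈ R ∪ B) (hcl : cr (b - a) (c - a) < 0)
    {T : Finset (ℝ × ℝ)} (hT : ∀ p, p ∈ T ↔ p ∈ R ∪ B ∧ InTri a b c p) :
    |Dc79 R T| ≤ 3 * D + 3 := by
  classical
  obtain ⟨P, hP⟩ : ∃ P, P = R ∪ B := ⟨_, rfl⟩
  unfold Wed79 at hW
  have h0 := Dc79_whole hdis hR hB
  rw [← hP] at ha hb hc hgp hT h0 hW
  have hab : a ≠ b := by
    rintro rfl
    simp [cr] at hcl
  have hac : a ≠ c := by
    rintro rfl
    simp [cr] at hcl
  have hbc : b ≠ c := by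
    rintro rfl
    have e : cr (b - a) (b - a) = 0 := by simp only [cr]; ring
    linarith
  obtain ⟨W1, hW1⟩ : ∃ W, W = P.filter (fun p => 0 < dt (rot79 (b - a)) (p - b) ∧
    0 < dt (rot79 (b - c)) (p - b)) := ⟨_, rfl⟩
  obtain ⟨W2, hW2⟩ : ∃ W, W = P.filter (fun p => 0 < dt (rot79 (c - b)) (p - c) ∧
    0 < dt (rot79 (c - a)) (p - c)) := ⟨_, rfl⟩
  obtain ⟨W3, hW3⟩ : ∃ W, W = P.filter (fun p => 0 < dt (rot79 (a - c)) (p - a) ∧
    0 < dt (rot79 (a - b)) (p - a)) := ⟨_, rfl⟩
  have b1 := hW b hb (rot79 (b - a)) (rot79 (b - c))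
  have b2 := hW c hc (rot79 (c - b)) (rot79 (c - a))
  have b3 := hW a ha (rot79 (a - c)) (rot79 (a - b))
  rw [← hW1] at b1
  rw [← hW2] at b2
  rw [← hW3] at b3
  have f1 : ∀ p, dt (rot79 (b - a)) (p - b) = cr (b - a) (p - a) := by
    intro p; rw [dt_rot79]; simp only [cr, Prod.fst_sub, Prod.snd_sub]; ring
  have f2 : ∀ p, dt (rot79 (b - c)) (p - b) = -cr (c - b) (p - b) := by
    intro p; rw [dt_rot79]; simp only [cr, Prod.fst_sub, Prod.snd_sub]; ring
  have f3 : ∀ p, dt (rot79 (c - b)) (p - c) = cr (c - b) (p - b) := by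
    intro p; rw [dt_rot79]; simp only [cr, Prod.fst_sub, Prod.snd_sub]; ring
  have f4 : ∀ p, dt (rot79 (c - a)) (p - c) = -cr (a - c) (p - c) := by
    intro p; rw [dt_rot79]; simp only [cr, Prod.fst_sub, Prod.snd_sub]; ring
  have f5 : ∀ p, dt (rot79 (a - c)) (p - a) = cr (a - c) (p - c) := by
    intro p; rw [dt_rot79]; simp only [cr, Prod.fst_sub, Prod.snd_sub]; ring
  have f6 : ∀ p, dt (rot79 (a - b)) (p - a) = -cr (b - a) (p - a) := by
    intro p; rw [dt_rot79]; simp only [cr, Prod.fst_sub, Prod.snd_sub]; ring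
  have m1 : ∀ p, p ∈ W1 ↔ p ∈ P ∧ 0 < cr (b - a) (p - a) ∧ cr (c - b) (p - b) < 0 := by
    intro p; rw [hW1, Finset.mem_filter, f1, f2]
    constructor
    · rintro ⟨g1, g2, g3⟩; exact ⟨g1, g2, by linarith⟩
    · rintro ⟨g1, g2, g3⟩; exact ⟨g1, g2, by linarith⟩
  have m2 : ∀ p, p ∈ W2 ↔ p ∈ P ∧ 0 < cr (c - b) (p - b) ∧ cr (a - c) (p - c) < 0 := by
    intro p; rw [hW2, Finset.mem_filter, f3, f4]
    constructor
    · rintro ⟨g1, g2, g3⟩; exact ⟨g1, g2, by linarith⟩
    · rintro ⟨g1, g2, g3⟩; exact ⟨g1, g2, by linarith⟩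
  have m3 : ∀ p, p ∈ W3 ↔ p ∈ P ∧ 0 < cr (a - c) (p - c) ∧ cr (b - a) (p - a) < 0 := by
    intro p; rw [hW3, Finset.mem_filter, f5, f6]
    constructor
    · rintro ⟨g1, g2, g3⟩; exact ⟨g1, g2, by linarith⟩
    · rintro ⟨g1, g2, g3⟩; exact ⟨g1, g2, by linarith⟩
  have hsum : ∀ p, cr (b - a) (p - a) + cr (c - b) (p - b) + cr (a - c) (p - c) =
      cr (b - a) (c - a) := by
    intro p; simp only [cr, Prod.fst_sub, Prod.snd_sub]; ring
  obtain ⟨V, hV⟩ : ∃ V : Finset (ℝ × ℝ), V = {a, b, c} := ⟨_, rfl⟩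
  have hVc : V.card ≤ 3 := by rw [hV]; exact Finset.card_le_three
  -- values at the vertices
  have va1 : cr (b - a) (a - a) = 0 := by simp [cr]
  have va2 : cr (c - b) (a - b) = cr (b - a) (c - a) := by
    simp only [cr, Prod.fst_sub, Prod.snd_sub]; ring
  have va3 : cr (a - c) (a - c) = 0 := by simp only [cr]; ring
  have vb1 : cr (b - a) (b - a) = 0 := by simp only [cr]; ring
  have vb2 : cr (c - b) (b - b) = 0 := by simp [cr]
  have vb3 : cr (a - c) (b - c) = cr (b - a) (c - a) := by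
    simp only [cr, Prod.fst_sub, Prod.snd_sub]; ring
  have vc2 : cr (c - b) (c - b) = 0 := by simp only [cr]; ring
  have vc3 : cr (a - c) (c - c) = 0 := by simp [cr]
  -- disjointness
  have d12 : Disjoint W1 W2 := by
    rw [Finset.disjoint_left]; intro p h1 h2
    have := ((m1 p).1 h1).2.2
    have := ((m2 p).1 h2).2.1
    linarith
  have d13 : Disjoint W1 W3 := by
    rw [Finset.disjoint_left]; intro p h1 h2
    have := ((m1 p).1 h1).2.1
    have := ((m3 p).1 h2).2.2
    linarith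
  have d23 : Disjoint W2 W3 := by
    rw [Finset.disjoint_left]; intro p h1 h2
    have := ((m2 p).1 h1).2.2
    have := ((m3 p).1 h2).2.1
    linarith
  have dT1 : Disjoint T W1 := by
    rw [Finset.disjoint_left]; intro p h1 h2
    have := ((hT p).1 h1).2.1
    have := ((m1 p).1 h2).2.1
    linarith
  have dT2 : Disjoint T W2 := by
    rw [Finset.disjoint_left]; intro p h1 h2
    have := ((hT p).1 h1).2.2.1
    have := ((m2 p).1 h2).2.1
    linarith
  have dT3 : Disjoint T W3 := by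
    rw [Finset.disjoint_left]; intro p h1 h2
    have := ((hT p).1 h1).2.2.2
    have := ((m3 p).1 h2).2.1
    linarith
  have hVP : V ⊆ P := by
    rw [hV]; intro p hp
    rcases Finset.mem_insert.1 hp with rfl | hp
    · exact ha
    · rcases Finset.mem_insert.1 hp with rfl | hp
      · exact hb
      · rw [Finset.mem_singleton.1 hp]; exact hc
  have key : ∀ p ∈ V, ¬ InTri a b c p ∧ p ∉ W1 ∧ p ∉ W2 ∧ p ∉ W3 := by
    rw [hV]; intro p hp
    rcases Finset.mem_insert.1 hp with rfl | hp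
    · refine ⟨fun h => by have := h.1; linarith, fun h => ?_, fun h => ?_, fun h => ?_⟩
      · have := ((m1 p).1 h).2.1; linarith
      · have := ((m2 p).1 h).2.1; linarith
      · have := ((m3 p).1 h).2.1; linarith
    · rcases Finset.mem_insert.1 hp with rfl | hp
      · refine ⟨fun h => by have := h.1; linarith, fun h => ?_, fun h => ?_, fun h => ?_⟩
        · have := ((m1 p).1 h).2.1; linarith
        · have := ((m2 p).1 h).2.1; linarith
        · have := ((m3 p).1 h).2.1; linarith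
      · have hpc := Finset.mem_singleton.1 hp
        subst hpc
        refine ⟨fun h => by have := h.2.2; linarith, fun h => ?_, fun h => ?_, fun h => ?_⟩
        · have := ((m1 p).1 h).2.1; linarith
        · have := ((m2 p).1 h).2.1; linarith
        · have := ((m3 p).1 h).2.1; linarith
  have dTV : Disjoint T V := by
    rw [Finset.disjoint_left]; intro p h1 h2
    exact (key p h2).1 ((hT p).1 h1).2
  have d1V : Disjoint W1 V := by
    rw [Finset.disjoint_left]; intro p h1 h2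
    exact (key p h2).2.1 h1
  have d2V : Disjoint W2 V := by
    rw [Finset.disjoint_left]; intro p h1 h2
    exact (key p h2).2.2.1 h1
  have d3V : Disjoint W3 V := by
    rw [Finset.disjoint_left]; intro p h1 h2
    exact (key p h2).2.2.2 h1
  -- the decomposition
  have hdec : P = T ∪ (W1 ∪ (W2 ∪ (W3 ∪ V))) := by
    apply Finset.Subset.antisymm
    · intro p hp
      by_cases hpV : p ∈ V
      · simp only [Finset.mem_union]; tauto
      · have hpa : p ≠ a := by
          rintro rfl; exact hpV (by rw [hV]; simp)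
        have hpb : p ≠ b := by
          rintro rfl; exact hpV (by rw [hV]; simp)
        have hpc : p ≠ c := by
          rintro rfl; exact hpV (by rw [hV]; simp)
        have g1 : cr (b - a) (p - a) ≠ 0 := hgp a ha b hb p hp hab hpa.symm hpb.symm
        have g2 : cr (c - b) (p - b) ≠ 0 := hgp b hb c hc p hp hbc hpb.symm hpc.symm
        have g3 : cr (a - c) (p - c) ≠ 0 := hgp c hc a ha p hp hac.symm hpc.symm hpa.symm
        have hs := hsum p
        simp only [Finset.mem_union, hT, m1, m2, m3, InTri]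
        rcases lt_or_gt_of_ne g1 with g1 | g1 <;> rcases lt_or_gt_of_ne g2 with g2 | g2 <;>
          rcases lt_or_gt_of_ne g3 with g3 | g3
        · exact Or.inl ⟨hp, g1, g2, g3⟩
        · exact Or.inr (Or.inr (Or.inr (Or.inl ⟨hp, g3, g1⟩)))
        · exact Or.inr (Or.inr (Or.inl ⟨hp, g2, g3⟩))
        · exact Or.inr (Or.inr (Or.inr (Or.inl ⟨hp, g3, g1⟩)))
        · exact Or.inr (Or.inl ⟨hp, g1, g2⟩)
        · exact Or.inr (Or.inl ⟨hp, g1, g2⟩)
        · exact Or.inr (Or.inr (Or.inl ⟨hp, g2, g3⟩))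
        · exfalso; linarith
    · intro p hp
      simp only [Finset.mem_union] at hp
      rcases hp with h | h | h | h | h
      · exact ((hT p).1 h).1
      · exact ((m1 p).1 h).1
      · exact ((m2 p).1 h).1
      · exact ((m3 p).1 h).1
      · exact hVP h
  have e := h0
  rw [hdec, Dc79_disj, Dc79_disj, Dc79_disj, Dc79_disj] at e
  · have hv := Dc79_abs_le R V
    have hv3 : (V.card : ℤ) ≤ 3 := by exact_mod_cast hVc
    rw [abs_le] at b1 b2 b3 hv ⊢
    constructor <;> linarith [b1.1, b1.2, b2.1, b2.2, b3.1, b3.2, hv.1, hv.2]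
  · exact d3V
  · exact Finset.disjoint_union_right.2 ⟨d23, d2V⟩
  · exact Finset.disjoint_union_right.2 ⟨d12, Finset.disjoint_union_right.2 ⟨d13, d1V⟩⟩
  · exact Finset.disjoint_union_right.2 ⟨dT1, Finset.disjoint_union_right.2 ⟨dT2,
      Finset.disjoint_union_right.2 ⟨dT3, dTV⟩⟩⟩

/-- A point of the open triangle lies in the convex hull of every set containing the vertices. -/
theorem InTri.mem_hull {a b c p : ℝ × ℝ} (h : InTri a b c p) {F : Set (ℝ × ℝ)} (ha : a ∈ F)
    (hb : b ∈ F) (hc : c ∈ F) : p ∈ convexHull ℝ F := by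
  obtain ⟨h1, h2, h3⟩ := h
  obtain ⟨s, hs⟩ : ∃ s, s = cr (b - a) (p - a) + cr (c - b) (p - b) + cr (a - c) (p - c) :=
    ⟨_, rfl⟩
  have hs0 : s < 0 := by rw [hs]; linarith
  have hC := convex_convexHull ℝ F
  have ha' : a ∈ convexHull ℝ F := subset_convexHull ℝ F ha
  have hb' : b ∈ convexHull ℝ F := subset_convexHull ℝ F hb
  have hc' : c ∈ convexHull ℝ F := subset_convexHull ℝ F hc
  have hsne : s ≠ 0 := hs0.ne
  have e : p = (cr (c - b) (p - b) / s) • a + ((cr (a - c) (p - c) / s) • b +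
      (cr (b - a) (p - a) / s) • c) := by
    have k1 : s * p.1 = cr (c - b) (p - b) * a.1 + (cr (a - c) (p - c) * b.1 +
        cr (b - a) (p - a) * c.1) := by
      rw [hs]; simp only [cr, Prod.fst_sub, Prod.snd_sub]; ring
    have k2 : s * p.2 = cr (c - b) (p - b) * a.2 + (cr (a - c) (p - c) * b.2 +
        cr (b - a) (p - a) * c.2) := by
      rw [hs]; simp only [cr, Prod.fst_sub, Prod.snd_sub]; ring
    apply Prod.ext
    · simp only [Prod.fst_add, Prod.smul_fst, smul_eq_mul]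
      field_simp
      linarith
    · simp only [Prod.snd_add, Prod.smul_snd, smul_eq_mul]
      field_simp
      linarith
  have w1 : 0 ≤ cr (c - b) (p - b) / s := (div_pos_of_neg_of_neg h2 hs0).le
  have w2 : 0 ≤ cr (a - c) (p - c) / s := (div_pos_of_neg_of_neg h3 hs0).le
  have w3 : 0 ≤ cr (b - a) (p - a) / s := (div_pos_of_neg_of_neg h1 hs0).le
  have w : cr (c - b) (p - b) / s + (cr (a - c) (p - c) / s + cr (b - a) (p - a) / s) = 1 := by
    rw [← add_div, ← add_div, div_eq_one_iff_eq hsne]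
    linarith
  rw [e]
  have := hC.sum_mem (t := Finset.univ) (w := ![cr (c - b) (p - b) / s, cr (a - c) (p - c) / s,
    cr (b - a) (p - a) / s]) (z := ![a, b, c])
    (by intro i _; fin_cases i <;> simp <;> assumption)
    (by simp [Fin.sum_univ_succ]; linarith)
    (by intro i _; fin_cases i <;> simp <;> assumption)
  simpa [Fin.sum_univ_succ] using this

/-- The chain in a red-free convex polygon. -/
theorem chain79 {R B : Finset (ℝ × ℝ)} (hdis : Disjoint R B) (hgp : GP (R ∪ B)) {n : ℕ}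
    (hR : R.card = n) (hB : B.card = n) {D : ℕ} (hW : Wed79 R B D) {F : Finset (ℝ × ℝ)}
    (hF : F ⊆ B) (h2 : 2 ≤ F.card)
    (hred : ∀ r ∈ R, r ∉ convexHull ℝ (F : Set (ℝ × ℝ))) :
    ∃ (v : ℕ) (z : ℕ → ℝ × ℝ), 1 ≤ v ∧ (∀ i ≤ v, z i ∈ F) ∧
      (∀ i j, i < j → j ≤ v → z i ≠ z j) ∧
      (∀ i j k, i < j → j < k → k ≤ v → cr (z j - z i) (z k - z i) < 0) ∧
      F.card ≤ (v + 1) + (v - 1) * (3 * D + 3) ∧
      ∀ i ≤ v, ∀ j ≤ v, ∀ k ≤ v, ∀ r ∈ R, ¬ InTri (z i) (z j) (z k) r := by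
  classical
  have hFP : F ⊆ R ∪ B := hF.trans Finset.subset_union_right
  have hGF : GP F := fun p hp q hq r hr => hgp p (hFP hp) q (hFP hq) r (hFP hr)
  have hno : ∀ a ∈ F, ∀ b ∈ F, ∀ c ∈ F, ∀ r ∈ R, ¬ InTri a b c r := by
    intro a ha b hb c hc r hr h
    exact hred r hr (h.mem_hull (Finset.mem_coe.2 ha) (Finset.mem_coe.2 hb) (Finset.mem_coe.2 hc))
  obtain ⟨v, z, h1, hz, hinj, hcl, hcard⟩ := chain_exists F hGF h2 (3 * D + 3) (by
    intro a ha b hb c hc T hTF hT
    rcases Finset.eq_empty_or_nonempty T with rfl | ⟨p, hp⟩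
    · simp
    have hcl : cr (b - a) (c - a) < 0 := by
      have := hT p hp
      obtain ⟨g1, g2, g3⟩ := this
      have hsum : cr (b - a) (p - a) + cr (c - b) (p - b) + cr (a - c) (p - c) =
          cr (b - a) (c - a) := by
        simp only [cr, Prod.fst_sub, Prod.snd_sub]; ring
      linarith
    obtain ⟨S, hS⟩ : ∃ S, S = (R ∪ B).filter (fun p => InTri a b c p) := ⟨_, rfl⟩
    have hb1 := pinwheel79 hdis hgp hR hB hW (hFP ha) (hFP hb) (hFP hc) hcl (T := S)
      (by intro p; rw [hS, Finset.mem_filter])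
    have hSR : S ∩ R = ∅ := by
      rw [Finset.eq_empty_iff_forall_notMem]
      intro q hq
      obtain ⟨hq1, hq2⟩ := Finset.mem_inter.1 hq
      rw [hS, Finset.mem_filter] at hq1
      exact hno a ha b hb c hc q hq2 hq1.2
    have hTS : T ⊆ S \ R := by
      intro q hq
      have hqF := hTF hq
      rw [Finset.mem_sdiff, hS, Finset.mem_filter]
      exact ⟨⟨hFP hqF, hT q hq⟩, fun hqR => Finset.disjoint_left.1 hdis hqR (hF hqF)⟩
    have hc1 := Finset.card_le_card hTS
    unfold Dc79 at hb1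
    rw [hSR, Finset.card_empty] at hb1
    have hb2 := (abs_le.1 hb1).1
    have : (T.card : ℤ) ≤ 3 * D + 3 := by
      have : (T.card : ℤ) ≤ (S \ R).card := by exact_mod_cast hc1
      push_cast at hb2
      linarith
    exact_mod_cast this)
  exact ⟨v, z, h1, hz, hinj, hcl, hcard, fun i hi j hj k hk r hr =>
    hno _ (hz i hi) _ (hz j hj) _ (hz k hk) r hr⟩

end Pool.Agent.AltALL
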