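import Pool.Agent.AltALL.Refl42
import Pool.Agent.AltALL.Pin79

/-! The mirror image satisfies all the hypotheses of the one sided theorem (helper42). -/

namespace Pool.Agent.AltALL42

open Pool.Agent.AltPath Pool.Agent.HPD79 Pool.Agent.AltALL

theorem inTri_swap {a b c p : ℝ × ℝ} (h : InTri a.swap b.swap c.swap p.swap) : InTri c b a p := by
  obtain ⟨h1, h2, h3⟩ := h
  refine ⟨?_, ?_, ?_⟩
  all_goals
    simp only [cr, Prod.fst_sub, Prod.snd_sub, Prod.fst_swap, Prod.snd_swap] at h1 h2 h3 ⊢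
    linarith

theorem wb_iff_wed {R B : Finset (ℝ × ℝ)} (hdis : Disjoint R B) {D : ℕ} :
    WB R B D ↔ Wed79 R B D := by
  have key : ∀ x w1 w2 : ℝ × ℝ,
      Dc79 R ((R ∪ B).filter (fun p => 0 < dt w1 (p - x) ∧ 0 < dt w2 (p - x))) =
      ((R.filter fun p => 0 < dt w1 (p - x) ∧ 0 < dt w2 (p - x)).card : ℤ) -
      ((B.filter fun p => 0 < dt w1 (p - x) ∧ 0 < dt w2 (p - x)).card : ℤ) := by
    intro x w1 w2
    rw [Dc79]
    have e1 : ((R ∪ B).filter (fun p => 0 < dt w1 (p - x) ∧ 0 < dt w2 (p - x))) ∩ R =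
        R.filter (fun p => 0 < dt w1 (p - x) ∧ 0 < dt w2 (p - x)) := by
      ext p
      simp only [Finset.mem_inter, Finset.mem_filter, Finset.mem_union]
      tauto
    have e2 : ((R ∪ B).filter (fun p => 0 < dt w1 (p - x) ∧ 0 < dt w2 (p - x))) \ R =
        B.filter (fun p => 0 < dt w1 (p - x) ∧ 0 < dt w2 (p - x)) := by
      ext p
      have := fun (h1 : p ∈ B) (h2 : p ∈ R) => Finset.disjoint_left.mp hdis h2 h1
      simp only [Finset.mem_sdiff, Finset.mem_filter, Finset.mem_union]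
      tauto
    rw [e1, e2]
  constructor
  · intro h x hx w1 w2
    rw [key]
    exact h x hx w1 w2
  · intro h x hx w1 w2
    rw [← key]
    exact h x hx w1 w2

/-- All the hypotheses of the one sided theorem pass to the mirror image. -/
theorem refl_bundle {R B : Finset (ℝ × ℝ)} {n g K D v : ℕ} {z : ℕ → ℝ × ℝ}
    (hdis : Disjoint R B) (hgp : GP (R ∪ B)) (hR : R.card = n) (hB : B.card = n)
    (hN : ∀ k, HasPath R B k → k ≤ n + g)
    (hK : ∀ H, IsHP79 (R ∪ B) H → |Dc79 R H| ≤ K) (hW : Wed79 R B D)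
    (hzB : ∀ i ≤ v, z i ∈ B)
    (hz : ∀ i j k, i < j → j < k → k ≤ v → cr (z j - z i) (z k - z i) < 0)
    (htri : ∀ i j k, i ≤ v → j ≤ v → k ≤ v → ∀ r ∈ R, ¬ InTri (z i) (z j) (z k) r) :
    Disjoint (sw R) (sw B) ∧ GP (sw R ∪ sw B) ∧ (sw R).card = n ∧ (sw B).card = n ∧
      (∀ k, HasPath (sw R) (sw B) k → k ≤ n + g) ∧
      (∀ H, IsHP79 (sw R ∪ sw B) H → |Dc79 (sw R) H| ≤ K) ∧ Wed79 (sw R) (sw B) D ∧
      (∀ i ≤ v, (z (v - i)).swap ∈ sw B) ∧
      (∀ i j k, i < j → j < k → k ≤ v →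
        cr ((z (v - j)).swap - (z (v - i)).swap) ((z (v - k)).swap - (z (v - i)).swap) < 0) ∧
      (∀ i j k, i ≤ v → j ≤ v → k ≤ v → ∀ r ∈ sw R,
        ¬ InTri (z (v - i)).swap (z (v - j)).swap (z (v - k)).swap r) := by
  refine ⟨disjoint_sw hdis, ?_, ?_, ?_, ?_, hp_sw hK, ?_, ?_, ?_, ?_⟩
  · rw [← sw_union]; exact gp_sw hgp
  · rw [card_sw]; exact hR
  · rw [card_sw]; exact hB
  · intro k hk
    exact hN k (hasPath_sw_iff.mp hk)
  · rw [← wb_iff_wed (disjoint_sw hdis)]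
    exact wb_sw ((wb_iff_wed hdis).mpr hW)
  · intro i hi
    rw [swap_mem_sw]
    exact hzB _ (Nat.sub_le _ _)
  · intro i j k hij hjk hk
    have h4 := hz (v - k) (v - j) (v - i) (by omega) (by omega) (by omega)
    have e : cr ((z (v - j)).swap - (z (v - i)).swap) ((z (v - k)).swap - (z (v - i)).swap) =
        cr (z (v - j) - z (v - k)) (z (v - i) - z (v - k)) := by
      simp only [cr, Prod.fst_sub, Prod.snd_sub, Prod.fst_swap, Prod.snd_swap]; ring
    rw [e]
    exact h4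
  · intro i j k hi hj hk r hr h
    have hr' := mem_sw.mp hr
    rw [← Prod.swap_swap r] at h
    exact htri (v - k) (v - j) (v - i) (Nat.sub_le _ _) (Nat.sub_le _ _) (Nat.sub_le _ _) _ hr'
      (inTri_swap h)

/-- LG at the vertex i is RG at the vertex v - i of the mirror image. -/
theorem lg_rg {R B : Finset (ℝ × ℝ)} {M v i : ℕ} {z : ℕ → ℝ × ℝ} (hi : 1 ≤ i) (hiv : i ≤ v)
    (h : LG R B M (z i) (z (i - 1)) (z 0)) :
    RG (sw R) (sw B) M (z (v - (v - i))).swap (z (v - (v - i + 1))).swap (z (v - v)).swap := by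
  have e1 : v - (v - i) = i := by omega
  have e2 : v - (v - i + 1) = i - 1 := by omega
  rw [e1, e2, Nat.sub_self]
  exact lg_sw h

/-- One of two alternatives holds for half of the indices. -/
theorem majority42 (I : Finset ℕ) (P Q : ℕ → Prop) (h : ∀ i ∈ I, P i ∨ Q i) :
    (∃ J ⊆ I, I.card ≤ 2 * J.card ∧ ∀ i ∈ J, P i) ∨ ∃ J ⊆ I, I.card ≤ 2 * J.card ∧ ∀ i ∈ J, Q i := by
  classical
  have h1 : I.card ≤ (I.filter P).card + (I.filter Q).card := by
    have hsub : I ⊆ I.filter P ∪ I.filter Q := by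
      intro i hi
      rcases h i hi with h2 | h2
      · exact Finset.mem_union_left _ (Finset.mem_filter.mpr ⟨hi, h2⟩)
      · exact Finset.mem_union_right _ (Finset.mem_filter.mpr ⟨hi, h2⟩)
    exact (Finset.card_le_card hsub).trans (Finset.card_union_le _ _)
  rcases Nat.lt_or_ge (2 * (I.filter P).card) I.card with h2 | h2
  · right
    exact ⟨I.filter Q, Finset.filter_subset _ _, by omega, fun i hi => (Finset.mem_filter.mp hi).2⟩
  · left
    exact ⟨I.filter P, Finset.filter_subset _ _, h2, fun i hi => (Finset.mem_filter.mp hi).2⟩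

end Pool.Agent.AltALL42
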