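import Pool.Agent.AltPath.Geom

/-! Convex chains in finite planar sets whose triangles contain few points (section 3 of the
all-sets page for long alternating paths). -/

namespace Pool.Agent.AltALL

open Pool.Agent.AltPath

/-- Orientation determinant of three abstract points with coordinates X and Y. -/
def dD {α : Type*} (X Y : α → ℝ) (p q r : α) : ℝ :=
  (X q - X p) * (Y r - Y p) - (Y q - Y p) * (X r - X p)

/-- Cups can be extended: from the triples (j,k,i) and (k,i,w) one gets (j,k,w). -/
theorem dD_ext {α : Type*} (X Y : α → ℝ) (j k i w : α) (h1 : X j < X k) (h2 : X k < X i)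
    (h3 : X i < X w) (hjki : 0 < dD X Y j k i) (hkiw : 0 < dD X Y k i w) : 0 < dD X Y j k w := by
  unfold dD at *
  have e : (X i - X k) * ((X k - X j) * (Y w - Y j) - (Y k - Y j) * (X w - X j)) =
      (X w - X k) * ((X k - X j) * (Y i - Y j) - (Y k - Y j) * (X i - X j)) +
      (X k - X j) * ((X i - X k) * (Y w - Y k) - (Y i - Y k) * (X w - X k)) := by ring
  have hp : 0 < (X i - X k) * ((X k - X j) * (Y w - Y j) - (Y k - Y j) * (X w - X j)) := by
    rw [e]
    have a1 := mul_pos (sub_pos.mpr (h2.trans h3)) hjki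
    have a2 := mul_pos (sub_pos.mpr h1) hkiw
    linarith
  exact (mul_pos_iff_of_pos_left (sub_pos.mpr h2)).mp hp

/-- The lower hull of a finite set of points with different abscissae. -/
theorem lower_hull {α : Type*} [DecidableEq α] (X Y : α → ℝ) (S : Finset α)
    (hX : ∀ p ∈ S, ∀ q ∈ S, p ≠ q → X p ≠ X q)
    (hD : ∀ p ∈ S, ∀ q ∈ S, ∀ r ∈ S, p ≠ q → p ≠ r → q ≠ r → dD X Y p q r ≠ 0) :
    S.Nonempty → ∃ (r : ℕ) (z : ℕ → α), (∀ i ≤ r, z i ∈ S) ∧
      (∀ i j, i < j → j ≤ r → X (z i) < X (z j)) ∧
      (∀ i j k, i < j → j < k → k ≤ r → 0 < dD X Y (z i) (z j) (z k)) ∧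
      (∀ q ∈ S, (∃ i ≤ r, q = z i) ∨ ∃ i < r, X (z i) < X q ∧ X q < X (z (i + 1)) ∧
        0 < dD X Y (z i) (z (i + 1)) q) := by
  classical
  revert hX hD
  refine Finset.induction_on_max_value X S ?_ ?_
  · intro _ _ h
    exact absurd h (by simp)
  · intro w s hw hmax ih hX hD _
    have hXs : ∀ p ∈ s, ∀ q ∈ s, p ≠ q → X p ≠ X q := fun p hp q hq h =>
      hX p (Finset.mem_insert_of_mem hp) q (Finset.mem_insert_of_mem hq) h
    have hDs : ∀ p ∈ s, ∀ q ∈ s, ∀ r ∈ s, p ≠ q → p ≠ r → q ≠ r → dD X Y p q r ≠ 0 :=
      fun p hp q hq r hr => hD p (Finset.mem_insert_of_mem hp) q (Finset.mem_insert_of_mem hq) r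
        (Finset.mem_insert_of_mem hr)
    have hlt : ∀ p ∈ s, X p < X w := fun p hp => lt_of_le_of_ne (hmax p hp)
      (hX p (Finset.mem_insert_of_mem hp) w (Finset.mem_insert_self w s)
        (fun h => hw (h ▸ hp)))
    rcases s.eq_empty_or_nonempty with hs | hs
    · subst hs
      refine ⟨0, fun _ => w, ?_, ?_, ?_, ?_⟩
      · intro i _; exact Finset.mem_insert_self w _
      · intro i j h1 h2; omega
      · intro i j k h1 h2 h3; omega
      · intro q hq
        left
        refine ⟨0, le_rfl, ?_⟩
        simpa using hq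
    · obtain ⟨r, z, hz, hinc, hcv, hcov⟩ := ih hXs hDs hs
      -- the tangent index
      obtain ⟨i, hi, hslope⟩ := Finset.exists_max_image (Finset.range (r + 1))
        (fun j => (Y w - Y (z j)) / (X w - X (z j))) ⟨0, by simp⟩
      have hir : i ≤ r := by simpa [Nat.lt_succ_iff] using hi
      have hwz : ∀ j ≤ r, X (z j) < X w := fun j hj => hlt _ (hz j hj)
      -- every chain vertex is weakly above the line from z i to w
      have habove : ∀ j ≤ r, 0 ≤ dD X Y (z i) w (z j) := by
        intro j hj
        have h1 := hslope j (by simp; omega)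
        have hj' := sub_pos.mpr (hwz j hj)
        have hi' := sub_pos.mpr (hwz i hir)
        rw [div_le_div_iff₀ hj' hi'] at h1
        unfold dD
        nlinarith
      have hinj : ∀ a b, a ≤ r → b ≤ r → a ≠ b → z a ≠ z b := by
        intro a b ha hb hab h
        rcases lt_or_gt_of_ne hab with h1 | h1
        · have := hinc a b h1 hb
          rw [h] at this
          exact lt_irrefl _ this
        · have := hinc b a h1 ha
          rw [h] at this
          exact lt_irrefl _ this
      have hzw : ∀ j ≤ r, z j ≠ w := fun j hj h => hw (h ▸ hz j hj)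
      have habove' : ∀ j ≤ r, j ≠ i → 0 < dD X Y (z i) w (z j) := by
        intro j hj hji
        refine lt_of_le_of_ne (habove j hj) (Ne.symm ?_)
        exact hD _ (Finset.mem_insert_of_mem (hz i hir)) _ (Finset.mem_insert_self w s) _
          (Finset.mem_insert_of_mem (hz j hj)) (hzw i hir) (hinj i j hir hj (Ne.symm hji))
          (Ne.symm (hzw j hj))
      -- the new chain
      refine ⟨i + 1, fun j => if j ≤ i then z j else w, ?_, ?_, ?_, ?_⟩
      · intro j _
        by_cases h : j ≤ i
        · simp only [h, if_true]; exact Finset.mem_insert_of_mem (hz j (h.trans hir))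
        · simp only [h, if_false]; exact Finset.mem_insert_self w s
      · intro a b hab hb
        by_cases h : b ≤ i
        · have ha : a ≤ i := by omega
          simp only [h, ha, if_true]
          exact hinc a b hab (h.trans hir)
        · have ha : a ≤ i := by omega
          simp only [h, ha, if_true, if_false]
          exact hwz a (ha.trans hir)
      · intro a b c hab hbc hc
        have ha : a ≤ i := by omega
        have hb : b ≤ i := by omega
        by_cases h : c ≤ i
        · simp only [h, ha, hb, if_true]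
          exact hcv a b c hab hbc (h.trans hir)
        · simp only [h, ha, hb, if_true, if_false]
          have har : a ≤ r := ha.trans hir
          have hbr : b ≤ r := hb.trans hir
          have hxab := hinc a b hab hbr
          by_cases hbi : b = i
          · subst hbi
            have h1 := habove' a har (by omega)
            unfold dD at h1 ⊢
            nlinarith
          · have hbi' : b < i := by omega
            have h1 := habove' b hbr hbi
            have h2 : 0 < dD X Y (z b) (z i) w := by
              unfold dD at h1 ⊢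
              nlinarith
            exact dD_ext X Y (z a) (z b) (z i) w hxab (hinc b i hbi' hir) (hwz i hir)
              (hcv a b i hab hbi' hir) h2
      · intro q hq
        rcases Finset.mem_insert.mp hq with rfl | hq
        · left
          exact ⟨i + 1, le_rfl, by simp⟩
        · -- points of s
          have key : ∀ q' ∈ s, (∃ j ≤ r, i < j ∧ q' = z j) ∨ (∃ j < r, i ≤ j ∧ X (z j) < X q' ∧
              X q' < X (z (j + 1)) ∧ 0 < dD X Y (z j) (z (j + 1)) q') →
              X (z i) < X q' ∧ X q' < X w ∧ 0 < dD X Y (z i) w q' := by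
            intro q' hq' hh
            rcases hh with ⟨j, hj, hij, rfl⟩ | ⟨j, hj, hij, h1, h2, h3⟩
            · exact ⟨hinc i j hij hj, hwz j hj, habove' j hj (by omega)⟩
            · refine ⟨?_, hlt q' hq', ?_⟩
              · rcases Nat.lt_or_ge i j with h | h
                · exact (hinc i j h hj.le).trans h1
                · have : i = j := by omega
                  rw [this]; exact h1
              · have e1 := habove j hj.le
                have e2 := habove (j + 1) hj
                have hx : 0 < X (z (j + 1)) - X (z j) := sub_pos.mpr (hinc j (j + 1) (by omega) hj)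
                have hx0 : 0 < X w - X (z i) := sub_pos.mpr (hwz i hir)
                have ee : (X (z (j + 1)) - X (z j)) * dD X Y (z i) w q' =
                    (X (z (j + 1)) - X q') * dD X Y (z i) w (z j) +
                    (X q' - X (z j)) * dD X Y (z i) w (z (j + 1)) +
                    (X w - X (z i)) * dD X Y (z j) (z (j + 1)) q' := by
                  unfold dD; ring
                have hpos : 0 < (X (z (j + 1)) - X (z j)) * dD X Y (z i) w q' := by
                  rw [ee]
                  have b1 := mul_nonneg (sub_nonneg.mpr h2.le) e1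
                  have b2 := mul_nonneg (sub_nonneg.mpr h1.le) e2
                  have b3 := mul_pos hx0 h3
                  linarith
                exact (mul_pos_iff_of_pos_left hx).mp hpos
          rcases hcov q hq with ⟨j, hj, hjq⟩ | ⟨j, hj, h1, h2, h3⟩
          · by_cases hji : j ≤ i
            · left
              exact ⟨j, by omega, by simp only [hji, if_true]; exact hjq⟩
            · right
              obtain ⟨k1, k2, k3⟩ := key q hq (Or.inl ⟨j, hj, by omega, hjq⟩)
              refine ⟨i, by omega, ?_⟩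
              have n1 : ¬ (i + 1 ≤ i) := by omega
              simp only [le_refl, if_true, n1, if_false]
              exact ⟨k1, k2, k3⟩
          · by_cases hji : j < i
            · right
              refine ⟨j, by omega, ?_⟩
              have n1 : j ≤ i := by omega
              have n2 : j + 1 ≤ i := by omega
              simp only [n1, n2, if_true]
              exact ⟨h1, h2, h3⟩
            · right
              obtain ⟨k1, k2, k3⟩ := key q hq (Or.inr ⟨j, hj, by omega, h1, h2, h3⟩)
              refine ⟨i, by omega, ?_⟩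
              have n1 : ¬ (i + 1 ≤ i) := by omega
              simp only [le_refl, if_true, n1, if_false]
              exact ⟨k1, k2, k3⟩

/-- The open triangle of a clockwise triple. -/
def InTri (a b c p : ℝ × ℝ) : Prop :=
  cr (b - a) (p - a) < 0 ∧ cr (c - b) (p - b) < 0 ∧ cr (a - c) (p - c) < 0

/-- A finite set in general position all of whose open triangles contain at most t of its points
contains a long clockwise convex chain. -/
theorem chain_exists (G : Finset (ℝ × ℝ)) (hG : GP G) (h2 : 2 ≤ G.card) (t : ℕ)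
    (ht : ∀ a ∈ G, ∀ b ∈ G, ∀ c ∈ G, ∀ T ⊆ G, (∀ p ∈ T, InTri a b c p) → T.card ≤ t) :
    ∃ (v : ℕ) (z : ℕ → ℝ × ℝ), 1 ≤ v ∧ (∀ i ≤ v, z i ∈ G) ∧
      (∀ i j, i < j → j ≤ v → z i ≠ z j) ∧
      (∀ i j k, i < j → j < k → k ≤ v → cr (z j - z i) (z k - z i) < 0) ∧
      G.card ≤ (v + 1) + (v - 1) * t := by
  classical
  have hne : G.Nonempty := Finset.card_pos.mp (by omega)
  obtain ⟨p0, hp0, a, ha⟩ := exists_sep G hne
  set S := G.erase p0 with hS
  have hSne : S.Nonempty := by
    rw [← Finset.card_pos, hS, Finset.card_erase_of_mem hp0]; omega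
  have haS : ∀ q ∈ S, 0 < dt a (q - p0) := ha
  have hSG : ∀ q ∈ S, q ∈ G := fun q hq => (Finset.mem_erase.mp hq).2
  have hS0 : ∀ q ∈ S, q ≠ p0 := fun q hq => (Finset.mem_erase.mp hq).1
  have ha0 : a ≠ 0 := by
    rintro rfl
    obtain ⟨q, hq⟩ := hSne
    have := haS q hq
    simp [dt] at this
  have haa : 0 < dt a a := dt_self_pos ha0
  set X : ℝ × ℝ → ℝ := fun q => -(cr a (q - p0) / dt a (q - p0)) with hXd
  set Y : ℝ × ℝ → ℝ := fun q => 1 / dt a (q - p0) with hYd
  -- the two coordinate identities
  have hXid : ∀ p ∈ S, ∀ q ∈ S, (X q - X p) * (dt a (p - p0) * dt a (q - p0)) =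
      -(dt a a * cr (p - p0) (q - p0)) := by
    intro p hp q hq
    have h1 := (haS p hp).ne'
    have h2 := (haS q hq).ne'
    simp only [hXd]
    field_simp
    simp only [dt, cr, Prod.fst_sub, Prod.snd_sub]
    ring
  have hDid : ∀ p ∈ S, ∀ q ∈ S, ∀ r ∈ S,
      dD X Y p q r * (dt a (p - p0) * dt a (q - p0) * dt a (r - p0)) =
      -(dt a a * cr (q - p) (r - p)) := by
    intro p hp q hq r hr
    have h1 := (haS p hp).ne'
    have h2 := (haS q hq).ne'
    have h3 := (haS r hr).ne'
    simp only [hXd, hYd, dD]
    field_simp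
    simp only [dt, cr, Prod.fst_sub, Prod.snd_sub]
    ring
  have hXlt : ∀ p ∈ S, ∀ q ∈ S, (X p < X q ↔ cr (p - p0) (q - p0) < 0) := by
    intro p hp q hq
    have h1 := mul_pos (haS p hp) (haS q hq)
    have h := hXid p hp q hq
    constructor
    · intro hlt
      have h3 := mul_pos (sub_pos.mpr hlt) h1
      rw [h] at h3
      by_contra hcon
      push Not at hcon
      have := mul_nonneg haa.le hcon
      linarith
    · intro hlt
      have h3 := mul_pos_of_neg_of_neg (neg_neg_of_pos haa) hlt
      by_contra hcon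
      push Not at hcon
      have h4 := mul_nonneg (sub_nonneg.mpr hcon) h1.le
      nlinarith
  have hDlt : ∀ p ∈ S, ∀ q ∈ S, ∀ r ∈ S, (0 < dD X Y p q r ↔ cr (q - p) (r - p) < 0) := by
    intro p hp q hq r hr
    have h1 := mul_pos (mul_pos (haS p hp) (haS q hq)) (haS r hr)
    have h := hDid p hp q hq r hr
    constructor
    · intro hlt
      have h3 := mul_pos hlt h1
      rw [h] at h3
      by_contra hcon
      push Not at hcon
      have := mul_nonneg haa.le hcon
      linarith
    · intro hlt
      have h3 := mul_pos_of_neg_of_neg (neg_neg_of_pos haa) hlt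
      by_contra hcon
      push Not at hcon
      have h4 := mul_nonneg (neg_nonneg.mpr hcon) h1.le
      nlinarith
  have hX : ∀ p ∈ S, ∀ q ∈ S, p ≠ q → X p ≠ X q := by
    intro p hp q hq hpq he
    have h := hXid p hp q hq
    rw [he] at h
    have h1 : dt a a * cr (p - p0) (q - p0) = 0 := by linarith
    rcases mul_eq_zero.mp h1 with h2 | h2
    · exact haa.ne' h2
    · exact hG p0 hp0 p (hSG p hp) q (hSG q hq) (hS0 p hp).symm (hS0 q hq).symm hpq h2
  have hD : ∀ p ∈ S, ∀ q ∈ S, ∀ r ∈ S, p ≠ q → p ≠ r → q ≠ r → dD X Y p q r ≠ 0 := by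
    intro p hp q hq r hr hpq hpr hqr he
    have h := hDid p hp q hq r hr
    rw [he] at h
    have h1 : dt a a * cr (q - p) (r - p) = 0 := by linarith
    rcases mul_eq_zero.mp h1 with h2 | h2
    · exact haa.ne' h2
    · exact hG p (hSG p hp) q (hSG q hq) r (hSG r hr) hpq hpr hqr h2
  obtain ⟨r, y, hy, hinc, hcv, hcov⟩ := lower_hull X Y S hX hD hSne
  have hyne : ∀ i j, i < j → j ≤ r → y i ≠ y j := by
    intro i j hij hj h
    have := hinc i j hij hj
    rw [h] at this
    exact lt_irrefl _ this
  refine ⟨r + 1, fun i => if i = 0 then p0 else y (i - 1), by omega, ?_, ?_, ?_, ?_⟩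
  · intro i hi
    by_cases h : i = 0
    · simp only [h, if_true]; exact hp0
    · simp only [h, if_false]; exact hSG _ (hy _ (by omega))
  · intro i j hij hj
    have hj0 : j ≠ 0 := by omega
    by_cases h : i = 0
    · simp only [h, hj0, if_true, if_false]
      exact (hS0 _ (hy _ (by omega))).symm
    · simp only [h, hj0, if_false]
      exact hyne _ _ (by omega) (by omega)
  · intro i j k hij hjk hk
    have hj0 : j ≠ 0 := by omega
    have hk0 : k ≠ 0 := by omega
    by_cases h : i = 0
    · simp only [h, hj0, hk0, if_true, if_false]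
      exact (hXlt _ (hy _ (by omega)) _ (hy _ (by omega))).mp (hinc _ _ (by omega) (by omega))
    · simp only [h, hj0, hk0, if_false]
      exact (hDlt _ (hy _ (by omega)) _ (hy _ (by omega)) _ (hy _ (by omega))).mp
        (hcv _ _ _ (by omega) (by omega) (by omega))
  · -- the count
    have hcard : G.card = S.card + 1 := by
      rw [hS, Finset.card_erase_of_mem hp0]; omega
    set C : Finset (ℝ × ℝ) := (Finset.range (r + 1)).image y with hC
    have hCc : C.card ≤ r + 1 := by
      refine (Finset.card_image_le).trans ?_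
      simp
    set T : ℕ → Finset (ℝ × ℝ) := fun i => S.filter (fun q => InTri p0 (y i) (y (i + 1)) q) with hT
    have hsub : S ⊆ C ∪ (Finset.range r).biUnion T := by
      intro q hq
      rcases hcov q hq with ⟨i, hi, hqi⟩ | ⟨i, hi, h1, h2', h3⟩
      · exact Finset.mem_union_left _ (Finset.mem_image.mpr ⟨i, by simp; omega, hqi.symm⟩)
      · refine Finset.mem_union_right _ (Finset.mem_biUnion.mpr ⟨i, by simpa using hi, ?_⟩)
        refine Finset.mem_filter.mpr ⟨hq, ?_, ?_, ?_⟩
        · exact (hXlt _ (hy i hi.le) _ hq).mp h1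
        · exact (hDlt _ (hy i hi.le) _ (hy (i + 1) hi) _ hq).mp h3
        · have h4 := (hXlt _ hq _ (hy (i + 1) hi)).mp h2'
          have e : cr (p0 - y (i + 1)) (q - y (i + 1)) = cr (q - p0) (y (i + 1) - p0) := by
            simp only [cr, Prod.fst_sub, Prod.snd_sub]; ring
          rw [e]; exact h4
    have hTc : ∀ i ∈ Finset.range r, (T i).card ≤ t := by
      intro i hi
      have hi' : i < r := by simpa using hi
      refine ht p0 hp0 (y i) (hSG _ (hy i hi'.le)) (y (i + 1)) (hSG _ (hy (i + 1) hi')) (T i) ?_ ?_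
      · intro q hq; exact hSG q (Finset.mem_filter.mp hq).1
      · intro q hq; exact (Finset.mem_filter.mp hq).2
    have h1 := Finset.card_le_card hsub
    have h2' := Finset.card_union_le C ((Finset.range r).biUnion T)
    have h3 := Finset.card_biUnion_le_card_mul (Finset.range r) T t hTc
    rw [Finset.card_range] at h3
    have e : r + 1 - 1 = r := by omega
    rw [e, hcard]
    omega

/-- The affine dependency of four points. -/
theorem four_pt (p q r s a : ℝ × ℝ) (c : ℝ) :
    cr (r - q) (s - q) * (dt a p + c) - cr (r - p) (s - p) * (dt a q + c) +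
      cr (q - p) (s - p) * (dt a r + c) - cr (q - p) (r - p) * (dt a s + c) = 0 := by
  simp only [cr, dt, Prod.fst_sub, Prod.snd_sub]; ring

/-- An affine functional cannot have the signs plus, minus, plus, minus along a clockwise chain. -/
theorem no_alt {v : ℕ} {z : ℕ → ℝ × ℝ}
    (hz : ∀ i j k, i < j → j < k → k ≤ v → cr (z j - z i) (z k - z i) < 0)
    {i j k l : ℕ} (hij : i < j) (hjk : j < k) (hkl : k < l) (hl : l ≤ v) (a : ℝ × ℝ) (c : ℝ)
    (h1 : 0 ≤ dt a (z i) + c) (h2 : dt a (z j) + c ≤ 0) (h3 : 0 ≤ dt a (z k) + c)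
    (h4 : dt a (z l) + c ≤ 0) (hs : dt a (z i) + c ≠ 0 ∨ dt a (z j) + c ≠ 0 ∨
      dt a (z k) + c ≠ 0 ∨ dt a (z l) + c ≠ 0) : False := by
  have e := four_pt (z i) (z j) (z k) (z l) a c
  have d1 := hz j k l hjk hkl hl
  have d2 := hz i k l (hij.trans hjk) hkl hl
  have d3 := hz i j l hij (hjk.trans hkl) hl
  have d4 := hz i j k hij hjk (by omega)
  have t1 := mul_nonneg_of_nonpos_of_nonpos d2.le h2
  have t2 := mul_nonneg_of_nonpos_of_nonpos d4.le h4
  have t3 := mul_nonpos_of_nonpos_of_nonneg d1.le h1
  have t4 := mul_nonpos_of_nonpos_of_nonneg d3.le h3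
  have z1 : cr (z k - z j) (z l - z j) * (dt a (z i) + c) = 0 := by linarith
  have z2 : cr (z k - z i) (z l - z i) * (dt a (z j) + c) = 0 := by linarith
  have z3 : cr (z j - z i) (z l - z i) * (dt a (z k) + c) = 0 := by linarith
  have z4 : cr (z j - z i) (z k - z i) * (dt a (z l) + c) = 0 := by linarith
  rcases hs with h | h | h | h
  · exact h ((mul_eq_zero.mp z1).resolve_left d1.ne)
  · exact h ((mul_eq_zero.mp z2).resolve_left d2.ne)
  · exact h ((mul_eq_zero.mp z3).resolve_left d3.ne)
  · exact h ((mul_eq_zero.mp z4).resolve_left d4.ne)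

/-- An affine functional cannot change its sign strictly inside three disjoint windows. -/
theorem no_three_windows {v : ℕ} {z : ℕ → ℝ × ℝ}
    (hz : ∀ i j k, i < j → j < k → k ≤ v → cr (z j - z i) (z k - z i) < 0)
    {a1 b1 a2 b2 a3 b3 : ℕ} (h1 : a1 < b1) (h12 : b1 ≤ a2) (h2 : a2 < b2) (h23 : b2 ≤ a3)
    (h3 : a3 < b3) (hv : b3 ≤ v) (a : ℝ × ℝ) (c : ℝ)
    (s1 : (dt a (z a1) + c) * (dt a (z b1) + c) < 0)
    (s2 : (dt a (z a2) + c) * (dt a (z b2) + c) < 0)
    (s3 : (dt a (z a3) + c) * (dt a (z b3) + c) < 0) : False := by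
  -- a version with a positive first sign
  have main : ∀ (a : ℝ × ℝ) (c : ℝ), 0 < dt a (z a1) + c → dt a (z b1) + c < 0 →
      (dt a (z a2) + c) * (dt a (z b2) + c) < 0 →
      (dt a (z a3) + c) * (dt a (z b3) + c) < 0 → False := by
    intro a c p1 p2 q2 q3
    -- a positive value in the second window
    have hx : ∃ x, b1 < x ∧ x ≤ b2 ∧ 0 < dt a (z x) + c := by
      rcases mul_neg_iff.mp q2 with ⟨u, w⟩ | ⟨u, w⟩
      · refine ⟨a2, ?_, by omega, u⟩
        rcases Nat.lt_or_ge b1 a2 with h | h
        · exact h
        · have : a2 = b1 := by omega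
          rw [this] at u; linarith
      · exact ⟨b2, by omega, le_rfl, w⟩
    obtain ⟨x, hx1, hx2, hx3⟩ := hx
    have hy : ∃ y, x < y ∧ y ≤ b3 ∧ dt a (z y) + c < 0 := by
      rcases mul_neg_iff.mp q3 with ⟨u, w⟩ | ⟨u, w⟩
      · exact ⟨b3, by omega, le_rfl, w⟩
      · refine ⟨a3, ?_, by omega, u⟩
        rcases Nat.lt_or_ge x a3 with h | h
        · exact h
        · have : a3 = x := by omega
          rw [this] at u; linarith
    obtain ⟨y, hy1, hy2, hy3⟩ := hy
    exact no_alt hz h1 hx1 hy1 (by omega) a c p1.le p2.le hx3.le hy3.le (Or.inl p1.ne')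
  rcases mul_neg_iff.mp s1 with ⟨u, w⟩ | ⟨u, w⟩
  · exact main a c u w s2 s3
  · refine main (-a) (-c) ?_ ?_ ?_ ?_
    · have e : dt (-a) (z a1) + -c = -(dt a (z a1) + c) := by
        simp only [dt, Prod.fst_neg, Prod.snd_neg]; ring
      rw [e]; linarith
    · have e : dt (-a) (z b1) + -c = -(dt a (z b1) + c) := by
        simp only [dt, Prod.fst_neg, Prod.snd_neg]; ring
      rw [e]; linarith
    · have e : (dt (-a) (z a2) + -c) * (dt (-a) (z b2) + -c) =
          (dt a (z a2) + c) * (dt a (z b2) + c) := by
        simp only [dt, Prod.fst_neg, Prod.snd_neg]; ring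
      rw [e]; exact s2
    · have e : (dt (-a) (z a3) + -c) * (dt (-a) (z b3) + -c) =
          (dt a (z a3) + c) * (dt a (z b3) + c) := by
        simp only [dt, Prod.fst_neg, Prod.snd_neg]; ring
      rw [e]; exact s3

end Pool.Agent.AltALL
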