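import Mathlib
import Pool.Agent.AltPath.Geom

/-! Lines through a point of the chain with prescribed counts (MP_421d50, all sets), helper42. -/

namespace Pool.Agent.AltALL42

open Pool.Agent.AltPath

/-- A finite set of numbers leaves room in every interval. -/
theorem exists_between_avoid {lo hi : ℝ} (h : lo < hi) (Z : Finset ℝ) :
    ∃ u, lo < u ∧ u < hi ∧ u ∉ Z := by
  have h1 : (Set.Ioo lo hi \ (Z : Set ℝ)).Nonempty :=
    ((Set.Ioo_infinite h).sdiff Z.finite_toSet).nonempty
  obtain ⟨u, hu, hZ⟩ := h1
  exact ⟨u, hu.1, hu.2, fun hc => hZ (by exact_mod_cast hc)⟩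

/-- The discrete intermediate value theorem for two finite sets with ratios. -/
theorem ivt42 {α : Type*} [DecidableEq α] (A B : Finset α) (ρ : α → ℝ) (hdis : Disjoint A B)
    (hinj : ∀ x ∈ A ∪ B, ∀ y ∈ A ∪ B, ρ x = ρ y → x = y) (Z : Finset ℝ) (hi : ℝ) (k : ℤ) :
    ∀ (m : ℕ) (lo : ℝ), ((A ∪ B).filter fun x => lo < ρ x ∧ ρ x < hi).card = m → lo < hi →
      k ≤ ((A.filter fun x => lo < ρ x).card : ℤ) - ((B.filter fun x => ρ x ≤ lo).card : ℤ) →
      ((A.filter fun x => hi ≤ ρ x).card : ℤ) - ((B.filter fun x => ρ x < hi).card : ℤ) ≤ k →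
      ∃ u, lo < u ∧ u < hi ∧ u ∉ Z ∧ (∀ x ∈ A ∪ B, ρ x ≠ u) ∧
        ((A.filter fun x => u < ρ x).card : ℤ) - ((B.filter fun x => ρ x < u).card : ℤ) = k := by
  intro m
  induction m with
  | zero =>
    intro lo hm hlh h1 h2
    have hno : ∀ x ∈ A ∪ B, ¬ (lo < ρ x ∧ ρ x < hi) := by
      intro x hx hc
      have := Finset.card_eq_zero.mp hm
      have h3 : x ∈ ((A ∪ B).filter fun x => lo < ρ x ∧ ρ x < hi) :=
        Finset.mem_filter.mpr ⟨hx, hc⟩
      rw [this] at h3
      exact absurd h3 (Finset.notMem_empty x)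
    obtain ⟨u, hu1, hu2, huZ⟩ := exists_between_avoid hlh Z
    refine ⟨u, hu1, hu2, huZ, fun x hx hc => hno x hx ⟨by rw [hc]; exact hu1, by rw [hc]; exact hu2⟩, ?_⟩
    have e1 : (A.filter fun x => u < ρ x) = A.filter fun x => lo < ρ x := by
      apply Finset.filter_congr
      intro x hx
      constructor
      · intro h; linarith
      · intro h
        by_contra hc
        exact hno x (Finset.mem_union_left _ hx) ⟨h, by linarith [not_lt.mp hc]⟩
    have e2 : (B.filter fun x => ρ x < u) = B.filter fun x => ρ x ≤ lo := by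
      apply Finset.filter_congr
      intro x hx
      constructor
      · intro h
        by_contra hc
        exact hno x (Finset.mem_union_right _ hx) ⟨not_le.mp hc, by linarith⟩
      · intro h; linarith
    have e3 : (A.filter fun x => hi ≤ ρ x) = A.filter fun x => lo < ρ x := by
      apply Finset.filter_congr
      intro x hx
      constructor
      · intro h; linarith
      · intro h
        by_contra hc
        exact hno x (Finset.mem_union_left _ hx) ⟨h, not_le.mp hc⟩
    have e4 : (B.filter fun x => ρ x < hi) = B.filter fun x => ρ x ≤ lo := by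
      apply Finset.filter_congr
      intro x hx
      constructor
      · intro h
        by_contra hc
        exact hno x (Finset.mem_union_right _ hx) ⟨not_le.mp hc, h⟩
      · intro h; linarith
    rw [e3, e4] at h2
    rw [e1, e2]
    omega
  | succ m ih =>
    intro lo hm hlh h1 h2
    have hne : ((A ∪ B).filter fun x => lo < ρ x ∧ ρ x < hi).Nonempty := by
      rw [← Finset.card_pos, hm]; omega
    obtain ⟨x, hx, hmin⟩ := Finset.exists_min_image _ ρ hne
    obtain ⟨hxAB, hxlo, hxhi⟩ := Finset.mem_filter.mp hx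
    have hmin' : ∀ y ∈ A ∪ B, lo < ρ y → y ≠ x → ρ x < ρ y := by
      intro y hy hly hyx
      rcases lt_or_ge (ρ y) hi with h | h
      · have h3 := hmin y (Finset.mem_filter.mpr ⟨hy, hly, h⟩)
        rcases h3.lt_or_eq with h4 | h4
        · exact h4
        · exact absurd (hinj x hxAB y hy h4).symm hyx
      · linarith
    by_cases hk : k = ((A.filter fun x => lo < ρ x).card : ℤ) - ((B.filter fun x => ρ x ≤ lo).card : ℤ)
    · obtain ⟨u, hu1, hu2, huZ⟩ := exists_between_avoid hxlo Z
      have hge : ∀ y ∈ A ∪ B, lo < ρ y → ρ x ≤ ρ y := by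
        intro y hy h
        by_cases hyx : y = x
        · rw [hyx]
        · exact (hmin' y hy h hyx).le
      refine ⟨u, hu1, by linarith, huZ, ?_, ?_⟩
      · intro y hy hc
        have := hge y hy (by rw [hc]; exact hu1)
        linarith
      · have e1 : (A.filter fun x => u < ρ x) = A.filter fun x => lo < ρ x := by
          apply Finset.filter_congr
          intro y hy
          constructor
          · intro h; linarith
          · intro h
            have := hge y (Finset.mem_union_left _ hy) h
            linarith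
        have e2 : (B.filter fun x => ρ x < u) = B.filter fun x => ρ x ≤ lo := by
          apply Finset.filter_congr
          intro y hy
          constructor
          · intro h
            by_contra hc
            have := hge y (Finset.mem_union_right _ hy) (not_le.mp hc)
            linarith
          · intro h; linarith
        rw [e1, e2, hk]
    · -- move lo to ρ x
      have hcard : ((A ∪ B).filter fun y => ρ x < ρ y ∧ ρ y < hi).card = m := by
        have e : ((A ∪ B).filter fun y => ρ x < ρ y ∧ ρ y < hi) =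
            ((A ∪ B).filter fun y => lo < ρ y ∧ ρ y < hi).erase x := by
          ext y
          simp only [Finset.mem_filter, Finset.mem_erase]
          constructor
          · rintro ⟨hy, h3, h4⟩
            exact ⟨fun hc => by rw [hc] at h3; exact lt_irrefl _ h3, hy, by linarith, h4⟩
          · rintro ⟨hyx, hy, h3, h4⟩
            exact ⟨hy, hmin' y hy h3 hyx, h4⟩
        rw [e, Finset.card_erase_of_mem hx, hm]
        omega
      have hk' : k + 1 ≤ ((A.filter fun x => lo < ρ x).card : ℤ) -
          ((B.filter fun x => ρ x ≤ lo).card : ℤ) := by omega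
      have hstep : ((A.filter fun y => lo < ρ y).card : ℤ) - ((B.filter fun y => ρ y ≤ lo).card : ℤ)
          = ((A.filter fun y => ρ x < ρ y).card : ℤ) -
            ((B.filter fun y => ρ y ≤ ρ x).card : ℤ) + 1 := by
        rcases Finset.mem_union.mp hxAB with hxA | hxB
        · have hxB : x ∉ B := fun h => Finset.disjoint_left.mp hdis hxA h
          have e1 : (A.filter fun y => ρ x < ρ y) = (A.filter fun y => lo < ρ y).erase x := by
            ext y
            simp only [Finset.mem_filter, Finset.mem_erase]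
            constructor
            · rintro ⟨hy, h3⟩
              exact ⟨fun hc => by rw [hc] at h3; exact lt_irrefl _ h3, hy, by linarith⟩
            · rintro ⟨hyx, hy, h3⟩
              exact ⟨hy, hmin' y (Finset.mem_union_left _ hy) h3 hyx⟩
          have e2 : (B.filter fun y => ρ y ≤ ρ x) = B.filter fun y => ρ y ≤ lo := by
            apply Finset.filter_congr
            intro y hy
            constructor
            · intro h
              by_contra hc
              have := hmin' y (Finset.mem_union_right _ hy) (not_le.mp hc)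
                (fun hc => hxB (hc ▸ hy))
              linarith
            · intro h; linarith
          have hmem : x ∈ A.filter fun y => lo < ρ y := Finset.mem_filter.mpr ⟨hxA, hxlo⟩
          have hpos : 0 < (A.filter fun y => lo < ρ y).card := Finset.card_pos.mpr ⟨x, hmem⟩
          rw [e1, e2, Finset.card_erase_of_mem hmem]
          omega
        · have hxA : x ∉ A := fun h => Finset.disjoint_left.mp hdis h hxB
          have e1 : (A.filter fun y => ρ x < ρ y) = (A.filter fun y => lo < ρ y) := by
            apply Finset.filter_congr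
            intro y hy
            constructor
            · intro h; linarith
            · intro h
              exact hmin' y (Finset.mem_union_left _ hy) h (fun hc => hxA (hc ▸ hy))
          have e2 : (B.filter fun y => ρ y ≤ ρ x) = insert x (B.filter fun y => ρ y ≤ lo) := by
            ext y
            simp only [Finset.mem_filter, Finset.mem_insert]
            constructor
            · rintro ⟨hy, h3⟩
              by_cases hyx : y = x
              · exact Or.inl hyx
              · right
                refine ⟨hy, ?_⟩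
                by_contra hc
                have := hmin' y (Finset.mem_union_right _ hy) (not_le.mp hc) hyx
                linarith
            · rintro (rfl | ⟨hy, h3⟩)
              · exact ⟨hxB, le_refl _⟩
              · exact ⟨hy, by linarith⟩
          have hnot : x ∉ (B.filter fun y => ρ y ≤ lo) := by
            intro h
            have := (Finset.mem_filter.mp h).2
            linarith
          rw [e1, e2, Finset.card_insert_of_notMem hnot]
          omega
      obtain ⟨u, hu1, hu2, hu3, hu4, hu5⟩ := ih (ρ x) hcard hxhi (by omega) h2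
      exact ⟨u, by linarith, hu2, hu3, hu4, hu5⟩

theorem dt_sub_smul (X Y v : ℝ × ℝ) (u : ℝ) : dt (X - u • Y) v = dt X v - u * dt Y v := by
  simp only [dt, Prod.fst_sub, Prod.snd_sub, Prod.smul_fst, Prod.smul_snd, smul_eq_mul]; ring

theorem cr_ident (X Y v w : ℝ × ℝ) :
    dt X v * dt Y w - dt Y v * dt X w = cr X Y * cr v w := by
  simp only [dt, cr]; ring

/-- Lines through c: between two positions lo and hi of the line, the number of points of A minus
the number of points of B on the positive side takes every intermediate value. -/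
theorem line_exists (S A B : Finset (ℝ × ℝ)) (c X Y : ℝ × ℝ) (hXY : cr X Y ≠ 0)
    (hdis : Disjoint A B) (hA : ∀ p ∈ A, 0 < dt Y (p - c)) (hB : ∀ p ∈ B, dt Y (p - c) < 0)
    (hgp : ∀ x ∈ A ∪ B, ∀ y ∈ A ∪ B, x ≠ y → cr (x - c) (y - c) ≠ 0) {lo hi : ℝ} (hlh : lo < hi)
    (k : ℤ)
    (h1 : k ≤ ((A.filter fun p => 0 < dt (X - lo • Y) (p - c)).card : ℤ) -
      ((B.filter fun p => 0 ≤ dt (X - lo • Y) (p - c)).card : ℤ))
    (h2 : ((A.filter fun p => 0 ≤ dt (X - hi • Y) (p - c)).card : ℤ) -
      ((B.filter fun p => 0 < dt (X - hi • Y) (p - c)).card : ℤ) ≤ k) :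
    ∃ u, lo < u ∧ u < hi ∧ (∀ p ∈ S, p ≠ c → dt (X - u • Y) (p - c) ≠ 0) ∧
      ((A.filter fun p => 0 < dt (X - u • Y) (p - c)).card : ℤ) -
        ((B.filter fun p => 0 < dt (X - u • Y) (p - c)).card : ℤ) = k := by
  classical
  set ρ : ℝ × ℝ → ℝ := fun p => dt X (p - c) / dt Y (p - c) with hρ
  have hY : ∀ x ∈ A ∪ B, dt Y (x - c) ≠ 0 := by
    intro x hx
    rcases Finset.mem_union.mp hx with h | h
    · exact (hA x h).ne'
    · exact (hB x h).ne
  have hinj : ∀ x ∈ A ∪ B, ∀ y ∈ A ∪ B, ρ x = ρ y → x = y := by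
    intro x hx y hy h
    by_contra hne
    have h3 := hgp x hx y hy hne
    simp only [hρ] at h
    rw [div_eq_div_iff (hY x hx) (hY y hy)] at h
    have h4 := cr_ident X Y (x - c) (y - c)
    have h5 : cr X Y * cr (x - c) (y - c) = 0 := by rw [← h4]; linarith
    rcases mul_eq_zero.mp h5 with h6 | h6
    · exact hXY h6
    · exact h3 h6
  have a1 : ∀ u : ℝ, ∀ p ∈ A, (0 < dt (X - u • Y) (p - c) ↔ u < ρ p) := by
    intro u p hp
    have h := hA p hp
    rw [dt_sub_smul, hρ, lt_div_iff₀ h]
    constructor <;> intro <;> linarith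
  have a2 : ∀ u : ℝ, ∀ p ∈ A, (0 ≤ dt (X - u • Y) (p - c) ↔ u ≤ ρ p) := by
    intro u p hp
    have h := hA p hp
    rw [dt_sub_smul, hρ, le_div_iff₀ h]
    constructor <;> intro <;> linarith
  have b1 : ∀ u : ℝ, ∀ p ∈ B, (0 < dt (X - u • Y) (p - c) ↔ ρ p < u) := by
    intro u p hp
    have h := hB p hp
    rw [dt_sub_smul, hρ, div_lt_iff_of_neg h]
    constructor <;> intro <;> linarith
  have b2 : ∀ u : ℝ, ∀ p ∈ B, (0 ≤ dt (X - u • Y) (p - c) ↔ ρ p ≤ u) := by
    intro u p hp
    have h := hB p hp
    rw [dt_sub_smul, hρ, div_le_iff_of_neg h]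
    constructor <;> intro <;> linarith
  rw [Finset.filter_congr (a1 lo), Finset.filter_congr (b2 lo)] at h1
  rw [Finset.filter_congr (a2 hi), Finset.filter_congr (b1 hi)] at h2
  obtain ⟨u, hu1, hu2, hu3, hu4, hu5⟩ := ivt42 A B ρ hdis hinj (S.image ρ) hi k _ lo rfl hlh h1 h2
  refine ⟨u, hu1, hu2, ?_, ?_⟩
  · intro p hp hpc h0
    rw [dt_sub_smul] at h0
    by_cases hYp : dt Y (p - c) = 0
    · rw [hYp] at h0
      have h4 := cr_ident X Y (p - c) (p - c)
      have h5 : dt X (p - c) = 0 := by linarith
      have h6 : ∀ v : ℝ × ℝ, cr X Y * v.1 = dt X v * Y.2 - X.2 * dt Y v ∧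
          cr X Y * v.2 = X.1 * dt Y v - dt X v * Y.1 := by
        intro v
        simp only [dt, cr]
        constructor <;> ring
      obtain ⟨h7, h8⟩ := h6 (p - c)
      rw [h5, hYp] at h7 h8
      apply hpc
      have h9 : (p - c).1 = 0 := by
        have : cr X Y * (p - c).1 = 0 := by rw [h7]; ring
        exact (mul_eq_zero.mp this).resolve_left hXY
      have h10 : (p - c).2 = 0 := by
        have : cr X Y * (p - c).2 = 0 := by rw [h8]; ring
        exact (mul_eq_zero.mp this).resolve_left hXY
      have h11 : p - c = 0 := Prod.ext h9 h10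
      exact sub_eq_zero.mp h11
    · apply hu3
      refine Finset.mem_image.mpr ⟨p, hp, ?_⟩
      simp only [hρ]
      rw [div_eq_iff hYp]
      linarith
  · rw [Finset.filter_congr (a1 u), Finset.filter_congr (b1 u)]
    exact hu5

/-- The functional of the left side of a vector. -/
def lf (e : ℝ × ℝ) : ℝ × ℝ := (-e.2, e.1)

theorem dt_lf (e v : ℝ × ℝ) : dt (lf e) v = cr e v := by simp only [dt, cr, lf]; ring

theorem cr_anti (u v : ℝ × ℝ) : cr u v = -cr v u := by simp only [cr]; ring

/-- A vector in the cone of two vectors w and e (clockwise pair). -/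
theorem cone_dt {w e v : ℝ × ℝ} (hwe : cr w e < 0) (h1 : 0 < cr e v) (h2 : cr w v < 0)
    {t : ℝ × ℝ} (hw : 0 < dt t w) (he : 0 < dt t e) : 0 < dt t v := by
  have key : dt t v * cr e w = cr e v * dt t w + (-cr w v) * dt t e := by
    simp only [dt, cr]; ring
  have h3 : 0 < cr e w := by rw [cr_anti]; linarith
  have h4 : 0 < dt t v * cr e w := by
    rw [key]
    have := mul_pos h1 hw
    have := mul_pos (neg_pos.mpr h2) he
    linarith
  exact (mul_pos_iff_of_pos_right h3).mp h4

/-- The line T of the main lemma exists. q1 is the next vertex, c the far corner. -/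
theorem T_exists (R B : Finset (ℝ × ℝ)) (hdis : Disjoint R B) (hgp : GP (R ∪ B))
    {q q1 c : ℝ × ℝ} (hq : q ∈ R ∪ B) (hq1 : q1 ∈ B) (h0 : cr (q1 - q) (c - q) < 0) (M : ℕ)
    (h1 : M ≤ (R.filter fun p => 0 < cr (c - q) (p - q)).card)
    (h2 : (R.filter fun p => 0 < cr (c - q) (p - q) ∧ cr (q1 - q) (p - q) < 0).card ≤
      (B.filter fun p => cr (c - q) (p - q) < 0 ∧ cr (q1 - q) (p - q) < 0).card + M) :
    ∃ τ : ℝ × ℝ, 0 < dt τ (c - q) ∧ 0 < dt τ (q1 - q) ∧
      (∀ p ∈ R ∪ B, p ≠ q → dt τ (p - q) ≠ 0) ∧
      (R.filter fun p => 0 < cr (c - q) (p - q) ∧ 0 < dt τ (p - q)).card =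
        (B.filter fun p => cr (c - q) (p - q) < 0 ∧ 0 < dt τ (p - q)).card + M := by
  classical
  set e := c - q with he
  set w := q1 - q with hw
  have hew : 0 < cr e w := by rw [cr_anti]; linarith
  have hene : e ≠ 0 := by
    intro h
    rw [h] at hew
    simp [cr] at hew
  have hee := dt_self_pos hene
  set A := R.filter fun p => 0 < cr e (p - q) with hA
  set L := B.filter fun p => cr e (p - q) < 0 with hL
  have hXY : cr e (lf e) ≠ 0 := by
    have : cr e (lf e) = dt e e := by simp only [cr, lf, dt]; ring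
    rw [this]; exact hee.ne'
  have hdAL : Disjoint A L := Finset.disjoint_of_subset_left (Finset.filter_subset _ _)
    (Finset.disjoint_of_subset_right (Finset.filter_subset _ _) hdis)
  have hAY : ∀ p ∈ A, 0 < dt (lf e) (p - q) := by
    intro p hp; rw [dt_lf]; exact (Finset.mem_filter.mp hp).2
  have hLY : ∀ p ∈ L, dt (lf e) (p - q) < 0 := by
    intro p hp; rw [dt_lf]; exact (Finset.mem_filter.mp hp).2
  have hmem : ∀ x ∈ A ∪ L, x ∈ R ∪ B ∧ x ≠ q := by
    intro x hx
    rcases Finset.mem_union.mp hx with h | h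
    · refine ⟨Finset.mem_union_left _ (Finset.mem_filter.mp h).1, ?_⟩
      rintro rfl
      have := (Finset.mem_filter.mp h).2
      simp [cr] at this
    · refine ⟨Finset.mem_union_right _ (Finset.mem_filter.mp h).1, ?_⟩
      rintro rfl
      have := (Finset.mem_filter.mp h).2
      simp [cr] at this
  have hgpq : ∀ x ∈ A ∪ L, ∀ y ∈ A ∪ L, x ≠ y → cr (x - q) (y - q) ≠ 0 := by
    intro x hx y hy hxy
    obtain ⟨h3, h4⟩ := hmem x hx
    obtain ⟨h5, h6⟩ := hmem y hy
    exact hgp q hq x h3 y h5 h4.symm h6.symm hxy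
  -- the position of the next vertex
  set hi : ℝ := dt e w / cr e w with hhi
  have hhiv : ∀ v : ℝ × ℝ, cr e w * dt (e - hi • lf e) v = -(dt e e * cr w v) := by
    intro v
    rw [dt_sub_smul, dt_lf, hhi, mul_sub, ← mul_assoc, mul_div_cancel₀ _ hew.ne']
    simp only [dt, cr]; ring
  have hhi1 : ∀ v : ℝ × ℝ, (0 < dt (e - hi • lf e) v ↔ cr w v < 0) := by
    intro v
    constructor
    · intro h
      have := mul_pos hew h
      rw [hhiv] at this
      by_contra hc
      have := mul_nonneg hee.le (not_lt.mp hc)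
      linarith
    · intro h
      have h3 : 0 < cr e w * dt (e - hi • lf e) v := by
        rw [hhiv]
        have := mul_pos_of_neg_of_neg (neg_lt_zero.mpr hee) h
        linarith
      exact (mul_pos_iff_of_pos_left hew).mp h3
  have hhi2 : ∀ p ∈ A, (0 ≤ dt (e - hi • lf e) (p - q) ↔ cr w (p - q) < 0) := by
    intro p hp
    constructor
    · intro h
      have h3 := mul_nonneg hew.le h
      rw [hhiv] at h3
      have h4 : cr w (p - q) ≤ 0 := by
        by_contra hc
        have := mul_pos hee (not_le.mp hc)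
        linarith
      refine lt_of_le_of_ne h4 ?_
      have h5 := hmem p (Finset.mem_union_left _ hp)
      refine hgp q hq q1 (Finset.mem_union_right _ hq1) p h5.1 ?_ h5.2.symm ?_
      · intro h6
        rw [hw, ← h6] at hew
        simp [cr] at hew
      · intro h6
        exact Finset.disjoint_left.mp hdis (Finset.mem_filter.mp hp).1 (h6 ▸ hq1)
    · intro h
      exact ((hhi1 _).mpr h).le
  -- a very low position
  obtain ⟨lo, hlohi, hlo⟩ : ∃ lo : ℝ, lo < hi ∧ ∀ x ∈ A ∪ L,
      lo < dt e (x - q) / cr e (x - q) := by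
    obtain ⟨b, hb⟩ := ((insert hi ((A ∪ L).image fun x => dt e (x - q) / cr e (x - q))) :
      Finset ℝ).bddBelow
    refine ⟨b - 1, ?_, ?_⟩
    · have := hb (by simp : hi ∈ _)
      linarith
    · intro x hx
      have := hb (Finset.mem_coe.mpr (Finset.mem_insert_of_mem (Finset.mem_image_of_mem
        (fun x => dt e (x - q) / cr e (x - q)) hx)))
      linarith
  have g1 : (A.filter fun p => 0 < dt (e - lo • lf e) (p - q)) = A := by
    apply Finset.filter_true_of_mem
    intro p hp
    have h3 := hlo p (Finset.mem_union_left _ hp)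
    have h4 : 0 < cr e (p - q) := (Finset.mem_filter.mp hp).2
    rw [lt_div_iff₀ h4] at h3
    rw [dt_sub_smul, dt_lf]
    linarith
  have g2 : (L.filter fun p => 0 ≤ dt (e - lo • lf e) (p - q)) = ∅ := by
    apply Finset.filter_false_of_mem
    intro p hp hc
    have h3 := hlo p (Finset.mem_union_right _ hp)
    have h4 : cr e (p - q) < 0 := (Finset.mem_filter.mp hp).2
    rw [lt_div_iff_of_neg h4] at h3
    rw [dt_sub_smul, dt_lf] at hc
    linarith
  have g3 : (A.filter fun p => 0 ≤ dt (e - hi • lf e) (p - q)) =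
      R.filter fun p => 0 < cr e (p - q) ∧ cr w (p - q) < 0 := by
    rw [Finset.filter_congr hhi2, hA, Finset.filter_filter]
  have g4 : (L.filter fun p => 0 < dt (e - hi • lf e) (p - q)) =
      B.filter fun p => cr e (p - q) < 0 ∧ cr w (p - q) < 0 := by
    rw [Finset.filter_congr (fun p _ => hhi1 (p - q)), hL, Finset.filter_filter]
  obtain ⟨u, hu1, hu2, hu3, hu4⟩ := line_exists (R ∪ B) A L q e (lf e) hXY hdAL hAY hLY hgpq
    hlohi (M : ℤ) (by rw [g1, g2]; simp only [Finset.card_empty]; omega)
    (by rw [g3, g4]; omega)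
  refine ⟨e - u • lf e, ?_, ?_, hu3, ?_⟩
  · rw [dt_sub_smul, dt_lf]
    have : cr e e = 0 := by simp only [cr]; ring
    rw [this]; linarith
  · rw [dt_sub_smul, dt_lf]
    rw [hhi, lt_div_iff₀ hew] at hu2
    linarith
  · rw [hA, hL, Finset.filter_filter, Finset.filter_filter] at hu4
    omega

/-- The sector between the next vertex and the far corner is right of T. -/
theorem sec_sub (R : Finset (ℝ × ℝ)) {q q1 c τ : ℝ × ℝ} (h0 : cr (q1 - q) (c - q) < 0)
    (h1 : 0 < dt τ (c - q)) (h2 : 0 < dt τ (q1 - q)) :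
    (R.filter fun p => 0 < cr (c - q) (p - q) ∧ cr (q1 - q) (p - q) < 0) ⊆
      R.filter fun p => 0 < cr (c - q) (p - q) ∧ 0 < dt τ (p - q) := by
  intro p hp
  obtain ⟨hpR, h3, h4⟩ := Finset.mem_filter.mp hp
  exact Finset.mem_filter.mpr ⟨hpR, h3, cone_dt h0 h3 h4 h2 h1⟩

/-- RG at q towards the target c with the next vertex q1. -/
def RG (R B : Finset (ℝ × ℝ)) (M : ℕ) (q q1 c : ℝ × ℝ) : Prop :=
  (R.filter fun p => 0 < cr (c - q) (p - q) ∧ cr (q1 - q) (p - q) < 0).card ≤
    (B.filter fun p => cr (c - q) (p - q) < 0 ∧ cr (q1 - q) (p - q) < 0).card + M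

/-- LG at q towards the target c with the previous vertex q1: the mirror image. -/
def LG (R B : Finset (ℝ × ℝ)) (M : ℕ) (q q1 c : ℝ × ℝ) : Prop :=
  (R.filter fun p => cr (c - q) (p - q) < 0 ∧ 0 < cr (q1 - q) (p - q)).card ≤
    (B.filter fun p => 0 < cr (c - q) (p - q) ∧ 0 < cr (q1 - q) (p - q)).card + M

/-- One of the two targets is usable at q. The four points q1, c, c0, q0 are seen from q in
clockwise order inside an angle less than pi. -/
theorem rg_or_lg (R B : Finset (ℝ × ℝ)) (M D : ℕ) (hDM : D ≤ M) {q q1 c c0 q0 : ℝ × ℝ}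
    (hW : ∀ w1 w2 : ℝ × ℝ, |((R.filter fun p => 0 < dt w1 (p - q) ∧ 0 < dt w2 (p - q)).card : ℤ) -
      ((B.filter fun p => 0 < dt w1 (p - q) ∧ 0 < dt w2 (p - q)).card : ℤ)| ≤ D)
    (h1 : cr (q1 - q) (c - q) < 0) (h2 : cr (c - q) (c0 - q) < 0)
    (h3 : cr (c0 - q) (q0 - q) < 0) (h4 : cr (q1 - q) (c0 - q) < 0)
    (h5 : cr (c - q) (q0 - q) < 0) (h6 : cr (q1 - q) (q0 - q) < 0) :
    RG R B M q q1 c ∨ LG R B M q q0 c0 := by
  by_contra hcon
  rw [not_or] at hcon
  obtain ⟨hR, hL⟩ := hcon
  simp only [RG, LG, not_le] at hR hL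
  -- the sector of q1 and c lies in the wedge of the mirror image
  have i1 : (B.filter fun p => 0 < cr (c - q) (p - q) ∧ cr (q1 - q) (p - q) < 0).card ≤
      (B.filter fun p => 0 < cr (c0 - q) (p - q) ∧ 0 < cr (q0 - q) (p - q)).card := by
    apply Finset.card_le_card
    intro p hp
    obtain ⟨hpB, h7, h8⟩ := Finset.mem_filter.mp hp
    refine Finset.mem_filter.mpr ⟨hpB, ?_, ?_⟩
    · rw [← dt_lf]
      apply cone_dt h1 h7 h8
      · rw [dt_lf, cr_anti]; linarith
      · rw [dt_lf, cr_anti]; linarith
    · rw [← dt_lf]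
      apply cone_dt h1 h7 h8
      · rw [dt_lf, cr_anti]; linarith
      · rw [dt_lf, cr_anti]; linarith
  have i2 : (B.filter fun p => cr (c0 - q) (p - q) < 0 ∧ 0 < cr (q0 - q) (p - q)).card ≤
      (B.filter fun p => cr (c - q) (p - q) < 0 ∧ cr (q1 - q) (p - q) < 0).card := by
    apply Finset.card_le_card
    intro p hp
    obtain ⟨hpB, h7, h8⟩ := Finset.mem_filter.mp hp
    refine Finset.mem_filter.mpr ⟨hpB, ?_, ?_⟩
    · have h9 : 0 < dt (-lf (c - q)) (p - q) := by
        apply cone_dt h3 h8 h7
        · have : dt (-lf (c - q)) (c0 - q) = -cr (c - q) (c0 - q) := by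
            simp only [dt, cr, lf, Prod.fst_neg, Prod.snd_neg]; ring
          rw [this]; linarith
        · have : dt (-lf (c - q)) (q0 - q) = -cr (c - q) (q0 - q) := by
            simp only [dt, cr, lf, Prod.fst_neg, Prod.snd_neg]; ring
          rw [this]; linarith
      have : dt (-lf (c - q)) (p - q) = -cr (c - q) (p - q) := by
        simp only [dt, cr, lf, Prod.fst_neg, Prod.snd_neg]; ring
      rw [this] at h9; linarith
    · have h9 : 0 < dt (-lf (q1 - q)) (p - q) := by
        apply cone_dt h3 h8 h7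
        · have : dt (-lf (q1 - q)) (c0 - q) = -cr (q1 - q) (c0 - q) := by
            simp only [dt, cr, lf, Prod.fst_neg, Prod.snd_neg]; ring
          rw [this]; linarith
        · have : dt (-lf (q1 - q)) (q0 - q) = -cr (q1 - q) (q0 - q) := by
            simp only [dt, cr, lf, Prod.fst_neg, Prod.snd_neg]; ring
          rw [this]; linarith
      have : dt (-lf (q1 - q)) (p - q) = -cr (q1 - q) (p - q) := by
        simp only [dt, cr, lf, Prod.fst_neg, Prod.snd_neg]; ring
      rw [this] at h9; linarith
  have j1 := hW (lf (c - q)) (-lf (q1 - q))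
  have j2 := hW (-lf (c0 - q)) (lf (q0 - q))
  have k1 : ∀ e v : ℝ × ℝ, (0 < dt (-lf e) v ↔ cr e v < 0) := by
    intro e v
    have : dt (-lf e) v = -cr e v := by
      simp only [dt, cr, lf, Prod.fst_neg, Prod.snd_neg]; ring
    rw [this]; constructor <;> intro <;> linarith
  simp only [dt_lf, k1] at j1 j2
  rw [abs_le] at j1 j2
  have j3 := j1.2
  have j4 := j2.2
  omega

end Pool.Agent.AltALL42
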