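import Pool.Agent.AltALL.Pin79
import Pool.Agent.AltALL.Tline42

/-! The configuration of the main lemma: a blue convex chain with red-free triangles in a balanced
set without long alternating paths. -/

namespace Pool.Agent.AltALL

open Pool.Agent.AltPath Pool.Agent.AltHP Pool.Agent.HPD79 Pool.Agent.AltALL42

/-- The configuration: two colour classes of n points in general position, no alternating path
with more than n + g vertices, half-planes balanced up to K, wedges with apex in the set balanced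
up to D, and a clockwise convex chain z 0, ..., z v of blue points all of whose triangles are free
of red points. -/
structure Conf79 (R B : Finset (ℝ × ℝ)) (n g K D v : ℕ) (z : ℕ → ℝ × ℝ) : Prop where
  dis : Disjoint R B
  gp : GP (R ∪ B)
  cR : R.card = n
  cB : B.card = n
  path : ∀ k, HasPath R B k → k ≤ n + g
  hp : ∀ H, IsHP79 (R ∪ B) H → |Dc79 R H| ≤ K
  wed : Wed79 R B D
  zB : ∀ i ≤ v, z i ∈ B
  cl : ∀ i j k, i < j → j < k → k ≤ v → cr (z j - z i) (z k - z i) < 0
  red : ∀ i ≤ v, ∀ j ≤ v, ∀ k ≤ v, ∀ r ∈ R, ¬ InTri (z i) (z j) (z k) r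

/-- The one-sided theorem: too many windows at which the far corner z v is usable. -/
def OneSided79 : Prop :=
  ∀ (R B : Finset (ℝ × ℝ)) (n g K D v M K0 : ℕ) (z : ℕ → ℝ × ℝ) (I : Finset ℕ),
    Conf79 R B n g K D v z → M = g + K + D + 2 → K0 = D + 3 →
    (∀ i ∈ I, ∀ j ∈ I, i < j → i + M * K0 ≤ j) → (∀ i ∈ I, i + M * K0 + v / 3 ≤ v) →
    (∀ i ∈ I, RG R B M (z i) (z (i + 1)) (z v)) → 100 * (M * K0) ≤ v → 64 * n ≤ I.card * v →
    1024 * M * n ^ 2 ≤ I.card * v ^ 2 → False

/-- The exchange of the two coordinates. -/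
def sw79 (p : ℝ × ℝ) : ℝ × ℝ := (p.2, p.1)

/-- The mirror statement for configurations. -/
def Refl79 : Prop :=
  ∀ (R B : Finset (ℝ × ℝ)) (n g K D v : ℕ) (z : ℕ → ℝ × ℝ), Conf79 R B n g K D v z →
    Conf79 (R.image sw79) (B.image sw79) n g K D v (fun i => sw79 (z (v - i))) ∧
    ∀ (M : ℕ) (q q1 c : ℝ × ℝ), LG R B M q q1 c →
      RG (R.image sw79) (B.image sw79) M (sw79 q) (sw79 q1) (sw79 c)

end Pool.Agent.AltALL
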