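import Pool.Agent.AltHP.GOne

/-! Zigzag paths with detours through ghosts: if no large set of ghosts has a hull without red
points, then the zigzag of the reds above a line and the blues below it picks up as many ghosts as
there are additional reds. -/

namespace Pool.Agent.AltALL71

open Pool.Agent.AltPath Pool.Agent.AltHP

/-- No point of A lies in the convex hull of F. -/
def Free (A F : Finset (ℝ × ℝ)) : Prop := ∀ r ∈ A, r ∉ convexHull ℝ (F : Set (ℝ × ℝ))

theorem pos_left {x y : ℝ} (h : 0 < x * y) (hy : 0 ≤ y) : 0 < x := by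
  by_contra hc
  push Not at hc
  linarith [mul_nonpos_of_nonpos_of_nonneg hc hy]

theorem pos_right {x y : ℝ} (h : 0 < x * y) (hx : 0 ≤ x) : 0 < y :=
  pos_left (by rwa [mul_comm] at h) hx

theorem dt_comb (w x y : ℝ × ℝ) (s t : ℝ) : dt w (s • x + t • y) = s * dt w x + t * dt w y := by
  simp only [dt, Prod.fst_add, Prod.snd_add, Prod.smul_fst, Prod.smul_snd, smul_eq_mul]; ring

theorem convex_lt (w : ℝ × ℝ) (c : ℝ) : Convex ℝ {x : ℝ × ℝ | dt w x < c} := by
  intro x hx y hy s t hs ht hst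
  simp only [Set.mem_setOf_eq] at hx hy ⊢
  rw [dt_comb]
  rcases lt_or_eq_of_le hs with h | h
  · have h1 := mul_lt_mul_of_pos_left hx h
    have h2 := mul_le_mul_of_nonneg_left hy.le ht
    have h3 : s * c + t * c = c := by rw [← add_mul, hst, one_mul]
    linarith
  · have h4 : t = 1 := by linarith
    rw [← h, h4]; linarith

theorem hull_lt {w r : ℝ × ℝ} {F : Finset (ℝ × ℝ)} (h : ∀ y ∈ F, dt w y < dt w r) :
    r ∉ convexHull ℝ (F : Set (ℝ × ℝ)) := by
  intro hr
  have h1 : convexHull ℝ (F : Set (ℝ × ℝ)) ⊆ {x : ℝ × ℝ | dt w x < dt w r} :=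
    convexHull_min (fun y hy => h y (Finset.mem_coe.mp hy)) (convex_lt w _)
  have h2 : dt w r < dt w r := h1 hr
  exact lt_irrefl _ h2

theorem hull_gt {w r : ℝ × ℝ} {F : Finset (ℝ × ℝ)} (h : ∀ y ∈ F, dt w r < dt w y) :
    r ∉ convexHull ℝ (F : Set (ℝ × ℝ)) := by
  apply hull_lt (w := -w)
  intro y hy
  rw [dt_neg_left, dt_neg_left]
  linarith [h y hy]

theorem hull_mono {r : ℝ × ℝ} {F G : Finset (ℝ × ℝ)} (hFG : F ⊆ G)
    (h : r ∉ convexHull ℝ (G : Set (ℝ × ℝ))) : r ∉ convexHull ℝ (F : Set (ℝ × ℝ)) :=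
  fun h' => h (convexHull_mono (Finset.coe_subset.mpr hFG) h')

/-- A slice without red points: used reds are outside of the hull of G, the other ones are on the
other side of a line. -/
theorem free_slice {A0 A G F : Finset (ℝ × ℝ)} {w : ℝ × ℝ} {c : ℝ} (hFG : F ⊆ G)
    (hused : ∀ r ∈ A0, r ∉ A → r ∉ convexHull ℝ (G : Set (ℝ × ℝ)))
    (hA : ∀ r ∈ A, dt w r ≤ c) (hF : ∀ y ∈ F, c < dt w y) : Free A0 F := by
  intro r hr
  by_cases hrA : r ∈ A
  · exact hull_gt (w := w) (fun y hy => (hA r hrA).trans_lt (hF y hy))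
  · exact hull_mono hFG (hused r hr hrA)

/-- The strips of the end region. -/
theorem strips {A0 G0 : Finset (ℝ × ℝ)} {J : ℕ} (hJ : ∀ F ⊆ G0, Free A0 F → F.card ≤ J)
    {w : ℝ × ℝ} (hw : ∀ p ∈ A0, ∀ q ∈ G0, dt w p ≠ dt w q) : ∀ (m : ℕ) (A G : Finset (ℝ × ℝ)),
    A.card = m → A ⊆ A0 → G ⊆ G0 →
    (∀ r ∈ A0, r ∉ A → r ∉ convexHull ℝ (G : Set (ℝ × ℝ))) → G.card ≤ (m + 1) * J := by
  classical
  intro m
  induction m with
  | zero =>
    intro A G hA hAA hG hused
    have hA' : A = ∅ := Finset.card_eq_zero.mp hA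
    subst hA'
    have := hJ G hG (fun r hr => hused r hr (Finset.notMem_empty r))
    simpa using this
  | succ m ih =>
    intro A G hA hAA hG hused
    have hne : A.Nonempty := by
      rw [← Finset.card_pos]; omega
    obtain ⟨r, hr, hmax⟩ := Finset.exists_max_image A (fun q => dt w q) hne
    have h1 : (G.filter (fun y => dt w r < dt w y)).card ≤ J := by
      apply hJ _ ((Finset.filter_subset _ _).trans hG)
      exact free_slice (w := w) (c := dt w r) (Finset.filter_subset _ _) hused hmax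
        (fun y hy => (Finset.mem_filter.mp hy).2)
    have h2 : (G.filter (fun y => ¬ dt w r < dt w y)).card ≤ (m + 1) * J := by
      apply ih (A.erase r) _ (by rw [Finset.card_erase_of_mem hr]; omega)
        ((Finset.erase_subset _ _).trans hAA) ((Finset.filter_subset _ _).trans hG)
      intro q hq hqA
      by_cases hqr : q = r
      · subst hqr
        apply hull_lt (w := w)
        intro y hy
        obtain ⟨hy1, hy2⟩ := Finset.mem_filter.mp hy
        exact lt_of_le_of_ne (not_lt.mp hy2) (hw q hq y (hG hy1)).symm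
      · exact hull_mono (Finset.filter_subset _ _)
          (hused q hq (fun h => hqA (Finset.mem_erase.mpr ⟨hqr, h⟩)))
    have h3 := Finset.card_filter_add_card_filter_not (s := G) (fun y => dt w r < dt w y)
    have h4 : (m + 1 + 1) * J = J + (m + 1) * J := by ring
    omega

/-- Adding points strictly inside on the side of X does not change the bridge. -/
theorem br_union {a a' : ℝ × ℝ} {X Y G : Finset (ℝ × ℝ)} {c d : ℝ × ℝ} {s : ℝ}
    (h : Br a a' X Y c d s) (hG : ∀ y ∈ G, dt (a' - s • a) y < dt (a' - s • a) c) :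
    Br a a' (X ∪ G) Y c d s := by
  classical
  obtain ⟨hc, hd, h1, h2, h3⟩ := h
  refine ⟨Finset.mem_union_left _ hc, hd, h1, ?_, h3⟩
  intro q hq
  rcases Finset.mem_union.mp hq with hq | hq
  · exact h2 q hq
  · exact (hG q hq).le

/-- Visibility of the lower end of the bridge. -/
theorem vis_low {S : Finset (ℝ × ℝ)} (hgp : GP S) {a a' : ℝ × ℝ} (ha : cr a a' ≠ 0)
    {X Y G : Finset (ℝ × ℝ)} (hXS : X ⊆ S) (hYS : Y ⊆ S) (hGS : G ⊆ S)
    (hs : ∀ p ∈ X ∪ G, ∀ q ∈ Y, dt a q < dt a p) {c d z : ℝ × ℝ} {s : ℝ}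
    (h : Br a a' X Y c d s) (hG : ∀ y ∈ G, dt (a' - s • a) y < dt (a' - s • a) c)
    (hz : dt (a' - s • a) d < dt (a' - s • a) z) : Vis z (X ∪ G ∪ Y) d :=
  (br_union h hG).edge hgp ha (Finset.union_subset hXS hGS) hYS hs hz

/-- Visibility of the upper end of the bridge. -/
theorem vis_up {S : Finset (ℝ × ℝ)} (hgp : GP S) {a a' : ℝ × ℝ} (ha : cr a a' ≠ 0)
    {X Y G : Finset (ℝ × ℝ)} (hXS : X ⊆ S) (hYS : Y ⊆ S) (hGS : G ⊆ S)
    (hs : ∀ p ∈ X ∪ G, ∀ q ∈ Y, dt a q < dt a p) {c d z : ℝ × ℝ} {s : ℝ}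
    (h : Br a a' X Y c d s) (hG : ∀ y ∈ G, dt (a' - s • a) y < dt (a' - s • a) c)
    (hz : dt (a' - s • a) d < dt (a' - s • a) z) : Vis z (X ∪ G ∪ Y) c := by
  classical
  have h1 := (br_union h hG).swap
  have ha' : cr (-a) a' ≠ 0 := by
    intro h0
    apply ha
    simp only [cr, Prod.fst_neg, Prod.snd_neg] at h0 ⊢
    linarith
  have e : a' - (-s) • (-a) = a' - s • a := by rw [neg_smul, smul_neg, neg_neg]
  have h2 := h1.edge hgp ha' hYS (Finset.union_subset hXS hGS)
    (by
      intro p hp q hq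
      rw [dt_neg_left, dt_neg_left]
      linarith [hs q hq p hp]) (z := z)
    (by rw [e]; rw [← h.2.2.1]; exact hz)
  rwa [Finset.union_comm] at h2

/-- The upper end c was removed: it is beyond the new bridge. -/
theorem beyond_up {S : Finset (ℝ × ℝ)} (hgp : GP S) {a a' : ℝ × ℝ} (ha : cr a a' ≠ 0)
    {A Y : Finset (ℝ × ℝ)} {c q0 p q : ℝ × ℝ} {s0 s : ℝ} (hAS : insert c A ⊆ S) (hYS : Y ⊆ S)
    (hs : ∀ p ∈ insert c A, ∀ q ∈ Y, dt a q < dt a p) (hcA : c ∉ A)
    (h : Br a a' (insert c A) Y c q0 s0) (h' : Br a a' A Y p q s) :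
    dt (a' - s • a) q < dt (a' - s • a) c := by
  classical
  have ha' : cr (-a) a' ≠ 0 := by
    intro h0
    apply ha
    simp only [cr, Prod.fst_neg, Prod.snd_neg] at h0 ⊢
    linarith
  have e : a' - (-s) • (-a) = a' - s • a := by rw [neg_smul, smul_neg, neg_neg]
  have h1 := h.swap
  have h2 := h'.swap
  have h3 : (insert c A).erase c = A := Finset.erase_insert hcA
  have h4 : Br (-a) a' Y ((insert c A).erase c) q p (-s) := by rw [h3]; exact h2
  have h5 := h1.beyond hgp ha' hYS hAS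
    (by
      intro p hp q hq
      rw [dt_neg_left, dt_neg_left]
      linarith [hs q hq p hp]) h4
  rw [e] at h5
  rw [h'.2.2.1]; exact h5

/-- The lower end c was removed: it is beyond the new bridge. -/
theorem beyond_low {S : Finset (ℝ × ℝ)} (hgp : GP S) {a a' : ℝ × ℝ} (ha : cr a a' ≠ 0)
    {A Y : Finset (ℝ × ℝ)} {c p0 p q : ℝ × ℝ} {s0 s : ℝ} (hAS : A ⊆ S) (hYS : insert c Y ⊆ S)
    (hs : ∀ p ∈ A, ∀ q ∈ insert c Y, dt a q < dt a p) (hcY : c ∉ Y)
    (h : Br a a' A (insert c Y) p0 c s0) (h' : Br a a' A Y p q s) :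
    dt (a' - s • a) q < dt (a' - s • a) c := by
  classical
  have h3 : (insert c Y).erase c = Y := Finset.erase_insert hcY
  have h4 : Br a a' A ((insert c Y).erase c) p q s := by rw [h3]; exact h'
  exact h.beyond hgp ha hAS hYS hs h4

/-- A list of N points of A, Y and G which continues the path from c; e tells whether it begins
with a point of A. -/
def Cont (c : ℝ × ℝ) (A Y G : Finset (ℝ × ℝ)) (N : ℕ) (e : Bool) : Prop :=
  ∃ l : List (ℝ × ℝ), l.Nodup ∧ (∀ q ∈ l, q ∈ A ∪ G ∪ Y) ∧ l.length = N ∧ Good c l ∧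
    ∀ (T : Finset (ℝ × ℝ)) (b : Bool), (∀ q ∈ A, (q ∈ T ↔ b = true)) →
      (∀ q ∈ Y ∪ G, (q ∈ T ↔ b = false)) → Alt T (if e then !b else b) l

theorem cont_low {c q : ℝ × ℝ} {A Y G : Finset (ℝ × ℝ)} {N : ℕ} (hq : q ∈ Y)
    (hAY : q ∉ A ∪ G) (hv : Vis c (A ∪ G ∪ Y) q)
    (h : Cont q A (Y.erase q) G N true) : Cont c A Y G (N + 1) false := by
  classical
  obtain ⟨l, hnd, hmem, hlen, hgood, halt⟩ := h
  obtain ⟨-, v, hv, hv'⟩ := hv
  have hql : q ∉ l := by
    intro hql
    rcases Finset.mem_union.mp (hmem q hql) with h | h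
    · exact hAY h
    · exact (Finset.mem_erase.mp h).1 rfl
  have hmem' : ∀ r ∈ l, r ∈ A ∪ G ∪ Y := by
    intro r hr
    rcases Finset.mem_union.mp (hmem r hr) with h | h
    · exact Finset.mem_union_left _ h
    · exact Finset.mem_union_right _ (Finset.mem_erase.mp h).2
  refine ⟨q :: l, List.nodup_cons.mpr ⟨hql, hnd⟩, ?_, by rw [List.length_cons, hlen],
    ⟨⟨v, hv', ?_⟩, hgood⟩, ?_⟩
  · intro r hr
    rcases List.mem_cons.mp hr with rfl | hr
    · exact Finset.mem_union_right _ hq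
    · exact hmem' r hr
  · intro r hr
    refine hv r (hmem' r hr) ?_
    rintro rfl
    exact hql hr
  · intro T b hA hY
    refine ⟨by simpa using hY q (Finset.mem_union_left _ hq), ?_⟩
    have := halt T b hA (fun r hr => hY r (by
      rcases Finset.mem_union.mp hr with h | h
      · exact Finset.mem_union_left _ (Finset.mem_erase.mp h).2
      · exact Finset.mem_union_right _ h))
    simpa using this

theorem cont_up {c p : ℝ × ℝ} {A Y G : Finset (ℝ × ℝ)} {N : ℕ} (hp : p ∈ A)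
    (hpG : p ∉ G) (hpY : p ∉ Y) (hv : Vis c (A ∪ G ∪ Y) p)
    (h : Cont p (A.erase p) Y G N false) : Cont c A Y G (N + 1) true := by
  classical
  obtain ⟨l, hnd, hmem, hlen, hgood, halt⟩ := h
  obtain ⟨-, v, hv, hv'⟩ := hv
  have hpl : p ∉ l := by
    intro hpl
    rcases Finset.mem_union.mp (hmem p hpl) with h | h
    · rcases Finset.mem_union.mp h with h | h
      · exact (Finset.mem_erase.mp h).1 rfl
      · exact hpG h
    · exact hpY h
  have hmem' : ∀ r ∈ l, r ∈ A ∪ G ∪ Y := by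
    intro r hr
    rcases Finset.mem_union.mp (hmem r hr) with h | h
    · rcases Finset.mem_union.mp h with h | h
      · exact Finset.mem_union_left _ (Finset.mem_union_left _ (Finset.mem_erase.mp h).2)
      · exact Finset.mem_union_left _ (Finset.mem_union_right _ h)
    · exact Finset.mem_union_right _ h
  refine ⟨p :: l, List.nodup_cons.mpr ⟨hpl, hnd⟩, ?_, by rw [List.length_cons, hlen],
    ⟨⟨v, hv', ?_⟩, hgood⟩, ?_⟩
  · intro r hr
    rcases List.mem_cons.mp hr with rfl | hr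
    · exact Finset.mem_union_left _ (Finset.mem_union_left _ hp)
    · exact hmem' r hr
  · intro r hr
    refine hv r (hmem' r hr) ?_
    rintro rfl
    exact hpl hr
  · intro T b hA hY
    refine ⟨?_, ?_⟩
    · rw [hA p hp]; cases b <;> simp
    · have := halt T b (fun r hr => hA r (Finset.mem_erase.mp hr).2) hY
      simpa using this

/-- A detour through the ghost x. -/
theorem cont_ghost {c x : ℝ × ℝ} {A Y G G1 : Finset (ℝ × ℝ)} {N : ℕ} (hG1 : G1 ⊆ G) (hx : x ∈ G)
    (hxG1 : x ∉ G1) (hxA : x ∉ A) (hxY : x ∉ Y) (hv : Vis c (insert x (A ∪ G1 ∪ Y)) x)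
    (h : Cont x A Y G1 N true) : Cont c A Y G (N + 1) false := by
  classical
  obtain ⟨l, hnd, hmem, hlen, hgood, halt⟩ := h
  obtain ⟨-, v, hv, hv'⟩ := hv
  have hxl : x ∉ l := by
    intro hxl
    rcases Finset.mem_union.mp (hmem x hxl) with h | h
    · rcases Finset.mem_union.mp h with h | h
      · exact hxA h
      · exact hxG1 h
    · exact hxY h
  refine ⟨x :: l, List.nodup_cons.mpr ⟨hxl, hnd⟩, ?_, by rw [List.length_cons, hlen],
    ⟨⟨v, hv', ?_⟩, hgood⟩, ?_⟩
  · intro r hr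
    rcases List.mem_cons.mp hr with rfl | hr
    · exact Finset.mem_union_left _ (Finset.mem_union_right _ hx)
    · rcases Finset.mem_union.mp (hmem r hr) with h | h
      · rcases Finset.mem_union.mp h with h | h
        · exact Finset.mem_union_left _ (Finset.mem_union_left _ h)
        · exact Finset.mem_union_left _ (Finset.mem_union_right _ (hG1 h))
      · exact Finset.mem_union_right _ h
  · intro r hr
    refine hv r (Finset.mem_insert_of_mem (hmem r hr)) ?_
    rintro rfl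
    exact hxl hr
  · intro T b hA hY
    refine ⟨by simpa using hY x (Finset.mem_union_right _ hx), ?_⟩
    have := halt T b hA (fun r hr => hY r (by
      rcases Finset.mem_union.mp hr with h | h
      · exact Finset.mem_union_left _ h
      · exact Finset.mem_union_right _ (hG1 h)))
    simpa using this

theorem Vis.mono {p g : ℝ × ℝ} {Q Q' : Finset (ℝ × ℝ)} (h : Vis p Q g) (hQ : Q' ⊆ Q)
    (hg : g ∈ Q') : Vis p Q' g := by
  obtain ⟨-, v, hv, hv'⟩ := h
  exact ⟨hg, v, fun q hq hqg => hv q (hQ hq) hqg, hv'⟩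

theorem Cont.mono {c : ℝ × ℝ} {A Y G G' : Finset (ℝ × ℝ)} {N : ℕ} {e : Bool} (hG : G ⊆ G')
    (h : Cont c A Y G N e) : Cont c A Y G' N e := by
  classical
  obtain ⟨l, hnd, hmem, hlen, hgood, halt⟩ := h
  refine ⟨l, hnd, fun q hq => ?_, hlen, hgood, fun T b hA hY => halt T b hA (fun q hq => hY q ?_)⟩
  · rcases Finset.mem_union.mp (hmem q hq) with h | h
    · rcases Finset.mem_union.mp h with h | h
      · exact Finset.mem_union_left _ (Finset.mem_union_left _ h)
      · exact Finset.mem_union_left _ (Finset.mem_union_right _ (hG h))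
    · exact Finset.mem_union_right _ h
  · rcases Finset.mem_union.mp hq with h | h
    · exact Finset.mem_union_left _ h
    · exact Finset.mem_union_right _ (hG h)

/-- The separating line of the detour from above: it passes through the ghost x and a lower
point. -/
theorem astep {S : Finset (ℝ × ℝ)} (hgp : GP S) {a a' : ℝ × ℝ} (ha : cr a a' ≠ 0)
    {A Y G : Finset (ℝ × ℝ)} {c q0 p q x : ℝ × ℝ} {s0 s : ℝ} (hYS : Y ⊆ S) (hxS : x ∈ S)
    (hsc : ∀ z ∈ Y, dt a z < dt a c) (hsx : ∀ z ∈ Y, dt a z < dt a x)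
    (hsA : ∀ y ∈ A ∪ G, ∀ z ∈ Y, dt a z < dt a y)
    (h0 : Br a a' (insert c A) Y c q0 s0) (hx0 : dt (a' - s0 • a) x < dt (a' - s0 • a) c)
    (h1 : Br a a' A Y p q s) (hx1 : dt (a' - s • a) q < dt (a' - s • a) x)
    (hG : ∀ y ∈ G, dt (a' - s • a) y < dt (a' - s • a) p) :
    Vis c (insert x (A ∪ G ∪ Y)) x := by
  classical
  obtain ⟨-, hq0, e0, -, m0⟩ := h0
  obtain ⟨hp, hq, e1, m1, m1'⟩ := h1
  obtain ⟨b, hb, hmin⟩ := Finset.exists_min_image Y
    (fun z => (dt a' x - dt a' z) / (dt a x - dt a z)) ⟨q, hq⟩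
  have hpos : ∀ z ∈ Y, 0 < dt a x - dt a z := fun z hz => sub_pos.mpr (hsx z hz)
  obtain ⟨t, ht⟩ : ∃ t, t = (dt a' x - dt a' b) / (dt a x - dt a b) := ⟨_, rfl⟩
  have ht1 : t * (dt a x - dt a b) = dt a' x - dt a' b := by
    rw [ht]; exact div_mul_cancel₀ _ (hpos b hb).ne'
  have ht2 : ∀ z ∈ Y, t * (dt a x - dt a z) ≤ dt a' x - dt a' z := by
    intro z hz
    have := hmin z hz
    rw [← ht] at this
    exact (le_div_iff₀ (hpos z hz)).mp this
  rw [dt_sub_smul, dt_sub_smul] at hx0 e0 hx1 e1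
  have hst : s < t := by
    have h2 := m1' b hb
    rw [dt_sub_smul, dt_sub_smul] at h2
    have h3 : s * (dt a x - dt a b) < t * (dt a x - dt a b) := by
      rw [ht1]; linarith
    exact lt_of_mul_lt_mul_right h3 (hpos b hb).le
  have hts0 : t < s0 := by
    have h2 := ht2 q0 hq0
    have h3 : t * (dt a x - dt a q0) < s0 * (dt a x - dt a q0) := by linarith
    exact lt_of_mul_lt_mul_right h3 (hpos q0 hq0).le
  have hxb : x ≠ b := by
    rintro rfl
    exact lt_irrefl _ (hsx x hb)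
  have w0 : a' - t • a ≠ 0 := sub_smul_ne_zero ha t
  have hxeq : dt (a' - t • a) x = dt (a' - t • a) b := by
    rw [dt_sub_smul, dt_sub_smul]; linarith
  have hE : Edge c (insert x (A ∪ G ∪ Y)) b x := by
    refine ⟨Finset.mem_insert_of_mem (Finset.mem_union_right _ hb), Finset.mem_insert_self _ _,
      hxb, -(a' - t • a), ?_, ?_, ?_⟩
    · rw [dt_neg_left, dt_sub]; linarith
    · intro z hz hzb hzx
      rw [dt_neg_left, dt_sub]
      rcases Finset.mem_union.mp ((Finset.mem_insert.mp hz).resolve_left hzx) with hz | hz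
      · have h2 : dt (a' - s • a) z ≤ dt (a' - s • a) p := by
          rcases Finset.mem_union.mp hz with hz' | hz'
          · exact m1 z hz'
          · exact (hG z hz').le
        have h3 := mul_pos (sub_pos.mpr hst) (sub_pos.mpr (hsA z hz q hq))
        have h4 := ht2 q hq
        rw [dt_sub_smul, dt_sub_smul] at h2
        rw [dt_sub_smul, dt_sub_smul]
        nlinarith
      · have h2 := ht2 z hz
        have h3 : dt (a' - t • a) z ≤ dt (a' - t • a) b := by
          rw [dt_sub_smul, dt_sub_smul]; linarith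
        rcases lt_or_eq_of_le h3 with h4 | h4
        · linarith
        · exact (gp_line hgp (hYS hb) hxS (hYS hz) hxb.symm hzb.symm hzx.symm w0 hxeq h4).elim
    · rw [dt_neg_left, dt_sub]
      have h2 := m0 b hb
      have h3 := mul_pos (sub_pos.mpr hts0) (sub_pos.mpr (hsc b hb))
      rw [dt_sub_smul, dt_sub_smul] at h2
      rw [dt_sub_smul, dt_sub_smul]
      nlinarith
  exact hE.vis

/-- The separating line of the detour from below: it passes through the ghost x and a higher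
point of A. -/
theorem bstep {S : Finset (ℝ × ℝ)} (hgp : GP S) {a a' : ℝ × ℝ} (ha : cr a a' ≠ 0)
    {A Y : Finset (ℝ × ℝ)} {c p0 p q x : ℝ × ℝ} {s0 s : ℝ} (hAS : A ⊆ S) (hxS : x ∈ S)
    (hxA : x ∉ A) (hsA : ∀ z ∈ A, dt a c < dt a z) (hsx : ∀ z ∈ Y, dt a z < dt a x)
    (h0 : Br a a' A (insert c Y) p0 c s0) (hx0 : dt (a' - s0 • a) x < dt (a' - s0 • a) c)
    (h1 : Br a a' A Y p q s) (hc : dt (a' - s • a) q < dt (a' - s • a) c)
    (hx1 : dt (a' - s • a) q < dt (a' - s • a) x) :
    ∃ r ∈ A, ∃ t : ℝ, dt (a' - t • a) r = dt (a' - t • a) x ∧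
      (∀ z ∈ A, z ≠ r → dt (a' - t • a) z < dt (a' - t • a) x) ∧
      (∀ z ∈ Y, dt (a' - t • a) z < dt (a' - t • a) x) ∧
      dt (a' - t • a) x < dt (a' - t • a) c := by
  classical
  obtain ⟨hp0, -, e0, m0, -⟩ := h0
  obtain ⟨hp, hq, e1, m1, m1'⟩ := h1
  have hc' := hc
  have hx1' := hx1
  have hx0' := hx0
  rw [dt_sub_smul, dt_sub_smul] at hx0 e0 hx1 e1 hc
  have hp0s := m1 p0 hp0
  rw [dt_sub_smul, dt_sub_smul] at hp0s
  have hss : s0 < s := by
    have h2 : 0 < (s - s0) * (dt a p0 - dt a c) := by nlinarith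
    have h3 := sub_pos.mpr (hsA p0 hp0)
    have := pos_left h2 h3.le
    linarith
  have hpx : dt a x < dt a p0 := by
    have h2 : 0 < (s - s0) * (dt a p0 - dt a x) := by nlinarith
    have := pos_right h2 (sub_pos.mpr hss).le
    linarith
  have hne : (A.filter (fun z => dt a x < dt a z)).Nonempty :=
    ⟨p0, Finset.mem_filter.mpr ⟨hp0, hpx⟩⟩
  obtain ⟨r, hr, hmax⟩ := Finset.exists_max_image (A.filter (fun z => dt a x < dt a z))
    (fun z => (dt a' z - dt a' x) / (dt a z - dt a x)) hne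
  obtain ⟨hrA, hrx⟩ := Finset.mem_filter.mp hr
  obtain ⟨t, ht⟩ : ∃ t, t = (dt a' r - dt a' x) / (dt a r - dt a x) := ⟨_, rfl⟩
  have ht1 : t * (dt a r - dt a x) = dt a' r - dt a' x := by
    rw [ht]; exact div_mul_cancel₀ _ (sub_pos.mpr hrx).ne'
  have ht2 : ∀ z ∈ A, dt a x < dt a z → dt a' z - dt a' x ≤ t * (dt a z - dt a x) := by
    intro z hz hz'
    have := hmax z (Finset.mem_filter.mpr ⟨hz, hz'⟩)
    rw [← ht] at this
    exact (div_le_iff₀ (sub_pos.mpr hz')).mp this
  have hs0t : s0 < t := by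
    have h2 := ht2 p0 hp0 hpx
    have h3 : s0 * (dt a p0 - dt a x) < t * (dt a p0 - dt a x) := by linarith
    exact lt_of_mul_lt_mul_right h3 (sub_pos.mpr hpx).le
  have hts : t < s := by
    have h2 := m1 r hrA
    rw [dt_sub_smul, dt_sub_smul] at h2
    have h3 : t * (dt a r - dt a x) < s * (dt a r - dt a x) := by
      rw [ht1]; linarith
    exact lt_of_mul_lt_mul_right h3 (sub_pos.mpr hrx).le
  have w0 : a' - t • a ≠ 0 := sub_smul_ne_zero ha t
  have hreq : dt (a' - t • a) r = dt (a' - t • a) x := by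
    rw [dt_sub_smul, dt_sub_smul]; linarith
  have hrx' : r ≠ x := fun h => hxA (h ▸ hrA)
  refine ⟨r, hrA, t, hreq, ?_, ?_, ?_⟩
  · intro z hz hzr
    have hle : dt (a' - t • a) z ≤ dt (a' - t • a) x := by
      by_cases hzx : dt a x < dt a z
      · have h2 := ht2 z hz hzx
        rw [dt_sub_smul, dt_sub_smul]; linarith
      · push Not at hzx
        have h2 := m1 z hz
        rw [dt_sub_smul, dt_sub_smul] at h2
        have h3 := mul_nonneg (sub_pos.mpr hts).le (sub_nonneg.mpr hzx)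
        rw [dt_sub_smul, dt_sub_smul]
        nlinarith
    rcases lt_or_eq_of_le hle with h4 | h4
    · exact h4
    · have hzx : z ≠ x := fun h => hxA (h ▸ hz)
      exact (gp_line hgp hxS (hAS hrA) (hAS hz) hrx'.symm hzx.symm hzr.symm w0 hreq h4).elim
  · intro z hz
    have h2 := m1' z hz
    rw [dt_sub_smul, dt_sub_smul] at h2
    have h3 := mul_pos (sub_pos.mpr hts) (sub_pos.mpr (hsx z hz))
    rw [dt_sub_smul, dt_sub_smul]
    nlinarith
  · rw [← hreq]
    have h2 := m0 r hrA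
    rw [dt_sub_smul, dt_sub_smul] at h2
    have h3 := mul_pos (sub_pos.mpr hs0t) (sub_pos.mpr (hsA r hrA))
    rw [dt_sub_smul, dt_sub_smul]
    nlinarith

/-- The ghost x is beyond the bridge after the removal of the point r on its line. -/
theorem mustep {a a' : ℝ × ℝ} {A Y : Finset (ℝ × ℝ)} {p q x r r' b : ℝ × ℝ} {s t σ : ℝ}
    (hsA : ∀ y ∈ A, ∀ z ∈ Y, dt a z < dt a y) (hsx : ∀ z ∈ Y, dt a z < dt a x)
    (h1 : Br a a' A Y p q s) (hx1 : dt (a' - s • a) q < dt (a' - s • a) x)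
    (hA : ∀ z ∈ A, z ≠ r → dt (a' - t • a) z < dt (a' - t • a) x)
    (hY : ∀ z ∈ Y, dt (a' - t • a) z < dt (a' - t • a) x)
    (h2 : Br a a' (A.erase r) Y r' b σ) : dt (a' - σ • a) r' < dt (a' - σ • a) x := by
  classical
  obtain ⟨hp, hq, e1, m1, m1'⟩ := h1
  obtain ⟨hr', hb, e2, m2, m2'⟩ := h2
  obtain ⟨hrr, hrA⟩ := Finset.mem_erase.mp hr'
  have i1 := hY b hb
  have i2 := hA r' hrA hrr
  have i3 := m1 r' hrA
  have i4 := m2' q hq
  rw [dt_sub_smul, dt_sub_smul] at i1 i2 i3 i4 e1 e2 hx1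
  rw [dt_sub_smul, dt_sub_smul]
  have hσs : σ ≤ s := by
    by_contra hcon
    push Not at hcon
    have h3 := mul_pos (sub_pos.mpr hcon) (sub_pos.mpr (hsA r' hrA q hq))
    nlinarith
  rcases le_or_gt σ t with h | h
  · have h3 := mul_nonneg (sub_nonneg.mpr h) (sub_pos.mpr (hsx b hb)).le
    nlinarith
  · -- σ is between t and s
    have h3 : 0 < s - t := by linarith
    have h4 : 0 < (dt a' x - s * dt a x) - (dt a' r' - s * dt a r') := by linarith
    have h5 : 0 < (dt a' x - t * dt a x) - (dt a' r' - t * dt a r') := by linarith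
    have h6 := mul_nonneg (sub_nonneg.mpr hσs) h5.le
    have h7 := mul_pos (sub_pos.mpr h) h4
    have h8 : (s - t) * ((dt a' x - σ * dt a x) - (dt a' r' - σ * dt a r')) =
        (s - σ) * ((dt a' x - t * dt a x) - (dt a' r' - t * dt a r')) +
        (σ - t) * ((dt a' x - s * dt a x) - (dt a' r' - s * dt a r')) := by ring
    have h9 : 0 < (s - t) * ((dt a' x - σ * dt a x) - (dt a' r' - σ * dt a r')) := by
      rw [h8]; linarith
    have := pos_right h9 h3.le
    linarith

/-- The zigzag without detours, from a point above. -/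
theorem cont_zero1 {S : Finset (ℝ × ℝ)} (hgp : GP S) {a a' : ℝ × ℝ} (ha : cr a a' ≠ 0)
    {A Y : Finset (ℝ × ℝ)} (G : Finset (ℝ × ℝ)) {c q0 : ℝ × ℝ} {s0 : ℝ} (hAS : insert c A ⊆ S)
    (hYS : Y ⊆ S) (hs : ∀ p ∈ insert c A, ∀ q ∈ Y, dt a q < dt a p) (hcA : c ∉ A)
    (h : Br a a' (insert c A) Y c q0 s0) (hcard : A.card = Y.card) :
    Cont c A Y G (2 * Y.card) false := by
  classical
  have hcY : c ∉ Y := fun h => lt_irrefl _ (hs c (Finset.mem_insert_self c A) c h)
  obtain ⟨l, hnd, hmem, hlen, hgood, halt⟩ := zig hgp (A.card + Y.card) a a' c A Y rfl ha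
    ((Finset.subset_insert c A).trans hAS) hYS hcY (by omega) (by omega)
    (fun p hp q hq => hs p (Finset.mem_insert_of_mem hp) q hq)
    (fun c' d' s hbr => beyond_up hgp ha hAS hYS hs hcA h hbr)
  refine ⟨l, hnd, ?_, by omega, hgood, ?_⟩
  · intro q hq
    rcases Finset.mem_union.mp ((hmem q).mp hq) with h | h
    · exact Finset.mem_union_left _ (Finset.mem_union_left _ h)
    · exact Finset.mem_union_right _ h
  · intro T b hA hY
    have := halt T b hA (fun q hq => hY q (Finset.mem_union_left _ hq))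
    simpa using this

/-- The zigzag without detours, from a point below. -/
theorem cont_zero2 {S : Finset (ℝ × ℝ)} (hgp : GP S) {a a' : ℝ × ℝ} (ha : cr a a' ≠ 0)
    {A Y : Finset (ℝ × ℝ)} (G : Finset (ℝ × ℝ)) {c p0 : ℝ × ℝ} {s0 : ℝ} (hAS : A ⊆ S)
    (hYS : insert c Y ⊆ S) (hs : ∀ p ∈ A, ∀ q ∈ insert c Y, dt a q < dt a p) (hcY : c ∉ Y)
    (h : Br a a' A (insert c Y) p0 c s0) (hcard : A.card = Y.card + 1) :
    Cont c A Y G (2 * Y.card + 1) true := by
  classical
  have hcA : c ∉ A := fun h => lt_irrefl _ (hs c h c (Finset.mem_insert_self c Y))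
  have ha' : cr (-a) a' ≠ 0 := by
    intro h0
    apply ha
    simp only [cr, Prod.fst_neg, Prod.snd_neg] at h0 ⊢
    linarith
  obtain ⟨l, hnd, hmem, hlen, hgood, halt⟩ := zig hgp (Y.card + A.card) (-a) a' c Y A rfl ha'
    ((Finset.subset_insert c Y).trans hYS) hAS hcA (by omega) (by omega)
    (by
      intro p hp q hq
      rw [dt_neg_left, dt_neg_left]
      linarith [hs q hq p (Finset.mem_insert_of_mem hp)])
    (by
      intro c' d' s hbr
      have h1 := hbr.unswap
      have h2 := beyond_low hgp ha hAS hYS hs hcY h h1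
      have e : a' - (-s) • a = a' - s • (-a) := by rw [neg_smul, smul_neg]
      rw [e] at h2
      rw [hbr.2.2.1]; exact h2)
  refine ⟨l, hnd, ?_, by omega, hgood, ?_⟩
  · intro q hq
    rcases Finset.mem_union.mp ((hmem q).mp hq) with h | h
    · exact Finset.mem_union_right _ h
    · exact Finset.mem_union_left _ (Finset.mem_union_left _ h)
  · intro T b hA hY
    have := halt T (!b) (fun q hq => by rw [hY q (Finset.mem_union_left _ hq)]; cases b <;> simp)
      (fun q hq => by rw [hA q hq]; cases b <;> simp)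
    simpa using this

end Pool.Agent.AltALL71
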