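import Pool.Agent.AltALL.Detour71

/-! The main induction: the zigzag with as many detours as there are additional reds. -/

namespace Pool.Agent.AltALL71

open Pool.Agent.AltPath Pool.Agent.AltHP

theorem ghost_line {S : Finset (ℝ × ℝ)} (hgp : GP S) {a a' : ℝ × ℝ} (ha : cr a a' ≠ 0)
    {p q y : ℝ × ℝ} {s : ℝ} (hp : p ∈ S) (hq : q ∈ S) (hy : y ∈ S) (hpq : dt a q < dt a p)
    (hyp : y ≠ p) (hqy : dt a q < dt a y) (h : dt (a' - s • a) q = dt (a' - s • a) p)
    (h' : dt (a' - s • a) y = dt (a' - s • a) p) : False := by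
  refine gp_line hgp hp hq hy ?_ hyp.symm ?_ (sub_smul_ne_zero ha s) h h'
  · rintro rfl
    exact lt_irrefl _ hpq
  · rintro rfl
    exact lt_irrefl _ hqy

theorem detour {S : Finset (ℝ × ℝ)} (hgp : GP S) {a a' : ℝ × ℝ} (ha : cr a a' ≠ 0)
    {A0 G0 : Finset (ℝ × ℝ)} (hA0 : A0 ⊆ S) (hG0 : G0 ⊆ S) (hdis : Disjoint A0 G0) {J : ℕ}
    (hJ : ∀ F ⊆ G0, Free A0 F → F.card ≤ J) : ∀ m : ℕ,
    (∀ (A Y G : Finset (ℝ × ℝ)) (c q0 : ℝ × ℝ) (s0 : ℝ) (k : ℕ), A.card + Y.card = m →
      A ⊆ A0 → c ∈ A0 → c ∉ A → Y ⊆ S → (∀ p ∈ A0 ∪ G0, ∀ q ∈ Y, dt a q < dt a p) → G ⊆ G0 →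
      Br a a' (insert c A) Y c q0 s0 → (∀ y ∈ G, dt (a' - s0 • a) y < dt (a' - s0 • a) c) →
      (∀ r ∈ A0, r ∉ A → r ∉ convexHull ℝ (G : Set (ℝ × ℝ))) → A.card = Y.card + k →
      k * (3 * J + 1) ≤ G.card → Cont c A Y G (2 * (Y.card + k)) false) ∧
    (∀ (A Y G : Finset (ℝ × ℝ)) (c p0 : ℝ × ℝ) (s0 : ℝ) (k : ℕ), A.card + Y.card = m →
      A ⊆ A0 → c ∈ S → c ∉ Y → Y ⊆ S → (∀ p ∈ A0 ∪ G0, ∀ q ∈ insert c Y, dt a q < dt a p) →
      G ⊆ G0 → Br a a' A (insert c Y) p0 c s0 →
      (∀ y ∈ G, dt (a' - s0 • a) y < dt (a' - s0 • a) c) →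
      (∀ r ∈ A0, r ∉ A → r ∉ convexHull ℝ (G : Set (ℝ × ℝ))) → A.card = Y.card + 1 + k →
      k * (3 * J + 1) ≤ G.card → Cont c A Y G (2 * (Y.card + k) + 1) true) := by
  classical
  intro m
  induction m using Nat.strong_induction_on with
  | _ m ih =>
  constructor
  · intro A Y G c q0 s0 k hm hAA hcA0 hcA hYS hsep hGG hbr hG hused hcard hk
    have hAS : A ⊆ S := hAA.trans hA0
    have hGS : G ⊆ S := hGG.trans hG0
    have hcAS : insert c A ⊆ S := Finset.insert_subset (hA0 hcA0) hAS
    have hsA : ∀ p ∈ A, ∀ q ∈ Y, dt a q < dt a p :=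
      fun p hp q hq => hsep p (Finset.mem_union_left _ (hAA hp)) q hq
    have hscA : ∀ p ∈ insert c A, ∀ q ∈ Y, dt a q < dt a p := by
      intro p hp q hq
      rcases Finset.mem_insert.mp hp with rfl | hp
      · exact hsep p (Finset.mem_union_left _ hcA0) q hq
      · exact hsA p hp q hq
    have hsG : ∀ p ∈ G, ∀ q ∈ Y, dt a q < dt a p :=
      fun p hp q hq => hsep p (Finset.mem_union_right _ (hGG hp)) q hq
    have hsAG : ∀ G' ⊆ G, ∀ p ∈ A ∪ G', ∀ q ∈ Y, dt a q < dt a p := by
      intro G' hG' p hp q hq
      rcases Finset.mem_union.mp hp with hp | hp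
      · exact hsA p hp q hq
      · exact hsG p (hG' hp) q hq
    rcases Nat.eq_zero_or_pos k with rfl | hk0
    · have := cont_zero1 hgp ha G hcAS hYS hscA hcA hbr (by omega)
      simpa using this
    have hYne : Y.Nonempty := ⟨q0, hbr.2.1⟩
    have hAne : A.Nonempty := by
      rw [← Finset.card_pos]; omega
    obtain ⟨p, q, s, hbr1⟩ := exists_bridge a a' hAne hYne hsA
    have hbey := beyond_up hgp ha hcAS hYS hscA hcA hbr hbr1
    have hp : p ∈ A := hbr1.1
    have hq : q ∈ Y := hbr1.2.1
    have hqp : dt (a' - s • a) q = dt (a' - s • a) p := hbr1.2.2.1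
    have hpG : p ∉ G := fun h => Finset.disjoint_left.mp hdis (hAA hp) (hGG h)
    have hqA : q ∉ A := fun h => lt_irrefl _ (hsA q h q hq)
    have hqG : q ∉ G := fun h => lt_irrefl _ (hsG q h q hq)
    have hpY : p ∉ Y := fun h => lt_irrefl _ (hsA p hp p h)
    by_cases hx : ∃ x ∈ G, dt (a' - s • a) q < dt (a' - s • a) x
    · obtain ⟨x, hxG, hx1⟩ := hx
      obtain ⟨k', rfl⟩ : ∃ k', k = k' + 1 := ⟨k - 1, by omega⟩
      obtain ⟨G1, hG1⟩ : ∃ G1, G1 = G.filter (fun y => dt (a' - s • a) y < dt (a' - s • a) p) :=
        ⟨_, rfl⟩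
      have hG1G : G1 ⊆ G := by rw [hG1]; exact Finset.filter_subset _ _
      have hG1s : ∀ y ∈ G1, dt (a' - s • a) y < dt (a' - s • a) p := by
        intro y hy
        rw [hG1] at hy
        exact (Finset.mem_filter.mp hy).2
      have hF : (G.filter (fun y => ¬ dt (a' - s • a) y < dt (a' - s • a) p)).card ≤ J := by
        apply hJ _ ((Finset.filter_subset _ _).trans hGG)
        refine free_slice (w := a' - s • a) (c := dt (a' - s • a) p) (Finset.filter_subset _ _)
          hused hbr1.2.2.2.1 ?_
        intro y hy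
        obtain ⟨hy1, hy2⟩ := Finset.mem_filter.mp hy
        refine lt_of_le_of_ne (not_lt.mp hy2) ?_
        intro heq
        exact ghost_line hgp ha (hAS hp) (hYS hq) (hGS hy1) (hsA p hp q hq)
          (fun h => hpG (h ▸ hy1)) (hsG y hy1 q hq) hqp heq.symm
      have hsplit := Finset.card_filter_add_card_filter_not (s := G)
        (fun y => dt (a' - s • a) y < dt (a' - s • a) p)
      rw [← hG1] at hsplit
      have hG1card : k' * (3 * J + 1) ≤ G1.card := by
        have : (k' + 1) * (3 * J + 1) = k' * (3 * J + 1) + (3 * J + 1) := by ring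
        omega
      have hxS : x ∈ S := hGS hxG
      have hxA : x ∉ A := fun h => Finset.disjoint_left.mp hdis (hAA h) (hGG hxG)
      have hxY : x ∉ Y := fun h => lt_irrefl _ (hsG x hxG x h)
      have hxG1 : x ∉ G1 := by
        intro h
        have := hG1s x h
        linarith
      have hv := astep hgp ha (A := A) (G := G1) hYS hxS
        (fun z hz => hsep c (Finset.mem_union_left _ hcA0) z hz) (fun z hz => hsG x hxG z hz)
        (hsAG G1 hG1G) hbr (hG x hxG) hbr1 hx1 hG1s
      have hnew : Cont p (A.erase p) Y G1 (2 * (Y.card + k')) false := by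
        apply (ih (m - 1) (by have := Finset.card_pos.mpr hAne; omega)).1 (A.erase p) Y G1 p q s k'
        · rw [Finset.card_erase_of_mem hp]
          have := Finset.card_pos.mpr hAne
          omega
        · exact (Finset.erase_subset _ _).trans hAA
        · exact hAA hp
        · exact Finset.notMem_erase p A
        · exact hYS
        · exact hsep
        · exact hG1G.trans hGG
        · rw [Finset.insert_erase hp]; exact hbr1
        · exact hG1s
        · intro r hr hrA
          by_cases hrp : r = p
          · subst hrp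
            exact hull_lt hG1s
          · exact hull_mono hG1G (hused r hr (fun h => hrA (Finset.mem_erase.mpr ⟨hrp, h⟩)))
        · rw [Finset.card_erase_of_mem hp]; omega
        · exact hG1card
      have hv2 := vis_up hgp ha hAS hYS (hG1G.trans hGS) (hsAG G1 hG1G) hbr1 hG1s hx1
      have h2 := cont_up hp (fun h => hpG (hG1G h)) hpY hv2 hnew
      have h3 := cont_ghost hG1G hxG hxG1 hxA hxY hv h2
      have e : 2 * (Y.card + (k' + 1)) = 2 * (Y.card + k') + 1 + 1 := by ring
      rw [e]; exact h3
    · push Not at hx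
      have hGs : ∀ y ∈ G, dt (a' - s • a) y < dt (a' - s • a) p := by
        intro y hy
        rw [← hqp]
        refine lt_of_le_of_ne (hx y hy) ?_
        intro heq
        exact ghost_line hgp ha (hAS hp) (hYS hq) (hGS hy) (hsA p hp q hq)
          (fun h => hpG (h ▸ hy)) (hsG y hy q hq) hqp (heq.trans hqp)
      have hYc := Finset.card_pos.mpr hYne
      have hnew : Cont q A (Y.erase q) G (2 * ((Y.erase q).card + k) + 1) true := by
        apply (ih (m - 1) (by omega)).2 A (Y.erase q) G q p s k
        · rw [Finset.card_erase_of_mem hq]; omega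
        · exact hAA
        · exact hYS hq
        · exact Finset.notMem_erase q Y
        · exact (Finset.erase_subset _ _).trans hYS
        · rw [Finset.insert_erase hq]; exact hsep
        · exact hGG
        · rw [Finset.insert_erase hq]; exact hbr1
        · intro y hy
          rw [hqp]; exact hGs y hy
        · exact hused
        · rw [Finset.card_erase_of_mem hq]; omega
        · exact hk
      have hv := vis_low hgp ha hAS hYS hGS (hsAG G (Finset.Subset.refl _)) hbr1 hGs hbey
      have h2 := cont_low hq (by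
        rw [Finset.mem_union, not_or]
        exact ⟨hqA, hqG⟩) hv hnew
      have e : 2 * (Y.card + k) = 2 * ((Y.erase q).card + k) + 1 + 1 := by
        rw [Finset.card_erase_of_mem hq]; omega
      rw [e]; exact h2
  · intro A Y G c p0 s0 k hm hAA hcS hcY hYS hsep hGG hbr hG hused hcard hk
    have hAS : A ⊆ S := hAA.trans hA0
    have hGS : G ⊆ S := hGG.trans hG0
    have hcYS : insert c Y ⊆ S := Finset.insert_subset hcS hYS
    have hsA' : ∀ p ∈ A, ∀ q ∈ insert c Y, dt a q < dt a p :=
      fun p hp q hq => hsep p (Finset.mem_union_left _ (hAA hp)) q hq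
    have hsep' : ∀ p ∈ A0 ∪ G0, ∀ q ∈ Y, dt a q < dt a p :=
      fun p hp q hq => hsep p hp q (Finset.mem_insert_of_mem hq)
    have hsA : ∀ p ∈ A, ∀ q ∈ Y, dt a q < dt a p :=
      fun p hp q hq => hsA' p hp q (Finset.mem_insert_of_mem hq)
    have hsG : ∀ p ∈ G, ∀ q ∈ Y, dt a q < dt a p :=
      fun p hp q hq => hsep' p (Finset.mem_union_right _ (hGG hp)) q hq
    rcases Nat.eq_zero_or_pos k with rfl | hk0
    · have := cont_zero2 hgp ha G hAS hcYS hsA' hcY hbr (by omega)
      simpa using this
    rcases Finset.eq_empty_or_nonempty Y with hY0 | hYne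
    · exfalso
      subst hY0
      obtain ⟨t, ht⟩ := exists_direction (A0 ∪ G0)
      have h1 := strips hJ (w := (1, t)) (fun p hp q hq => ht p (Finset.mem_union_left _ hp) q
        (Finset.mem_union_right _ hq) (fun h => Finset.disjoint_left.mp hdis hp (h ▸ hq)))
        A.card A G rfl hAA hGG hused
      rw [Finset.card_empty] at hcard
      rw [hcard] at h1
      obtain ⟨k', rfl⟩ : ∃ k', k = k' + 1 := ⟨k - 1, by omega⟩
      nlinarith [Nat.zero_le (k' * J)]
    have hAne : A.Nonempty := by
      rw [← Finset.card_pos]; omega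
    obtain ⟨p, q, s, hbr1⟩ := exists_bridge a a' hAne hYne hsA
    have hbey := beyond_low hgp ha hAS hcYS hsA' hcY hbr hbr1
    have hp : p ∈ A := hbr1.1
    have hq : q ∈ Y := hbr1.2.1
    have hqp : dt (a' - s • a) q = dt (a' - s • a) p := hbr1.2.2.1
    have hpG : p ∉ G := fun h => Finset.disjoint_left.mp hdis (hAA hp) (hGG h)
    have hpY : p ∉ Y := fun h => lt_irrefl _ (hsA p hp p h)
    have hAc := Finset.card_pos.mpr hAne
    by_cases hx : ∃ x ∈ G, dt (a' - s • a) q < dt (a' - s • a) x
    · obtain ⟨x, hxG, hx1⟩ := hx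
      obtain ⟨k', rfl⟩ : ∃ k', k = k' + 1 := ⟨k - 1, by omega⟩
      have hxS : x ∈ S := hGS hxG
      have hxA : x ∉ A := fun h => Finset.disjoint_left.mp hdis (hAA h) (hGG hxG)
      have hxY : x ∉ Y := fun h => lt_irrefl _ (hsG x hxG x h)
      have hsx : ∀ z ∈ Y, dt a z < dt a x := fun z hz => hsG x hxG z hz
      obtain ⟨r, hrA, t, hreq, hrA', hrY, hrc⟩ := bstep hgp ha hAS hxS hxA
        (fun z hz => hsA' z hz c (Finset.mem_insert_self _ _)) hsx hbr (hG x hxG) hbr1 hbey hx1
      have hrx : r ≠ x := fun h => hxA (h ▸ hrA)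
      have hrY' : r ∉ Y := fun h => lt_irrefl _ (hsA r hrA r h)
      have hrG : r ∉ G := fun h => Finset.disjoint_left.mp hdis (hAA hrA) (hGG h)
      have hAr : (A.erase r).card = A.card - 1 := Finset.card_erase_of_mem hrA
      have hAr' : (A.erase r).Nonempty := by
        rw [← Finset.card_pos]; omega
      have hsAr : ∀ p ∈ A.erase r, ∀ q ∈ Y, dt a q < dt a p :=
        fun p hp q hq => hsA p (Finset.mem_erase.mp hp).2 q hq
      obtain ⟨r', b, σ, hbr2⟩ := exists_bridge a a' hAr' hYne hsAr
      have hmu := mustep hsA hsx hbr1 hx1 hrA' hrY hbr2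
      have hr' : r' ∈ A.erase r := hbr2.1
      have hr'A : r' ∈ A := (Finset.mem_erase.mp hr').2
      have hb : b ∈ Y := hbr2.2.1
      have hbr' : dt (a' - σ • a) b = dt (a' - σ • a) r' := hbr2.2.2.1
      have hr'G : r' ∉ G := fun h => Finset.disjoint_left.mp hdis (hAA hr'A) (hGG h)
      have hr'Y : r' ∉ Y := fun h => lt_irrefl _ (hsA r' hr'A r' h)
      obtain ⟨G2, hG2⟩ : ∃ G2, G2 = G.filter (fun y => dt (a' - t • a) y < dt (a' - t • a) x) :=
        ⟨_, rfl⟩
      obtain ⟨G3, hG3⟩ : ∃ G3, G3 = G2.filter
        (fun y => dt (a' - σ • a) y < dt (a' - σ • a) r') := ⟨_, rfl⟩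
      have hG2G : G2 ⊆ G := by rw [hG2]; exact Finset.filter_subset _ _
      have hG2s : ∀ y ∈ G2, dt (a' - t • a) y < dt (a' - t • a) x := by
        intro y hy
        rw [hG2] at hy
        exact (Finset.mem_filter.mp hy).2
      have hG32 : G3 ⊆ G2 := by rw [hG3]; exact Finset.filter_subset _ _
      have hG3s : ∀ y ∈ G3, dt (a' - σ • a) y < dt (a' - σ • a) r' := by
        intro y hy
        rw [hG3] at hy
        exact (Finset.mem_filter.mp hy).2
      have w0 : a' - t • a ≠ 0 := sub_smul_ne_zero ha t
      -- the first slice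
      have hF1 : (G.filter (fun y => dt (a' - t • a) x < dt (a' - t • a) y)).card ≤ J := by
        apply hJ _ ((Finset.filter_subset _ _).trans hGG)
        refine free_slice (w := a' - t • a) (c := dt (a' - t • a) x) (Finset.filter_subset _ _)
          hused ?_ (fun y hy => (Finset.mem_filter.mp hy).2)
        intro z hz
        by_cases hzr : z = r
        · rw [hzr]; exact hreq.le
        · exact (hrA' z hz hzr).le
      have hF1' : (G.filter (fun y => ¬ dt (a' - t • a) y < dt (a' - t • a) x)).card ≤ J + 1 := by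
        have hsub : G.filter (fun y => ¬ dt (a' - t • a) y < dt (a' - t • a) x) ⊆
            insert x (G.filter (fun y => dt (a' - t • a) x < dt (a' - t • a) y)) := by
          intro y hy
          obtain ⟨hy1, hy2⟩ := Finset.mem_filter.mp hy
          rw [Finset.mem_insert]
          by_cases hyx : y = x
          · exact Or.inl hyx
          · right
            rw [Finset.mem_filter]
            refine ⟨hy1, lt_of_le_of_ne (not_lt.mp hy2) ?_⟩
            intro heq
            exact gp_line hgp hxS (hAS hrA) (hGS hy1) hrx.symm (Ne.symm hyx)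
              (fun h => hrG (h ▸ hy1)) w0 hreq heq.symm
        exact (Finset.card_le_card hsub).trans ((Finset.card_insert_le _ _).trans (by omega))
      -- the second slice
      have hF2 : (G2.filter (fun y => ¬ dt (a' - σ • a) y < dt (a' - σ • a) r')).card ≤ J := by
        apply hJ _ ((Finset.filter_subset _ _).trans (hG2G.trans hGG))
        refine free_slice (w := a' - σ • a) (c := dt (a' - σ • a) r') (A := A.erase r) (G := G2)
          (Finset.filter_subset _ _) ?_ hbr2.2.2.2.1 ?_
        · intro z hz hzA
          by_cases hzr : z = r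
          · subst hzr
            apply hull_lt (w := a' - t • a)
            intro y hy
            rw [hreq]; exact hG2s y hy
          · exact hull_mono hG2G (hused z hz (fun h => hzA (Finset.mem_erase.mpr ⟨hzr, h⟩)))
        · intro y hy
          obtain ⟨hy1, hy2⟩ := Finset.mem_filter.mp hy
          refine lt_of_le_of_ne (not_lt.mp hy2) ?_
          intro heq
          exact ghost_line hgp ha (hAS hr'A) (hYS hb) (hGS (hG2G hy1)) (hsA r' hr'A b hb)
            (fun h => hr'G (h ▸ hG2G hy1)) (hsG y (hG2G hy1) b hb) hbr' heq.symm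
      have hsp1 := Finset.card_filter_add_card_filter_not (s := G)
        (fun y => dt (a' - t • a) y < dt (a' - t • a) x)
      have hsp2 := Finset.card_filter_add_card_filter_not (s := G2)
        (fun y => dt (a' - σ • a) y < dt (a' - σ • a) r')
      rw [← hG2] at hsp1
      rw [← hG3] at hsp2
      have hG3card : k' * (3 * J + 1) ≤ G3.card := by
        have : (k' + 1) * (3 * J + 1) = k' * (3 * J + 1) + (3 * J + 1) := by ring
        omega
      have hG3G : G3 ⊆ G := hG32.trans hG2G
      have hxG2 : x ∉ G2 := fun h => lt_irrefl _ (hG2s x h)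
      have hxG3 : x ∉ G3 := fun h => hxG2 (hG32 h)
      have hsArG : ∀ p ∈ A.erase r ∪ G3, ∀ q ∈ Y, dt a q < dt a p := by
        intro p hp q hq
        rcases Finset.mem_union.mp hp with hp | hp
        · exact hsAr p hp q hq
        · exact hsG p (hG3G hp) q hq
      have hnew : Cont r' ((A.erase r).erase r') Y G3 (2 * (Y.card + k')) false := by
        apply (ih (m - 2) (by omega)).1 ((A.erase r).erase r') Y G3 r' b σ k'
        · rw [Finset.card_erase_of_mem hr', hAr]; omega
        · exact ((Finset.erase_subset _ _).trans (Finset.erase_subset _ _)).trans hAA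
        · exact hAA hr'A
        · exact Finset.notMem_erase r' _
        · exact hYS
        · exact hsep'
        · exact hG3G.trans hGG
        · rw [Finset.insert_erase hr']; exact hbr2
        · exact hG3s
        · intro z hz hzA
          by_cases hzr' : z = r'
          · subst hzr'
            exact hull_lt hG3s
          · by_cases hzr : z = r
            · subst hzr
              apply hull_lt (w := a' - t • a)
              intro y hy
              rw [hreq]; exact hG2s y (hG32 hy)
            · exact hull_mono hG3G (hused z hz (fun h => hzA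
                (Finset.mem_erase.mpr ⟨hzr', Finset.mem_erase.mpr ⟨hzr, h⟩⟩)))
        · rw [Finset.card_erase_of_mem hr', hAr]; omega
        · exact hG3card
      have hv3 := vis_up hgp ha ((Finset.erase_subset r A).trans hAS) hYS (hG3G.trans hGS)
        hsArG hbr2 hG3s (z := x) (by rw [hbr']; exact hmu)
      have h3 := cont_up hr' (fun h => hr'G (hG3G h)) hr'Y hv3 hnew
      have hE : Edge c (A ∪ insert x G2 ∪ Y) x r := by
        refine ⟨Finset.mem_union_left _ (Finset.mem_union_right _ (Finset.mem_insert_self _ _)),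
          Finset.mem_union_left _ (Finset.mem_union_left _ hrA), hrx, -(a' - t • a), ?_, ?_, ?_⟩
        · rw [dt_neg_left, dt_sub]; linarith
        · intro z hz hzx hzr
          rw [dt_neg_left, dt_sub]
          rcases Finset.mem_union.mp hz with hz | hz
          · rcases Finset.mem_union.mp hz with hz | hz
            · linarith [hrA' z hz hzr]
            · linarith [hG2s z ((Finset.mem_insert.mp hz).resolve_left hzx)]
          · linarith [hrY z hz]
        · rw [dt_neg_left, dt_sub]; linarith
      have hv1 : Vis c (A ∪ insert x G3 ∪ Y) r := by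
        refine Vis.mono hE.vis ?_ (Finset.mem_union_left _ (Finset.mem_union_left _ hrA))
        exact Finset.union_subset_union (Finset.union_subset_union (Finset.Subset.refl _)
          (Finset.insert_subset_insert _ hG32)) (Finset.Subset.refl _)
      have hv2 : Vis r (insert x (A.erase r ∪ G3 ∪ Y)) x := by
        refine Vis.mono hE.symm'.vis_end ?_ (Finset.mem_insert_self _ _)
        intro z hz
        rw [Finset.mem_erase]
        rcases Finset.mem_insert.mp hz with rfl | hz
        · exact ⟨hrx.symm, Finset.mem_union_left _ (Finset.mem_union_right _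
            (Finset.mem_insert_self _ _))⟩
        · rcases Finset.mem_union.mp hz with hz | hz
          · rcases Finset.mem_union.mp hz with hz | hz
            · exact ⟨(Finset.mem_erase.mp hz).1, Finset.mem_union_left _
                (Finset.mem_union_left _ (Finset.mem_erase.mp hz).2)⟩
            · exact ⟨fun h => hrG (h ▸ hG3G hz), Finset.mem_union_left _
                (Finset.mem_union_right _ (Finset.mem_insert_of_mem (hG32 hz)))⟩
          · exact ⟨fun h => hrY' (h ▸ hz), Finset.mem_union_right _ hz⟩
      have h2 := cont_ghost (G := insert x G3) (G1 := G3) (Finset.subset_insert _ _)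
        (Finset.mem_insert_self _ _) hxG3
        (fun h => hxA (Finset.mem_erase.mp h).2) hxY hv2 h3
      have h1 := cont_up hrA (by
        rw [Finset.mem_insert, not_or]
        exact ⟨hrx, fun h => hrG (hG3G h)⟩) hrY' hv1 h2
      have e : 2 * (Y.card + (k' + 1)) + 1 = 2 * (Y.card + k') + 1 + 1 + 1 := by ring
      rw [e]
      exact h1.mono (Finset.insert_subset hxG hG3G)
    · push Not at hx
      have hGs : ∀ y ∈ G, dt (a' - s • a) y < dt (a' - s • a) p := by
        intro y hy
        rw [← hqp]
        refine lt_of_le_of_ne (hx y hy) ?_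
        intro heq
        exact ghost_line hgp ha (hAS hp) (hYS hq) (hGS hy) (hsA p hp q hq)
          (fun h => hpG (h ▸ hy)) (hsG y hy q hq) hqp (heq.trans hqp)
      have hnew : Cont p (A.erase p) Y G (2 * (Y.card + k)) false := by
        apply (ih (m - 1) (by omega)).1 (A.erase p) Y G p q s k
        · rw [Finset.card_erase_of_mem hp]; omega
        · exact (Finset.erase_subset _ _).trans hAA
        · exact hAA hp
        · exact Finset.notMem_erase p A
        · exact hYS
        · exact hsep'
        · exact hGG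
        · rw [Finset.insert_erase hp]; exact hbr1
        · exact hGs
        · intro z hz hzA
          by_cases hzp : z = p
          · subst hzp
            exact hull_lt hGs
          · exact hused z hz (fun h => hzA (Finset.mem_erase.mpr ⟨hzp, h⟩))
        · rw [Finset.card_erase_of_mem hp]; omega
        · exact hk
      have hsAG : ∀ p ∈ A ∪ G, ∀ q ∈ Y, dt a q < dt a p := by
        intro p hp q hq
        rcases Finset.mem_union.mp hp with hp | hp
        · exact hsA p hp q hq
        · exact hsG p hp q hq
      have hv := vis_up hgp ha hAS hYS hGS hsAG hbr1 hGs hbey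
      exact cont_up hp hpG hpY hv hnew

end Pool.Agent.AltALL71
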