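import Pool.Agent.AllS.Fold82

/-! The fold along one line: every cell is a zigzag between the reds above and the blues below one
fixed line; the corners lie on different sides of all lines through a red and a blue point of the
cell. -/

namespace Pool.Agent.AltALL

open Pool.Agent.AltPath Pool.Agent.AltHP Pool.Agent.AllS

theorem cr_key (W a u v : ℝ × ℝ) : dt W v * dt a u - dt W u * dt a v = cr W a * cr v u := by
  simp only [dt, cr]; ring

theorem w_side {a a' x y p : ℝ × ℝ} {s : ℝ} (ha : 0 < cr a' a) (hxy : dt a y < dt a x)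
    (he : dt (a' - s • a) y = dt (a' - s • a) x) :
    (0 < cr (y - x) (p - x) → dt (a' - s • a) x < dt (a' - s • a) p) ∧
    (cr (y - x) (p - x) < 0 → dt (a' - s • a) p < dt (a' - s • a) x) := by
  have h1 := cr_key (a' - s • a) a (y - x) (p - x)
  have h2 : dt (a' - s • a) (y - x) = 0 := by rw [dt_sub]; linarith
  have h3 : cr (a' - s • a) a = cr a' a := by
    simp only [cr, Prod.fst_sub, Prod.snd_sub, Prod.smul_fst, Prod.smul_snd, smul_eq_mul]; ring
  have h4 : cr (p - x) (y - x) = -cr (y - x) (p - x) := by simp only [cr]; ring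
  have h5 : dt a (y - x) < 0 := by rw [dt_sub]; linarith
  rw [h2, h3, h4, zero_mul, sub_zero] at h1
  have h6 : dt (a' - s • a) (p - x) = dt (a' - s • a) p - dt (a' - s • a) x := dt_sub _ _ _
  constructor
  · intro hc
    by_contra hcon
    push Not at hcon
    have h7 : dt (a' - s • a) (p - x) ≤ 0 := by linarith
    have h8 := mul_nonneg_of_nonpos_of_nonpos h7 h5.le
    have h9 := mul_pos ha hc
    linarith
  · intro hc
    by_contra hcon
    push Not at hcon
    have h7 : 0 ≤ dt (a' - s • a) (p - x) := by linarith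
    have h8 := mul_nonpos_of_nonneg_of_nonpos h7 h5.le
    have h9 := mul_neg_of_pos_of_neg ha hc
    linarith

/-- The zigzag followed by a point e which is inside all bridges. -/
theorem zigX {S : Finset (ℝ × ℝ)} (hgp : GP S) (e : ℝ × ℝ) (heS : e ∈ S) :
    ∀ (m : ℕ) (a a' c : ℝ × ℝ)
    (X Y : Finset (ℝ × ℝ)), X.card + Y.card = m → cr a a' ≠ 0 → X ⊆ S → Y ⊆ S → c ∉ Y →
    X.card ≤ Y.card → Y.card ≤ X.card + 1 → Y.Nonempty →
    (∀ p ∈ X, ∀ q ∈ Y, dt a q < dt a p) →
    (∀ c' d' s, Br a a' X Y c' d' s → dt (a' - s • a) d' < dt (a' - s • a) c) →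
    (∀ p ∈ X, ∀ q ∈ Y, ∀ s : ℝ, dt (a' - s • a) q = dt (a' - s • a) p →
      dt (a' - s • a) e < dt (a' - s • a) p) →
    (X = ∅ → ∀ d ∈ Y, ∃ v : ℝ × ℝ, dt v (c - d) < 0 ∧ 0 < dt v (e - d)) →
    ∃ l : List (ℝ × ℝ), l.Nodup ∧ (∀ q, q ∈ l ↔ q ∈ X ∪ Y) ∧ l.length = X.card + Y.card ∧
      Good c (l ++ [e]) ∧ ∀ (T : Finset (ℝ × ℝ)) (b : Bool), (∀ q ∈ X, (q ∈ T ↔ b = true)) →
        (∀ q ∈ Y, (q ∈ T ↔ b = false)) → (Y.card = X.card + 1 → (e ∈ T ↔ b = true)) →
        (Y.card = X.card → (e ∈ T ↔ b = false)) → Alt T b (l ++ [e]) := by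
  classical
  intro m
  induction m using Nat.strong_induction_on with
  | _ m ih =>
  intro a a' c X Y hm ha hXS hYS hcY h1 h2 hYne hs hbey hE hlast
  rcases Finset.eq_empty_or_nonempty X with rfl | hX
  · have hY1 : Y.card = 1 := by
      have := Finset.card_pos.mpr hYne
      simp only [Finset.card_empty] at h2
      omega
    obtain ⟨d, rfl⟩ := Finset.card_eq_one.mp hY1
    obtain ⟨v, hv1, hv2⟩ := hlast rfl d (Finset.mem_singleton_self d)
    have hde : d ≠ e := by
      rintro rfl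
      rw [dt_self_sub] at hv2
      exact lt_irrefl _ hv2
    refine ⟨[d], List.nodup_singleton d, by simp, by simp, ?_, ?_⟩
    · refine ⟨⟨v, hv1, ?_⟩, ⟨e - d, ?_, by simp⟩, trivial⟩
      · intro r hr
        have hr' : r = e := by simpa using hr
        rw [hr']; exact hv2
      · have := dt_self_pos (sub_ne_zero.mpr hde.symm)
        have e1 : dt (e - d) (d - e) = - dt (e - d) (e - d) := by
          simp only [dt, Prod.fst_sub, Prod.snd_sub]; ring
        rw [e1]; linarith
    · intro T b _ hT he1 _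
      refine ⟨hT d (Finset.mem_singleton_self d), ?_, trivial⟩
      rw [he1 (by simp)]
      cases b <;> simp
  obtain ⟨c', d, s, hbr⟩ := exists_bridge a a' hX hYne hs
  have hd : d ∈ Y := hbr.2.1
  have hc' : c' ∈ X := hbr.1
  have hz := hbey c' d s hbr
  have hEd := hE c' hc' d hd s hbr.2.2.1
  have w0 : a' - s • a ≠ 0 := sub_smul_ne_zero ha s
  have hcd : c' ≠ d := by
    rintro rfl
    exact lt_irrefl _ (hs c' hc' c' hd)
  have hle : ∀ q ∈ X ∪ Y, dt (a' - s • a) q ≤ dt (a' - s • a) c' := by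
    intro q hq
    rcases Finset.mem_union.mp hq with hq | hq
    · exact hbr.2.2.2.1 q hq
    · exact hbr.2.2.2.2 q hq
  have hS : X ∪ Y ⊆ S := Finset.union_subset hXS hYS
  have hedge : Edge c (insert e (X ∪ Y)) d c' := by
    refine ⟨Finset.mem_insert_of_mem (Finset.mem_union_right _ hd),
      Finset.mem_insert_of_mem (Finset.mem_union_left _ hc'), hcd, -(a' - s • a), ?_, ?_, ?_⟩
    · rw [dt_neg_left, dt_sub]; linarith [hbr.2.2.1]
    · intro q hq hqd hqc
      rw [dt_neg_left, dt_sub, hbr.2.2.1]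
      rcases Finset.mem_insert.mp hq with rfl | hq
      · linarith
      · rcases lt_or_eq_of_le (hle q hq) with hlt | heq
        · linarith
        · exact (gp_line hgp (hXS hc') (hYS hd) (hS hq) hcd hqc.symm hqd.symm w0 hbr.2.2.1
            heq).elim
    · rw [dt_neg_left, dt_sub]; linarith
  have hne : ∀ q ∈ X ∪ Y, ∀ p ∈ X ∪ Y, q ≠ e := by
    intro q hq p _ hqe
    rcases Finset.mem_union.mp hq with hq | hq
    · -- the line through q = e and a point of Y
      obtain ⟨y, hy⟩ := hYne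
      have hpos := hs q hq y hy
      have h3 := hE q hq y hy ((dt a' q - dt a' y) / (dt a q - dt a y)) (by
        rw [dt_sub_smul, dt_sub_smul]
        have h4 : dt a q - dt a y ≠ 0 := by linarith
        field_simp
        ring)
      rw [hqe] at h3
      exact lt_irrefl _ h3
    · obtain ⟨x, hx⟩ := hX
      have hpos := hs x hx q hq
      have h4 : dt a x - dt a q ≠ 0 := by linarith
      have h5 : dt (a' - ((dt a' x - dt a' q) / (dt a x - dt a q)) • a) q =
          dt (a' - ((dt a' x - dt a' q) / (dt a x - dt a q)) • a) x := by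
        rw [dt_sub_smul, dt_sub_smul]
        field_simp
        ring
      have h3 := hE x hx q hq _ h5
      rw [hqe] at h3 h5
      linarith
  obtain ⟨-, v, hv, hv'⟩ := hedge.symm'.vis
  have hcard : (Y.erase d).card = Y.card - 1 := Finset.card_erase_of_mem hd
  have hYpos := Finset.card_pos.mpr hYne
  have hs' : ∀ p ∈ Y.erase d, ∀ q ∈ X, dt (-a) q < dt (-a) p := by
    intro p hp q hq
    rw [dt_neg_left, dt_neg_left]
    have := hs q hq p (Finset.mem_erase.mp hp).2
    linarith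
  have ha' : cr (-a) a' ≠ 0 := by
    intro h0
    apply ha
    simp only [cr, Prod.fst_neg, Prod.snd_neg] at h0 ⊢
    linarith
  have hdX : d ∉ X := fun h => lt_irrefl _ (hs d h d hd)
  obtain ⟨l, hnd, hmem, hlen, hgood, halt⟩ := ih (m - 1) (by omega) (-a) a' d (Y.erase d) X
    (by omega) ha' ((Finset.erase_subset d Y).trans hYS) hXS hdX (by omega) (by omega) hX hs'
    (by
      intro c'' d'' s'' hbr''
      have h3 := hbr''.unswap
      have h4 := hbr.beyond hgp ha hXS hYS hs h3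
      have h5 := h3.2.2.1
      have e : a' - (-s'') • a = a' - s'' • (-a) := by rw [neg_smul, smul_neg]
      rw [e] at h4 h5
      rw [← h5]; exact h4)
    (by
      intro p hp q hq s'' h3
      have e0 : a' - s'' • (-a) = a' - (-s'') • a := by rw [neg_smul, smul_neg]
      rw [e0] at h3 ⊢
      rw [← h3]
      exact hE q hq p (Finset.mem_erase.mp hp).2 (-s'') h3.symm)
    (by
      intro hemp x hx
      have hxc : x = c' := by
        have hX1 : X.card ≤ 1 := by
          have : (Y.erase d).card = 0 := by rw [hemp]; simp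
          omega
        exact Finset.card_le_one.mp hX1 x hx c' hc'
      obtain ⟨-, u, hu, hu'⟩ := hedge.vis_end
      refine ⟨u, by rw [hxc]; exact hu', ?_⟩
      rw [hxc]
      refine hu e ?_ ?_
      · exact Finset.mem_erase.mpr ⟨(hne d (Finset.mem_union_right _ hd) d
          (Finset.mem_union_right _ hd)).symm, Finset.mem_insert_self _ _⟩
      · exact (hne c' (Finset.mem_union_left _ hc') d (Finset.mem_union_right _ hd)).symm)
  have hmem' : ∀ q, q ∈ d :: l ↔ q ∈ X ∪ Y := by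
    intro q
    rw [List.mem_cons, hmem, Finset.mem_union, Finset.mem_union, Finset.mem_erase]
    constructor
    · rintro (rfl | ⟨_, h⟩ | h)
      · exact Or.inr hd
      · exact Or.inr h
      · exact Or.inl h
    · rintro (h | h)
      · exact Or.inr (Or.inr h)
      · by_cases hq : q = d
        · exact Or.inl hq
        · exact Or.inr (Or.inl ⟨hq, h⟩)
  have hdl : d ∉ l := by
    intro h
    rcases Finset.mem_union.mp ((hmem d).mp h) with h | h
    · exact (Finset.mem_erase.mp h).1 rfl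
    · exact hdX h
  refine ⟨d :: l, List.nodup_cons.mpr ⟨hdl, hnd⟩, hmem', ?_, ⟨⟨v, hv', ?_⟩, hgood⟩, ?_⟩
  · rw [List.length_cons, hlen, hcard]; omega
  · intro r hr
    rcases List.mem_append.mp hr with hr | hr
    · refine hv r (Finset.mem_insert_of_mem ((hmem' r).mp (List.mem_cons_of_mem d hr))) ?_
      rintro rfl
      exact hdl hr
    · have hr' : r = e := by simpa using hr
      rw [hr']
      exact hv e (Finset.mem_insert_self _ _)
        (hne d (Finset.mem_union_right _ hd) d (Finset.mem_union_right _ hd)).symm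
  · intro T b hTX hTY he1 he2
    refine ⟨hTY d hd, halt T (!b) ?_ ?_ ?_ ?_⟩
    · intro q hq
      rw [hTY q (Finset.mem_erase.mp hq).2]
      cases b <;> simp
    · intro q hq
      rw [hTX q hq]
      cases b <;> simp
    · intro h3
      rw [he2 (by omega)]
      cases b <;> simp
    · intro h3
      rw [he1 (by omega)]
      cases b <;> simp

/-- One cell in front of a given arm: X and Y on different sides of one fixed line, c strictly
before and e strictly behind all lines through a point of X and a point of Y. -/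
theorem cellX_step {S R : Finset (ℝ × ℝ)} (hgp : GP S) {a a' w0 w1 c e : ℝ × ℝ}
    (ha : 0 < cr a' a) {X Y : Finset (ℝ × ℝ)} (hXS : X ⊆ S) (hYS : Y ⊆ S) (hcS : c ∈ S)
    (heS : e ∈ S) (hs : ∀ p ∈ X, ∀ q ∈ Y, dt a q < dt a p) (hcard : Y.card = X.card + 1)
    (hX1 : ∀ x ∈ X, ∀ y ∈ Y, 0 < cr (y - x) (c - x))
    (hX2 : ∀ x ∈ X, ∀ y ∈ Y, cr (y - x) (e - x) < 0)
    (h0 : ∀ q ∈ X ∪ Y, 0 < dt w0 (q - c)) (h0e : 0 < dt w0 (e - c))
    (h1 : ∀ q ∈ X ∪ Y, dt w1 (q - e) < 0) (h1c : dt w1 (c - e) < 0)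
    {b : Bool} (hbX : ∀ q ∈ X, (q ∈ R ↔ b = true)) (hbY : ∀ q ∈ Y, (q ∈ R ↔ b = false))
    (hbe : e ∈ R ↔ b = true) {l2 : List (ℝ × ℝ)} (hnd2 : (e :: l2).Nodup) (hs2 : Simp e l2)
    (ha2 : Alt R b l2) (hw1 : ∀ y ∈ l2, 0 < dt w1 (y - e)) (hw0 : ∀ y ∈ l2, 0 < dt w0 (y - c)) :
    ∃ l : List (ℝ × ℝ), (c :: l).Nodup ∧ (∀ q ∈ l, q ∈ X ∪ Y ∨ q = e ∨ q ∈ l2) ∧
      l.length = X.card + Y.card + 1 + l2.length ∧ Simp c l ∧ Alt R b l ∧
      ∀ q ∈ l, 0 < dt w0 (q - c) := by
  classical
  have hcr : cr a a' ≠ 0 := by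
    intro h
    have : cr a' a = -cr a a' := by simp only [cr]; ring
    rw [h] at this
    linarith
  have hcXY : c ∉ X ∪ Y := by
    intro h
    have := h0 c h
    rw [dt_self_sub] at this
    exact lt_irrefl _ this
  have heXY : e ∉ X ∪ Y := by
    intro h
    have := h1 e h
    rw [dt_self_sub] at this
    exact lt_irrefl _ this
  have hce : c ≠ e := by
    rintro rfl
    rw [dt_self_sub] at h0e
    exact lt_irrefl _ h0e
  have hYne : Y.Nonempty := by
    rw [← Finset.card_pos]; omega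
  obtain ⟨l, g1, g2, g3, g4, g5⟩ := zigX hgp e heS (X.card + Y.card) a a' c X Y rfl hcr hXS hYS
    (fun h => hcXY (Finset.mem_union_right _ h)) (by omega) (by omega) hYne hs
    (by
      intro c' d' s hbr
      have i1 := (w_side (p := c) ha (hs c' hbr.1 d' hbr.2.1) hbr.2.2.1).1
        (hX1 c' hbr.1 d' hbr.2.1)
      rw [hbr.2.2.1]
      exact i1)
    (by
      intro p hp q hq s hE
      exact (w_side (p := e) ha (hs p hp q hq) hE).2 (hX2 p hp q hq))
    (by
      intro _ d hd
      have hdc : d ≠ c := fun h => hcXY (h ▸ Finset.mem_union_right _ hd)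
      have hde : d ≠ e := fun h => heXY (h ▸ Finset.mem_union_right _ hd)
      have hne := hgp c hcS d (hYS hd) e heS hdc.symm hce hde
      -- the separator
      obtain ⟨u, hu⟩ : ∃ u, u = c - d := ⟨_, rfl⟩
      obtain ⟨v, hv⟩ : ∃ v, v = e - d := ⟨_, rfl⟩
      have hcr2 : cr u v ≠ 0 := by
        intro h
        apply hne
        have : cr (d - c) (e - c) = -cr u v := by
          rw [hu, hv]
          simp only [cr, Prod.fst_sub, Prod.snd_sub]; ring
        rw [this, h, neg_zero]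
      rw [← hu, ← hv]
      refine ⟨(cr u v) • ((v.2, -v.1) : ℝ × ℝ) * (-1) + (cr u v) • ((-u.2, u.1) : ℝ × ℝ), ?_, ?_⟩
      · have : dt ((cr u v) • ((v.2, -v.1) : ℝ × ℝ) * (-1) + (cr u v) • ((-u.2, u.1) : ℝ × ℝ)) u
            = -(cr u v * cr u v) := by
          simp only [dt, cr, Prod.fst_add, Prod.snd_add, Prod.smul_fst, Prod.smul_snd, smul_eq_mul,
            Prod.fst_mul, Prod.snd_mul, Prod.fst_neg, Prod.snd_neg, Prod.fst_one, Prod.snd_one]
          ring
        rw [this]
        have := mul_self_pos.mpr hcr2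
        linarith
      · have : dt ((cr u v) • ((v.2, -v.1) : ℝ × ℝ) * (-1) + (cr u v) • ((-u.2, u.1) : ℝ × ℝ)) v
            = cr u v * cr u v := by
          simp only [dt, cr, Prod.fst_add, Prod.snd_add, Prod.smul_fst, Prod.smul_snd, smul_eq_mul,
            Prod.fst_mul, Prod.snd_mul, Prod.fst_neg, Prod.snd_neg, Prod.fst_one, Prod.snd_one]
          ring
        rw [this]
        exact mul_self_pos.mpr hcr2)
  have hl1 : ∀ x ∈ l, dt w1 (x - e) < 0 := fun x hx => h1 x ((g2 x).1 hx)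
  have hel : ∀ x ∈ l, x ≠ e := fun x hx h => heXY (h ▸ (g2 x).1 hx)
  have hcl : c ∉ l ++ e :: l2 := by
    intro hc
    have hpos : 0 < dt w0 (c - c) := by
      rcases List.mem_append.1 hc with h | h
      · exact h0 c ((g2 c).1 h)
      · rcases List.mem_cons.1 h with h | h
        · exact absurd h hce
        · exact hw0 c h
    rw [dt_self_sub] at hpos
    exact lt_irrefl _ hpos
  refine ⟨l ++ e :: l2, List.nodup_cons.2 ⟨hcl, ?_⟩, ?_, ?_, ?_, ?_, ?_⟩
  · rw [List.nodup_append]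
    refine ⟨g1, hnd2, ?_⟩
    rintro x hx y hy rfl
    rcases List.mem_cons.1 hy with h | h
    · exact hel x hx h
    · have i1 := hl1 x hx
      have i2 := hw1 x h
      linarith
  · intro q hq
    rcases List.mem_append.1 hq with h | h
    · exact Or.inl ((g2 q).1 h)
    · rcases List.mem_cons.1 h with h | h
      · exact Or.inr (Or.inl h)
      · exact Or.inr (Or.inr h)
  · rw [List.length_append, g3, List.length_cons]
    omega
  · exact simp_append hs2 hw1 c l (AllS.good_simp _ _ g4) h1c hl1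
  · exact alt_append ha2 hbe b l (g5 R b hbX hbY (fun _ => hbe) (fun h => by omega))
  · intro q hq
    rcases List.mem_append.1 hq with h | h
    · exact h0 q ((g2 q).1 h)
    · rcases List.mem_cons.1 h with h | h
      · rw [h]; exact h0e
      · exact hw0 q h

/-- **The fold along one line.** Corners c 0, .., c M (blue). The m-th cell (m < M) goes from c m to
c (m+1): it uses the reds A m and the blues L m, which are on different sides of the line through
c 0 and c M; c m is on the left and c (m+1) on the right of all lines from a blue to a red point of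
the cell. -/
theorem fold_listX {R B : Finset (ℝ × ℝ)} (hdis : Disjoint R B) (hgp : GP (R ∪ B))
    (M : ℕ) (c w : ℕ → ℝ × ℝ) (A L : ℕ → Finset (ℝ × ℝ)) (hc : ∀ m ≤ M, c m ∈ B)
    (hA : ∀ m ≤ M, A m ⊆ R) (hL : ∀ m ≤ M, L m ⊆ B)
    (hcard : ∀ m < M, (A m).card = (L m).card + 1) (hcardM : (A M).card = (L M).card)
    (hl : ∀ m ≤ M, ∀ x ∈ A m, 0 < cr (c M - c 0) (x - c 0))
    (hl' : ∀ m ≤ M, ∀ x ∈ L m, cr (c M - c 0) (x - c 0) < 0)
    (hX1 : ∀ m < M, ∀ x ∈ A m, ∀ y ∈ L m, 0 < cr (x - y) (c m - y))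
    (hX2 : ∀ m < M, ∀ x ∈ A m, ∀ y ∈ L m, cr (x - y) (c (m + 1) - y) < 0)
    (hw : ∀ m j, m ≤ j → j ≤ M → ∀ x ∈ A j ∪ L j, 0 < dt (w m) (x - c m))
    (hcw : ∀ m j, m < j → j ≤ M → 0 < dt (w m) (c j - c m))
    (hw' : ∀ m < M, ∀ x ∈ A m ∪ L m, dt (w (m + 1)) (x - c (m + 1)) < 0)
    (hcw' : ∀ m < M, dt (w (m + 1)) (c m - c (m + 1)) < 0) :
    ∀ k ≤ M, ∃ l : List (ℝ × ℝ), (c (M - k) :: l).Nodup ∧
      (∀ x ∈ l, (∃ j, M - k ≤ j ∧ j ≤ M ∧ x ∈ A j ∪ L j) ∨ ∃ j, M - k < j ∧ j ≤ M ∧ x = c j) ∧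
      l.length = 2 * ∑ j ∈ Finset.Icc (M - k) M, (A j).card ∧
      Simp (c (M - k)) l ∧ Alt R false l := by
  classical
  have hRf : ∀ q ∈ B, (q ∈ R ↔ false = true) := fun q hq =>
    ⟨fun h => absurd hq (Finset.disjoint_left.1 hdis h), fun h => by cases h⟩
  have hRt : ∀ q ∈ R, (q ∈ R ↔ false = false) := fun q hq => ⟨fun _ => rfl, fun _ => hq⟩
  obtain ⟨d, hd⟩ : ∃ d, d = c M - c 0 := ⟨_, rfl⟩
  rw [← hd] at hl hl'
  have hdt : ∀ x : ℝ × ℝ, dt ((d.2, -d.1) : ℝ × ℝ) x = -cr d x := by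
    intro x
    simp only [dt, cr]; ring
  intro k
  induction k with
  | zero =>
    intro _
    have hdM : ∀ x : ℝ × ℝ, cr d (x - c M) = cr d (x - c 0) := by
      intro x
      have : cr d (x - c M) = cr d (x - c 0) - cr d (c M - c 0) := by
        simp only [cr, Prod.fst_sub, Prod.snd_sub]; ring
      rw [this, ← hd]
      simp only [cr]; ring
    obtain ⟨l, g1, g2, g3, g4, g5, g6⟩ := last_arm (R := R) hgp (z := c M) (w := w M)
      (a := (d.2, -d.1))
      (X := L M) (Y := A M) ((hL M le_rfl).trans Finset.subset_union_right)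
      ((hA M le_rfl).trans Finset.subset_union_left)
      (fun q hq => hw M M le_rfl le_rfl q (Finset.mem_union_right _ hq))
      (fun q hq => hw M M le_rfl le_rfl q (Finset.mem_union_left _ hq))
      (fun q hq => by rw [hdt, hdM]; linarith [hl' M le_rfl q hq])
      (fun q hq => by rw [hdt, hdM]; linarith [hl M le_rfl q hq]) hcardM.symm (b := false)
      (fun q hq => hRf q (hL M le_rfl hq)) (fun q hq => hRt q (hA M le_rfl hq))
    refine ⟨l, g1, fun x hx => Or.inl ⟨M, le_rfl, le_rfl, ?_⟩, ?_, g4, g5⟩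
    · rw [Finset.union_comm]
      exact g2 x hx
    · rw [g3, Nat.sub_zero, Finset.Icc_self, Finset.sum_singleton]
      omega
  | succ k ih =>
    intro hk
    obtain ⟨l2, g1, g2, g3, g4, g5⟩ := ih (by omega)
    obtain ⟨m, hm⟩ : ∃ m, m = M - (k + 1) := ⟨_, rfl⟩
    have hm1 : M - k = m + 1 := by omega
    have hmM : m < M := by omega
    rw [hm1] at g1 g2 g3 g4
    rw [← hm]
    have hlater : ∀ y ∈ l2, 0 < dt (w (m + 1)) (y - c (m + 1)) ∧ 0 < dt (w m) (y - c m) := by
      intro y hy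
      rcases g2 y hy with ⟨j, hj, hjM, hyj⟩ | ⟨j, hj, hjM, rfl⟩
      · exact ⟨hw (m + 1) j hj hjM y hyj, hw m j (by omega) hjM y hyj⟩
      · exact ⟨hcw (m + 1) j hj hjM, hcw m j (by omega) hjM⟩
    have hd0 : 0 < cr (-d) ((d.2, -d.1) : ℝ × ℝ) := by
      have hne : d ≠ 0 := by
        intro h0
        have := hcw 0 M (by omega) le_rfl
        rw [← hd, h0] at this
        simp [dt] at this
      have := dt_self_pos hne
      have e1 : cr (-d) ((d.2, -d.1) : ℝ × ℝ) = dt d d := by
        simp only [cr, dt, Prod.fst_neg, Prod.snd_neg]; ring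
      rw [e1]; exact this
    obtain ⟨l, f1, f2, f3, f4, f5, f6⟩ := cellX_step (R := R) hgp (a := (d.2, -d.1)) (a' := -d)
      (w0 := w m) (w1 := w (m + 1)) (c := c m) (e := c (m + 1)) hd0 (X := L m) (Y := A m)
      ((hL m hmM.le).trans Finset.subset_union_right)
      ((hA m hmM.le).trans Finset.subset_union_left)
      (Finset.mem_union_right _ (hc m hmM.le)) (Finset.mem_union_right _ (hc (m + 1) (by omega)))
      (fun p hp q hq => by
        rw [hdt, hdt]
        have i1 := hl' m hmM.le p hp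
        have i2 := hl m hmM.le q hq
        have i3 : ∀ x : ℝ × ℝ, cr d (x - c 0) = cr d x - cr d (c 0) := by
          intro x
          simp only [cr, Prod.fst_sub, Prod.snd_sub]; ring
        rw [i3] at i1 i2
        linarith)
      (hcard m hmM)
      (fun x hx y hy => hX1 m hmM y hy x hx)
      (fun x hx y hy => hX2 m hmM y hy x hx)
      (fun q hq => hw m m le_rfl hmM.le q (by rw [Finset.union_comm]; exact hq))
      (hcw m (m + 1) (by omega) (by omega))
      (fun q hq => hw' m hmM q (by rw [Finset.union_comm]; exact hq)) (hcw' m hmM)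
      (b := false)
      (fun q hq => hRf q (hL m hmM.le hq))
      (fun q hq => hRt q (hA m hmM.le hq)) (hRf _ (hc (m + 1) (by omega))) g1 g4 g5
      (fun y hy => (hlater y hy).1) (fun y hy => (hlater y hy).2)
    refine ⟨l, f1, fun x hx => ?_, ?_, f4, f5⟩
    · rcases f2 x hx with h | h | h
      · exact Or.inl ⟨m, le_rfl, hmM.le, by rw [Finset.union_comm]; exact h⟩
      · exact Or.inr ⟨m + 1, by omega, by omega, h⟩
      · rcases g2 x h with ⟨j, hj, hjM, hyj⟩ | ⟨j, hj, hjM, hyj⟩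
        · exact Or.inl ⟨j, by omega, hjM, hyj⟩
        · exact Or.inr ⟨j, by omega, hjM, hyj⟩
    · rw [f3, g3]
      have e1 : Finset.Icc m M = insert m (Finset.Icc (m + 1) M) := by
        ext j
        simp only [Finset.mem_Icc, Finset.mem_insert]
        omega
      rw [e1, Finset.sum_insert (by simp)]
      have := hcard m hmM
      omega

/-- **The path of the fold along one line**, with the first arm on the other side of the first
corner. -/
theorem fold_pathX {R B : Finset (ℝ × ℝ)} (hdis : Disjoint R B) (hgp : GP (R ∪ B))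
    (M : ℕ) (c w : ℕ → ℝ × ℝ) (A L : ℕ → Finset (ℝ × ℝ)) (hc : ∀ m ≤ M, c m ∈ B)
    (hA : ∀ m ≤ M, A m ⊆ R) (hL : ∀ m ≤ M, L m ⊆ B)
    (hcard : ∀ m < M, (A m).card = (L m).card + 1) (hcardM : (A M).card = (L M).card)
    (hl : ∀ m ≤ M, ∀ x ∈ A m, 0 < cr (c M - c 0) (x - c 0))
    (hl' : ∀ m ≤ M, ∀ x ∈ L m, cr (c M - c 0) (x - c 0) < 0)
    (hX1 : ∀ m < M, ∀ x ∈ A m, ∀ y ∈ L m, 0 < cr (x - y) (c m - y))
    (hX2 : ∀ m < M, ∀ x ∈ A m, ∀ y ∈ L m, cr (x - y) (c (m + 1) - y) < 0)
    (hw : ∀ m j, m ≤ j → j ≤ M → ∀ x ∈ A j ∪ L j, 0 < dt (w m) (x - c m))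
    (hcw : ∀ m j, m < j → j ≤ M → 0 < dt (w m) (c j - c m))
    (hw' : ∀ m < M, ∀ x ∈ A m ∪ L m, dt (w (m + 1)) (x - c (m + 1)) < 0)
    (hcw' : ∀ m < M, dt (w (m + 1)) (c m - c (m + 1)) < 0)
    {R1 B1 : Finset (ℝ × ℝ)} (hR1 : R1 ⊆ R) (hB1 : B1 ⊆ B)
    (hleft : ∀ x ∈ R1 ∪ B1, dt (w 0) (x - c 0) < 0) {j : ℕ} (hjR : j ≤ R1.card)
    (hjB : j ≤ B1.card) :
    HasPath R B (2 * ∑ m ∈ Finset.range (M + 1), (A m).card + j + 1) := by
  classical
  obtain ⟨l, g1, g2, g3, g4, g5⟩ := fold_listX hdis hgp M c w A L hc hA hL hcard hcardM hl hl'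
    hX1 hX2 hw hcw hw' hcw' M le_rfl
  rw [Nat.sub_self] at g1 g2 g3 g4
  have hc0 : c 0 ∈ B := hc 0 (Nat.zero_le _)
  have hsub : insert (c 0) (R1 ∪ B1) ⊆ R ∪ B :=
    Finset.insert_subset (Finset.mem_union_right _ hc0) (Finset.union_subset_union hR1 hB1)
  obtain ⟨l1, f1, f2, f3, f4, f5⟩ := cut (c 0) (-w 0) (R1 ∪ B1) R1 B1 (hgp.mono hsub)
    (fun q hq => by rw [dt_neg_left]; linarith [hleft q hq]) Finset.subset_union_left
    Finset.subset_union_right (Finset.disjoint_of_subset_left hR1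
      (Finset.disjoint_of_subset_right hB1 hdis)) j hjR hjB
  have hf5 : Alt R false l1 := f5 R false (fun q hq => ⟨fun _ => rfl, fun _ => hR1 hq⟩)
    (fun q hq => ⟨fun h => absurd (hB1 hq) (Finset.disjoint_left.1 hdis h), fun h => by cases h⟩)
  have hpath := hasPath_two_simp hdis (z := c 0) (w := w 0) (l1 := l1) (l2 := l)
    (Finset.mem_union_right _ hc0)
    (fun q hq => (Finset.insert_subset_iff.1 hsub).2 (f2 q hq))
    (fun x hx => by
      rcases g2 x hx with ⟨i, -, hi, h⟩ | ⟨i, -, hi, rfl⟩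
      · exact Finset.union_subset_union (hA i hi) (hL i hi) h
      · exact Finset.mem_union_right _ (hc i hi))
    f1 g1 (AllS.good_simp _ _ f3) g4 false
    ⟨fun h => absurd hc0 (Finset.disjoint_left.1 hdis h), fun h => by cases h⟩ hf5 g5
    (fun q hq => (hleft q (f2 q hq)).le)
    (fun x hx => by
      rcases g2 x hx with ⟨i, h0, hi, h⟩ | ⟨i, h0, hi, rfl⟩
      · exact hw 0 i h0 hi x h
      · exact hcw 0 i h0 hi)
  refine HasPath.mono hpath ?_
  have e1 : Finset.Icc 0 M = Finset.range (M + 1) := by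
    ext i
    simp only [Finset.mem_Icc, Finset.mem_range]
    omega
  rw [g3, e1]
  omega

end Pool.Agent.AltALL
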