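import Pool.Agent.AltALL.Ivt14
import Pool.Agent.AltALL.Chain79

/-! The separators through the corners exist (section 4 of the all-sets page). -/

namespace Pool.Agent.AltALL

open Pool.Agent.AltPath

/-- The functional cr u. -/
def lf14 (u : ℝ × ℝ) : ℝ × ℝ := (-u.2, u.1)

theorem dt_lf14 (u x : ℝ × ℝ) : dt (lf14 u) x = cr u x := by
  simp only [dt, cr, lf14]; ring

theorem dt_neg14 (u x : ℝ × ℝ) : dt (-u) x = -dt u x := by
  simp only [dt, Prod.fst_neg, Prod.snd_neg]; ring

theorem cr_base14 (q e p : ℝ × ℝ) : cr (e - q) (p - q) = cr (e - q) (p - e) := by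
  simp only [cr, Prod.fst_sub, Prod.snd_sub]; ring

theorem cr_cyc14 (q e c : ℝ × ℝ) : cr (c - e) (q - e) = cr (e - q) (c - q) := by
  simp only [cr, Prod.fst_sub, Prod.snd_sub]; ring

/-- The pencil at e between two functionals, strictly between them. -/
theorem pencil_mid {e w0 w1 : ℝ × ℝ} {A L : Finset (ℝ × ℝ)} {k : ℤ} (hcr : cr w0 w1 ≠ 0)
    (hgp : ∀ p ∈ A ∪ L, ∀ p' ∈ A ∪ L, p ≠ p' → cr (p - e) (p' - e) ≠ 0)
    (h0 : ∀ p ∈ A ∪ L, dt w0 (p - e) ≠ 0) (h1 : ∀ p ∈ A ∪ L, dt w1 (p - e) ≠ 0)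
    (hs : k ≤ ph14 e A L w0) (he : ph14 e A L w1 ≤ k) :
    ∃ al be : ℝ, 0 < al ∧ 0 < be ∧ (∀ p ∈ A ∪ L, al * dt w0 (p - e) + be * dt w1 (p - e) ≠ 0) ∧
      ph14 e A L (al • w0 + be • w1) = k := by
  classical
  obtain ⟨a0, ha0, ha1, ha⟩ := small_turn (w1 := w1) h0
  obtain ⟨b0, hb0, hb1, hb⟩ := small_turn (w1 := w0) h1
  obtain ⟨a, hadef⟩ : ∃ a, a = min a0 (1 / 3) := ⟨_, rfl⟩
  obtain ⟨b, hbdef⟩ : ∃ b, b = min b0 (1 / 3) := ⟨_, rfl⟩
  have ap : 0 < a := by rw [hadef]; exact lt_min ha0 (by norm_num)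
  have bp : 0 < b := by rw [hbdef]; exact lt_min hb0 (by norm_num)
  have a3 : a ≤ 1 / 3 := by rw [hadef]; exact min_le_right _ _
  have b3 : b ≤ 1 / 3 := by rw [hbdef]; exact min_le_right _ _
  have aa : a ≤ a0 := by rw [hadef]; exact min_le_left _ _
  have bb : b ≤ b0 := by rw [hbdef]; exact min_le_left _ _
  have hphcongr : ∀ w w' : ℝ × ℝ, (∀ p ∈ A ∪ L, (dt w (p - e) < 0 ↔ dt w' (p - e) < 0)) →
      ph14 e A L w = ph14 e A L w' := by
    intro w w' h
    unfold ph14
    rw [Finset.filter_congr (fun p hp => h p (Finset.mem_union_left L hp)),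
      Finset.filter_congr (fun p hp => h p (Finset.mem_union_right A hp))]
  have e0 : ph14 e A L ((1 - a) • w0 + a • w1) = ph14 e A L w0 :=
    hphcongr _ _ (fun p hp => (ha p hp a ap.le aa).2)
  have e1 : ph14 e A L ((1 - b) • w1 + b • w0) = ph14 e A L w1 :=
    hphcongr _ _ (fun p hp => (hb p hp b bp.le bb).2)
  obtain ⟨t, ht0, ht1, ht2, ht3⟩ := ivt14 (c := e) (w0 := (1 - a) • w0 + a • w1)
    (w1 := (1 - b) • w1 + b • w0) (A := A) (B := L) (k := k) hgp
    (fun p hp => (ha p hp a ap.le aa).1) (fun p hp => (hb p hp b bp.le bb).1)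
    (by
      have : cr ((1 - a) • w0 + a • w1) ((1 - b) • w1 + b • w0) = (1 - a - b) * cr w0 w1 := by
        simp only [cr, Prod.fst_add, Prod.snd_add, Prod.smul_fst, Prod.smul_snd, smul_eq_mul]; ring
      rw [this]
      exact mul_ne_zero (by linarith) hcr) (by rw [e0]; exact hs) (by rw [e1]; exact he)
  have hexp : (1 - t) • ((1 - a) • w0 + a • w1) + t • ((1 - b) • w1 + b • w0) =
      ((1 - t) * (1 - a) + t * b) • w0 + ((1 - t) * a + t * (1 - b)) • w1 := by
    rw [smul_add, smul_add, smul_smul, smul_smul, smul_smul, smul_smul, add_smul, add_smul]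
    abel
  refine ⟨(1 - t) * (1 - a) + t * b, (1 - t) * a + t * (1 - b), ?_, ?_, ?_, ?_⟩
  · nlinarith [mul_nonneg (sub_nonneg.mpr ht1) (by linarith : (0:ℝ) ≤ 1 - a - b)]
  · nlinarith [mul_nonneg ht0 (by linarith : (0:ℝ) ≤ 1 - b - a)]
  · intro p hp
    have h := ht2 p hp
    rw [hexp] at h
    intro h'
    apply h
    rw [← h']
    simp only [dt, Prod.fst_add, Prod.snd_add, Prod.smul_fst, Prod.smul_snd, smul_eq_mul]; ring
  · rw [← hexp]; exact ht3

/-- Existence of the separator through the corner e. -/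
theorem gm_exists {q e c : ℝ × ℝ} {A L : Finset (ℝ × ℝ)} {k : ℤ}
    (hqec : cr (e - q) (c - q) < 0)
    (hgp : ∀ p ∈ A ∪ L, ∀ p' ∈ A ∪ L, p ≠ p' → cr (p - e) (p' - e) ≠ 0)
    (hq : ∀ p ∈ A ∪ L, cr (e - q) (p - q) ≠ 0)
    (hc : ∀ p ∈ A ∪ L, cr (c - e) (p - e) ≠ 0)
    (hs : k ≤ ((A.filter (fun p => 0 < cr (e - q) (p - q))).card : ℤ) -
      ((L.filter (fun p => 0 < cr (e - q) (p - q))).card : ℤ))
    (he : ((A.filter (fun p => cr (c - e) (p - e) < 0)).card : ℤ) -
      ((L.filter (fun p => cr (c - e) (p - e) < 0)).card : ℤ) ≤ k) :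
    ∃ w : ℝ × ℝ, dt w (q - e) < 0 ∧ 0 < dt w (c - e) ∧ (∀ p ∈ A ∪ L, dt w (p - e) ≠ 0) ∧
      ((A.filter (fun p => dt w (p - e) < 0)).card : ℤ) -
        ((L.filter (fun p => dt w (p - e) < 0)).card : ℤ) = k := by
  classical
  have d0 : ∀ x, dt (-lf14 (e - q)) x = -cr (e - q) x := fun x => by rw [dt_neg14, dt_lf14]
  have d1 : ∀ x, dt (lf14 (c - e)) x = cr (c - e) x := fun x => dt_lf14 _ _
  have hw01 : cr (-lf14 (e - q)) (lf14 (c - e)) = -cr (e - q) (c - q) := by
    simp only [cr, lf14, Prod.fst_neg, Prod.snd_neg, Prod.fst_sub, Prod.snd_sub]; ring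
  obtain ⟨al, be, hal, hbe, hne, hph⟩ := pencil_mid (e := e) (w0 := -lf14 (e - q))
    (w1 := lf14 (c - e)) (A := A) (L := L) (k := k) (by rw [hw01]; linarith) hgp
    (by
      intro p hp
      rw [d0, ← cr_base14]
      exact neg_ne_zero.mpr (hq p hp))
    (by
      intro p hp
      rw [d1]
      exact hc p hp)
    (by
      unfold ph14
      rw [Finset.filter_congr (s := A) (p := fun p => dt (-lf14 (e - q)) (p - e) < 0)
        (q := fun p => 0 < cr (e - q) (p - q)) (by
          intro p _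
          rw [d0, cr_base14, neg_lt_zero]),
        Finset.filter_congr (s := L) (p := fun p => dt (-lf14 (e - q)) (p - e) < 0)
        (q := fun p => 0 < cr (e - q) (p - q)) (by
          intro p _
          rw [d0, cr_base14, neg_lt_zero])]
      exact hs)
    (by
      unfold ph14
      simp only [d1]
      exact he)
  have hcomb : ∀ x, dt (al • (-lf14 (e - q)) + be • lf14 (c - e)) x =
      al * (-cr (e - q) x) + be * cr (c - e) x := by
    intro x
    rw [← d0, ← d1]
    simp only [dt, Prod.fst_add, Prod.snd_add, Prod.smul_fst, Prod.smul_snd, smul_eq_mul]; ring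
  refine ⟨al • (-lf14 (e - q)) + be • lf14 (c - e), ?_, ?_, ?_, ?_⟩
  · rw [hcomb]
    have z1 : cr (e - q) (q - e) = 0 := by
      simp only [cr, Prod.fst_sub, Prod.snd_sub]; ring
    rw [z1, cr_cyc14]
    have := mul_neg_of_pos_of_neg hbe hqec
    linarith
  · rw [hcomb]
    have z1 : cr (c - e) (c - e) = 0 := by
      simp only [cr, Prod.fst_sub, Prod.snd_sub]; ring
    rw [z1, ← cr_base14]
    have := mul_pos hal (neg_pos.mpr hqec)
    linarith
  · intro p hp
    have := hne p hp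
    rw [d0, d1] at this
    rw [hcomb]
    exact this
  · exact hph

/-- The cone at c: if e is between q and e' seen from c then every point strictly between the lines
c q and c e is strictly between the lines c q and c e'. -/
theorem dw_mono {q e e' c p : ℝ × ℝ} (h1 : cr (q - c) (e - c) < 0) (h2 : cr (e - c) (e' - c) ≤ 0)
    (h3 : cr (q - c) (e' - c) < 0) (h : cr (q - c) (p - c) * cr (e - c) (p - c) < 0) :
    cr (q - c) (p - c) * cr (e' - c) (p - c) < 0 := by
  have key : cr (e - c) (p - c) * cr (q - c) (e' - c) =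
      cr (e - c) (e' - c) * cr (q - c) (p - c) + cr (q - c) (e - c) * cr (e' - c) (p - c) := by
    simp only [cr]; ring
  obtain ⟨X, hX⟩ : ∃ X, X = cr (q - c) (p - c) := ⟨_, rfl⟩
  obtain ⟨Y, hY⟩ : ∃ Y, Y = cr (e' - c) (p - c) := ⟨_, rfl⟩
  obtain ⟨Z, hZ⟩ : ∃ Z, Z = cr (e - c) (p - c) := ⟨_, rfl⟩
  rw [← hX, ← hY, ← hZ] at key
  rw [← hX, ← hZ] at h
  rw [← hX, ← hY]
  by_contra hcon
  push Not at hcon
  have e1 : X * Z * cr (q - c) (e' - c) = cr (e - c) (e' - c) * (X * X) +
      cr (q - c) (e - c) * (X * Y) := by linear_combination X * key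
  have e2 : 0 < X * Z * cr (q - c) (e' - c) := mul_pos_of_neg_of_neg h h3
  have e3 : cr (e - c) (e' - c) * (X * X) ≤ 0 :=
    mul_nonpos_of_nonpos_of_nonneg h2 (mul_self_nonneg X)
  have e4 : cr (q - c) (e - c) * (X * Y) ≤ 0 := mul_nonpos_of_nonpos_of_nonneg h1.le hcon
  linarith

/-- The end value of the count at the corner e. -/
theorem gm_end {q e e' c : ℝ × ℝ} {A L P : Finset (ℝ × ℝ)} (hAP : A ⊆ P) (hLP : L ⊆ P)
    (hAL : Disjoint A L) (hA : ∀ p ∈ A, 0 < cr (c - q) (p - q))
    (hL : ∀ p ∈ L, cr (c - q) (p - q) < 0) (hLe : ∀ p ∈ L, cr (c - e) (p - e) ≠ 0)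
    (h1 : cr (q - c) (e - c) < 0) (h2 : cr (e - c) (e' - c) ≤ 0) (h3 : cr (q - c) (e' - c) < 0) :
    ((A.filter (fun p => cr (c - e) (p - e) < 0)).card : ℤ) -
      ((L.filter (fun p => cr (c - e) (p - e) < 0)).card : ℤ) ≤
      ((P.filter (fun p => cr (q - c) (p - c) * cr (e' - c) (p - c) < 0)).card : ℤ) -
        (L.card : ℤ) := by
  classical
  have f1 : ∀ p, cr (q - c) (p - c) = -cr (c - q) (p - q) := by
    intro p; simp only [cr, Prod.fst_sub, Prod.snd_sub]; ring
  have f2 : ∀ p, cr (e - c) (p - c) = -cr (c - e) (p - e) := by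
    intro p; simp only [cr, Prod.fst_sub, Prod.snd_sub]; ring
  have s1 : (A.filter (fun p => cr (c - e) (p - e) < 0)) ∪
      (L.filter (fun p => ¬ cr (c - e) (p - e) < 0)) ⊆
      P.filter (fun p => cr (q - c) (p - c) * cr (e' - c) (p - c) < 0) := by
    intro p hp
    rcases Finset.mem_union.mp hp with hp | hp
    · obtain ⟨hpA, hpn⟩ := Finset.mem_filter.mp hp
      refine Finset.mem_filter.mpr ⟨hAP hpA, dw_mono h1 h2 h3 ?_⟩
      rw [f1, f2]
      have := mul_neg_of_pos_of_neg (hA p hpA) hpn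
      linarith
    · obtain ⟨hpL, hpn⟩ := Finset.mem_filter.mp hp
      refine Finset.mem_filter.mpr ⟨hLP hpL, dw_mono h1 h2 h3 ?_⟩
      rw [f1, f2]
      have h4 : 0 < cr (c - e) (p - e) := lt_of_le_of_ne (not_lt.mp hpn) (hLe p hpL).symm
      have := mul_neg_of_neg_of_pos (hL p hpL) h4
      linarith
  have hd : Disjoint (A.filter (fun p => cr (c - e) (p - e) < 0))
      (L.filter (fun p => ¬ cr (c - e) (p - e) < 0)) :=
    Finset.disjoint_of_subset_left (Finset.filter_subset _ _)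
      (Finset.disjoint_of_subset_right (Finset.filter_subset _ _) hAL)
  have c1 := Finset.card_le_card s1
  rw [Finset.card_union_of_disjoint hd] at c1
  have c2 := Finset.card_filter_add_card_filter_not (s := L) (fun p => cr (c - e) (p - e) < 0)
  omega

/-- A point above l, right of the ray from q to z, not in the open triangle, is on the side of c of
every line through z which separates q from c. -/
theorem right_of_sep {q z c r w : ℝ × ℝ} (hqzc : cr (z - q) (c - q) < 0)
    (habove : 0 < cr (c - q) (r - q)) (hright : cr (z - q) (r - q) < 0)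
    (hout : ¬ InTri q z c r) (hq : dt w (q - z) < 0) (hc : 0 < dt w (c - z)) :
    0 < dt w (r - z) := by
  obtain ⟨D, hD⟩ : ∃ D, D = cr (c - q) (z - q) := ⟨_, rfl⟩
  have hDz : cr (z - q) (c - q) = -D := by
    rw [hD]; simp only [cr]; ring
  have hDp : 0 < D := by linarith
  obtain ⟨la, hla⟩ : ∃ la, la = cr (c - q) (r - q) := ⟨_, rfl⟩
  obtain ⟨lb, hlb⟩ : ∃ lb, lb = -cr (z - q) (r - q) := ⟨_, rfl⟩
  -- D * dt w (r - z) = (D - la - lb) * dt w (q - z) + lb * dt w (c - z)
  have key : D * dt w (r - z) = (D - la - lb) * dt w (q - z) + lb * dt w (c - z) := by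
    rw [hD, hla, hlb]
    simp only [cr, dt, Prod.fst_sub, Prod.snd_sub]; ring
  have hlap : 0 < la := by rw [hla]; exact habove
  have hlbp : 0 < lb := by rw [hlb]; linarith
  have h3 : D - la - lb ≤ 0 := by
    by_contra hcon
    push Not at hcon
    apply hout
    refine ⟨hright, ?_, ?_⟩
    · have : cr (c - z) (r - z) = -(D - la - lb) := by
        rw [hD, hla, hlb]; simp only [cr, Prod.fst_sub, Prod.snd_sub]; ring
      rw [this]; linarith
    · have : cr (q - c) (r - c) = -la := by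
        rw [hla]; simp only [cr, Prod.fst_sub, Prod.snd_sub]; ring
      rw [this]; linarith
  have h4 : 0 ≤ (D - la - lb) * dt w (q - z) := mul_nonneg_of_nonpos_of_nonpos h3 hq.le
  have h5 := mul_pos hlbp hc
  have h6 : 0 < D * dt w (r - z) := by rw [key]; linarith
  exact (pos_iff_pos_of_mul_pos h6).mp hDp

/-- No point below l and right of T is left of the ray from q to a corner right of T. -/
theorem not_left_corner {q e c y τ : ℝ × ℝ} (hqec : cr (e - q) (c - q) < 0)
    (hbelow : cr (c - q) (y - q) < 0) (hy : 0 < dt τ (y - q)) (he : 0 < dt τ (e - q))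
    (hc : 0 < dt τ (c - q)) : cr (e - q) (y - q) < 0 := by
  by_contra hcon
  push Not at hcon
  obtain ⟨D, hD⟩ : ∃ D, D = cr (c - q) (e - q) := ⟨_, rfl⟩
  have hDp : 0 < D := by
    have : cr (e - q) (c - q) = -D := by rw [hD]; simp only [cr]; ring
    linarith
  have key : D * dt τ (y - q) = cr (c - q) (y - q) * dt τ (e - q) - cr (e - q) (y - q) * dt τ (c - q) := by
    rw [hD]; simp only [cr, dt]; ring
  have h1 := mul_neg_of_neg_of_pos hbelow he
  have h2 := mul_nonneg hcon hc.le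
  have h3 := mul_pos hDp hy
  linarith

/-- The last separator, through c. -/
theorem gm_last {q z c w' : ℝ × ℝ} {A L : Finset (ℝ × ℝ)} {k : ℤ}
    (hqzc : cr (z - q) (c - q) < 0)
    (hgp : ∀ p ∈ A ∪ L, ∀ p' ∈ A ∪ L, p ≠ p' → cr (p - c) (p' - c) ≠ 0)
    (hz : ∀ p ∈ A ∪ L, cr (c - z) (p - z) ≠ 0)
    (hA : ∀ p ∈ A, 0 < cr (c - q) (p - q)) (hL : ∀ p ∈ L, cr (c - q) (p - q) < 0)
    (hout : ∀ p ∈ A, ¬ InTri q z c p) (hq : dt w' (q - z) < 0) (hc : 0 < dt w' (c - z))
    (hA' : ∀ p ∈ A, 0 < dt w' (p - z)) (hk0 : 0 ≤ k) (hk : k ≤ A.card) :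
    ∃ w : ℝ × ℝ, dt w (q - c) < 0 ∧ dt w (z - c) < 0 ∧
      (∀ x : ℝ × ℝ, 0 < cr (c - q) (x - q) → cr (c - z) (x - z) < 0 → dt w (x - c) < 0) ∧
      (∀ p ∈ A ∪ L, dt w (p - c) ≠ 0) ∧
      ((A.filter (fun p => dt w (p - c) < 0)).card : ℤ) -
        ((L.filter (fun p => dt w (p - c) < 0)).card : ℤ) = k := by
  classical
  have d0 : ∀ x, dt (-lf14 (c - q)) (x - c) = -cr (c - q) (x - q) := fun x => by
    rw [dt_neg14, dt_lf14, ← cr_base14]
  have d1 : ∀ x, dt (lf14 (c - z)) (x - c) = cr (c - z) (x - z) := fun x => by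
    rw [dt_lf14, ← cr_base14]
  have hw01 : cr (-lf14 (c - q)) (lf14 (c - z)) = -cr (z - q) (c - q) := by
    simp only [cr, lf14, Prod.fst_neg, Prod.snd_neg, Prod.fst_sub, Prod.snd_sub]; ring
  -- no point of A is below the line z c
  have hnone : ∀ p ∈ A, 0 < cr (c - z) (p - z) := by
    intro p hp
    by_contra hcon
    push Not at hcon
    have hlt : cr (c - z) (p - z) < 0 := lt_of_le_of_ne hcon (hz p (Finset.mem_union_left L hp))
    apply hout p hp
    obtain ⟨D, hD⟩ : ∃ D, D = cr (c - q) (z - q) := ⟨_, rfl⟩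
    have hDz : cr (z - q) (c - q) = -D := by
      rw [hD]; simp only [cr]; ring
    have hDp : 0 < D := by linarith
    have key : D * dt w' (p - z) = -cr (c - z) (p - z) * dt w' (q - z) -
        cr (z - q) (p - q) * dt w' (c - z) := by
      rw [hD]
      simp only [cr, dt, Prod.fst_sub, Prod.snd_sub]; ring
    have h1 : 0 < D * dt w' (p - z) := mul_pos hDp (hA' p hp)
    have h2 : -cr (c - z) (p - z) * dt w' (q - z) < 0 := mul_neg_of_pos_of_neg (by linarith) hq
    have h3 : cr (z - q) (p - q) < 0 := by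
      by_contra h4
      push Not at h4
      have := mul_nonneg h4 hc.le
      linarith
    refine ⟨h3, hlt, ?_⟩
    have : cr (q - c) (p - c) = -cr (c - q) (p - q) := by
      simp only [cr, Prod.fst_sub, Prod.snd_sub]; ring
    rw [this]
    have := hA p hp
    linarith
  have hfA0 : A.filter (fun p => dt (-lf14 (c - q)) (p - c) < 0) = A := by
    apply Finset.filter_true_of_mem
    intro p hp
    rw [d0]
    have := hA p hp
    linarith
  have hfL0 : L.filter (fun p => dt (-lf14 (c - q)) (p - c) < 0) = ∅ := by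
    apply Finset.filter_false_of_mem
    intro p hp
    rw [d0]
    have := hL p hp
    linarith
  have hfA1 : A.filter (fun p => dt (lf14 (c - z)) (p - c) < 0) = ∅ := by
    apply Finset.filter_false_of_mem
    intro p hp
    rw [d1]
    exact not_lt.mpr (hnone p hp).le
  obtain ⟨al, be, hal, hbe, hne, hph⟩ := pencil_mid (e := c) (w0 := -lf14 (c - q))
    (w1 := lf14 (c - z)) (A := A) (L := L) (k := k) (by rw [hw01]; linarith) hgp
    (by
      intro p hp
      rw [d0]
      rcases Finset.mem_union.mp hp with h | h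
      · exact neg_ne_zero.mpr (hA p h).ne'
      · exact neg_ne_zero.mpr (hL p h).ne)
    (by
      intro p hp
      rw [d1]
      exact hz p hp)
    (by
      unfold ph14
      rw [hfA0, hfL0, Finset.card_empty]
      push_cast
      linarith)
    (by
      unfold ph14
      rw [hfA1, Finset.card_empty]
      push_cast
      have : (0 : ℤ) ≤ ((L.filter (fun p => dt (lf14 (c - z)) (p - c) < 0)).card : ℤ) :=
        Int.natCast_nonneg _
      linarith)
  have hcomb : ∀ x, dt (al • (-lf14 (c - q)) + be • lf14 (c - z)) (x - c) =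
      al * (-cr (c - q) (x - q)) + be * cr (c - z) (x - z) := by
    intro x
    rw [← d0, ← d1]
    simp only [dt, Prod.fst_add, Prod.snd_add, Prod.smul_fst, Prod.smul_snd, smul_eq_mul]; ring
  refine ⟨al • (-lf14 (c - q)) + be • lf14 (c - z), ?_, ?_, ?_, ?_, ?_⟩
  · rw [hcomb]
    have z1 : cr (c - q) (q - q) = 0 := by
      simp only [cr, Prod.fst_sub, Prod.snd_sub]; ring
    rw [z1, cr_cyc14]
    have := mul_neg_of_pos_of_neg hbe hqzc
    linarith
  · rw [hcomb]
    have z1 : cr (c - z) (z - z) = 0 := by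
      simp only [cr, Prod.fst_sub, Prod.snd_sub]; ring
    have z2 : cr (c - q) (z - q) = -cr (z - q) (c - q) := by
      simp only [cr]; ring
    rw [z1, z2]
    have := mul_pos hal (neg_pos.mpr hqzc)
    linarith
  · intro x hx1 hx2
    rw [hcomb]
    have h1 := mul_pos hal hx1
    have h2 := mul_neg_of_pos_of_neg hbe hx2
    linarith
  · intro p hp
    have := hne p hp
    rw [d0, d1] at this
    rw [hcomb]
    exact this
  · exact hph

theorem cr_swap14 (p s c : ℝ × ℝ) : cr (p - c) (s - c) = -cr (s - c) (p - c) := by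
  simp only [cr, Prod.fst_sub, Prod.snd_sub]; ring

/-- The separator through the corner c' in the form used by the window lemma. -/
theorem gm_cell {q c c' : ℝ × ℝ} {A L : Finset (ℝ × ℝ)}
    (hA : ∀ p ∈ A, 0 < cr (c - q) (p - q)) (hL : ∀ p ∈ L, cr (c - q) (p - q) < 0)
    (hc' : 0 < cr (c - q) (c' - q))
    (hgp : ∀ p ∈ insert q (insert c (A ∪ L)), ∀ s ∈ insert q (insert c (A ∪ L)), p ≠ s →
      cr (p - c') (s - c') ≠ 0)
    (hr : ∃ r ∈ A, 0 < cr (c' - q) (r - q)) (hLs : ∀ p ∈ L, cr (c' - q) (p - q) < 0)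
    (hend : (A.filter (fun p => 0 < cr (c' - c) (p - c))).card ≤
      (L.filter (fun p => 0 < cr (c' - c) (p - c))).card) :
    ∃ w : ℝ × ℝ, dt w (q - c') < 0 ∧ 0 < dt w (c - c') ∧ (∀ p ∈ A ∪ L, dt w (p - c') ≠ 0) ∧
      (A.filter (fun p => dt w (p - c') < 0)).card =
        (L.filter (fun p => dt w (p - c') < 0)).card + 1 := by
  classical
  have hpq : ∀ p ∈ A ∪ L, p ≠ q ∧ p ≠ c := by
    intro p hp
    have h0 : cr (c - q) (p - q) ≠ 0 := by
      rcases Finset.mem_union.mp hp with h | h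
      · exact (hA p h).ne'
      · exact (hL p h).ne
    constructor
    · rintro rfl
      apply h0
      simp only [cr, Prod.fst_sub, Prod.snd_sub]; ring
    · rintro rfl
      apply h0
      simp only [cr]; ring
  have hmem : ∀ p ∈ A ∪ L, p ∈ insert q (insert c (A ∪ L)) := fun p hp =>
    Finset.mem_insert_of_mem (Finset.mem_insert_of_mem hp)
  have hqm : q ∈ insert q (insert c (A ∪ L)) := Finset.mem_insert_self _ _
  have hcm : c ∈ insert q (insert c (A ∪ L)) :=
    Finset.mem_insert_of_mem (Finset.mem_insert_self _ _)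
  have e1 : ∀ p, cr (c - c') (p - c') = -cr (c' - c) (p - c) := by
    intro p; simp only [cr, Prod.fst_sub, Prod.snd_sub]; ring
  obtain ⟨w, hw1, hw2, hw3, hw4⟩ := gm_exists (q := q) (e := c') (c := c) (A := A) (L := L) (k := 1)
    (by
      have : cr (c' - q) (c - q) = -cr (c - q) (c' - q) := cr_swap14 _ _ _
      rw [this]; linarith)
    (fun p hp s hs hps => hgp p (hmem p hp) s (hmem s hs) hps)
    (by
      intro p hp
      have h := hgp q hqm p (hmem p hp) (hpq p hp).1.symm
      have h2 : cr (c' - q) (p - q) = -cr (q - c') (p - c') := by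
        simp only [cr, Prod.fst_sub, Prod.snd_sub]; ring
      rw [h2]
      exact neg_ne_zero.mpr h)
    (by
      intro p hp
      exact hgp c hcm p (hmem p hp) (hpq p hp).2.symm)
    (by
      obtain ⟨r, hr1, hr2⟩ := hr
      have h1 : 0 < (A.filter (fun p => 0 < cr (c' - q) (p - q))).card :=
        Finset.card_pos.mpr ⟨r, Finset.mem_filter.mpr ⟨hr1, hr2⟩⟩
      have h2 : (L.filter (fun p => 0 < cr (c' - q) (p - q))).card = 0 := by
        rw [Finset.card_eq_zero, Finset.filter_eq_empty_iff]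
        intro p hp
        exact not_lt.mpr (hLs p hp).le
      omega)
    (by
      have h1 : A.filter (fun p => cr (c - c') (p - c') < 0) =
          A.filter (fun p => 0 < cr (c' - c) (p - c)) := by
        apply Finset.filter_congr
        intro p _
        rw [e1, neg_lt_zero]
      have h2 : L.filter (fun p => cr (c - c') (p - c') < 0) =
          L.filter (fun p => 0 < cr (c' - c) (p - c)) := by
        apply Finset.filter_congr
        intro p _
        rw [e1, neg_lt_zero]
      rw [h1, h2]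
      omega)
  exact ⟨w, hw1, hw2, hw3, by omega⟩

/-- The last separator, through c, in the form used by the window lemma. -/
theorem gm_final {q c c' : ℝ × ℝ} {A L : Finset (ℝ × ℝ)}
    (hA : ∀ p ∈ A, 0 < cr (c - q) (p - q)) (hL : ∀ p ∈ L, cr (c - q) (p - q) < 0)
    (hc' : 0 < cr (c - q) (c' - q)) (hcA : c' ∉ A)
    (hgp : ∀ p ∈ insert c' (A ∪ L), ∀ s ∈ insert c' (A ∪ L), p ≠ s → cr (p - c) (s - c) ≠ 0)
    (hcard : L.card + 1 ≤ A.card) (hnone : ∀ p ∈ A, ¬ 0 < cr (c' - c) (p - c)) :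
    ∃ w : ℝ × ℝ, dt w (q - c) < 0 ∧ dt w (c' - c) < 0 ∧
      (∀ x : ℝ × ℝ, 0 < cr (c - q) (x - q) → 0 < cr (c' - c) (x - c) → dt w (x - c) < 0) ∧
      (∀ p ∈ A ∪ L, dt w (p - c) ≠ 0) ∧
      (A.filter (fun p => dt w (p - c) < 0)).card =
        (L.filter (fun p => dt w (p - c) < 0)).card + 1 := by
  classical
  have hcL : c' ∉ L := fun h => absurd (hL c' h) (by linarith)
  have hcAL : ∀ p ∈ A ∪ L, c' ≠ p := by
    intro p hp h
    rw [← h] at hp
    rcases Finset.mem_union.mp hp with h1 | h1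
    · exact hcA h1
    · exact hcL h1
  have hmem : ∀ p ∈ A ∪ L, p ∈ insert c' (A ∪ L) := fun p hp => Finset.mem_insert_of_mem hp
  have hz : ∀ p ∈ A ∪ L, cr (c' - c) (p - c) ≠ 0 := fun p hp =>
    hgp c' (Finset.mem_insert_self _ _) p (hmem p hp) (hcAL p hp)
  have d0 : ∀ x, dt (-lf14 (c - q)) (x - c) = -cr (c - q) (x - q) := fun x => by
    rw [dt_neg14, dt_lf14, ← cr_base14]
  have d1 : ∀ x, dt (-lf14 (c' - c)) (x - c) = -cr (c' - c) (x - c) := fun x => by
    rw [dt_neg14, dt_lf14]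
  have hw01 : cr (-lf14 (c - q)) (-lf14 (c' - c)) = cr (c - q) (c' - q) := by
    simp only [cr, lf14, Prod.fst_neg, Prod.snd_neg, Prod.fst_sub, Prod.snd_sub]; ring
  have hfA0 : A.filter (fun p => dt (-lf14 (c - q)) (p - c) < 0) = A := by
    apply Finset.filter_true_of_mem
    intro p hp
    rw [d0]
    have := hA p hp
    linarith
  have hfL0 : L.filter (fun p => dt (-lf14 (c - q)) (p - c) < 0) = ∅ := by
    apply Finset.filter_false_of_mem
    intro p hp
    rw [d0]
    have := hL p hp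
    linarith
  have hfA1 : A.filter (fun p => dt (-lf14 (c' - c)) (p - c) < 0) = ∅ := by
    apply Finset.filter_false_of_mem
    intro p hp
    rw [d1]
    have := not_lt.mp (hnone p hp)
    linarith
  obtain ⟨al, be, hal, hbe, hne, hph⟩ := pencil_mid (e := c) (w0 := -lf14 (c - q))
    (w1 := -lf14 (c' - c)) (A := A) (L := L) (k := 1) (by rw [hw01]; exact hc'.ne')
    (fun p hp s hs hps => hgp p (hmem p hp) s (hmem s hs) hps)
    (by
      intro p hp
      rw [d0]
      rcases Finset.mem_union.mp hp with h | h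
      · exact neg_ne_zero.mpr (hA p h).ne'
      · exact neg_ne_zero.mpr (hL p h).ne)
    (by
      intro p hp
      rw [d1]
      exact neg_ne_zero.mpr (hz p hp))
    (by
      unfold ph14
      rw [hfA0, hfL0, Finset.card_empty]
      push_cast
      omega)
    (by
      unfold ph14
      rw [hfA1, Finset.card_empty]
      push_cast
      omega)
  have hcomb : ∀ x, dt (al • (-lf14 (c - q)) + be • (-lf14 (c' - c))) (x - c) =
      al * (-cr (c - q) (x - q)) + be * (-cr (c' - c) (x - c)) := by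
    intro x
    rw [← d0, ← d1]
    simp only [dt, Prod.fst_add, Prod.snd_add, Prod.smul_fst, Prod.smul_snd, smul_eq_mul]; ring
  refine ⟨al • (-lf14 (c - q)) + be • (-lf14 (c' - c)), ?_, ?_, ?_, ?_, ?_⟩
  · rw [hcomb]
    have z1 : cr (c - q) (q - q) = 0 := by
      simp only [cr, Prod.fst_sub, Prod.snd_sub]; ring
    have z2 : cr (c' - c) (q - c) = cr (c - q) (c' - q) := by
      simp only [cr, Prod.fst_sub, Prod.snd_sub]; ring
    rw [z1, z2]
    have := mul_pos hbe hc'
    linarith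
  · rw [hcomb]
    have z1 : cr (c' - c) (c' - c) = 0 := by
      simp only [cr, Prod.fst_sub, Prod.snd_sub]; ring
    rw [z1]
    have := mul_pos hal hc'
    linarith
  · intro x hx1 hx2
    rw [hcomb]
    have h1 := mul_pos hal hx1
    have h2 := mul_pos hbe hx2
    linarith
  · intro p hp
    have := hne p hp
    rw [d0, d1] at this
    rw [hcomb]
    exact this
  · unfold ph14 at hph
    omega

end Pool.Agent.AltALL
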