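import Pool.Agent.AltHP.Bridge

/-! Matched lines: unit steps of a signed count along a pencil of lines. -/

namespace Pool.Agent.AltALL

open Pool.Agent.AltPath Pool.Agent.AltHP

/-- The number of p in A with f p negative minus the number of p in B with f p negative. -/
noncomputable def pc14 {ι : Type*} (A B : Finset ι) (f : ι → ℝ) : ℤ :=
  ((A.filter (fun p => f p < 0)).card : ℤ) - ((B.filter (fun p => f p < 0)).card : ℤ)

theorem pc14_congr {ι : Type*} [DecidableEq ι] {A B : Finset ι} {f g : ι → ℝ}
    (h : ∀ p ∈ A ∪ B, (f p < 0 ↔ g p < 0)) : pc14 A B f = pc14 A B g := by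
  unfold pc14
  rw [Finset.filter_congr (fun p hp => h p (Finset.mem_union_left B hp)),
    Finset.filter_congr (fun p hp => h p (Finset.mem_union_right A hp))]

theorem pc14_step {ι : Type*} [DecidableEq ι] {A B : Finset ι} {f g : ι → ℝ} {p0 : ι}
    (h : ∀ p ∈ A ∪ B, p ≠ p0 → (f p < 0 ↔ g p < 0)) :
    pc14 A B f ≤ pc14 A B g + 1 := by
  classical
  obtain ⟨D, hD⟩ : ∃ D : ι → ℤ, ∀ p, D p = (if f p < 0 then (1 : ℤ) else 0) -
      (if g p < 0 then (1 : ℤ) else 0) := ⟨_, fun _ => rfl⟩
  have hcard : ∀ (S : Finset ι) (f : ι → ℝ), ((S.filter (fun p => f p < 0)).card : ℤ) =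
      ∑ p ∈ S, (if f p < 0 then (1 : ℤ) else 0) := by
    intro S f
    rw [Finset.card_filter]
    push_cast
    rfl
  have key : ∀ S : Finset ι, S ⊆ A ∪ B → ((S.filter (fun p => f p < 0)).card : ℤ) -
      ((S.filter (fun p => g p < 0)).card : ℤ) = if p0 ∈ S then D p0 else 0 := by
    intro S hS
    rw [hcard, hcard, ← Finset.sum_sub_distrib]
    rw [← Finset.sum_ite_eq' S p0 D]
    refine Finset.sum_congr rfl (fun p hp => ?_)
    by_cases hpp : p = p0
    · simp only [hpp, if_true, hD]
    · rw [if_neg hpp]
      have := h p (hS hp) hpp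
      by_cases h1 : f p < 0
      · rw [if_pos h1, if_pos (this.mp h1)]; ring
      · rw [if_neg h1, if_neg (fun h2 => h1 (this.mpr h2))]; ring
  have hDb : -1 ≤ D p0 ∧ D p0 ≤ 1 := by
    rw [hD]
    split_ifs <;> norm_num
  have kA := key A Finset.subset_union_left
  have kB := key B Finset.subset_union_right
  unfold pc14
  split_ifs at kA kB <;> omega

/-- Unit steps: between two members of a pencil with no coincidences every intermediate value of
the signed count is attained. -/
theorem pencil_ivt {ι : Type*} [DecidableEq ι] (A B : Finset ι) (k : ℤ) : ∀ (N : ℕ) (f g : ι → ℝ),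
    (∀ p ∈ A ∪ B, f p ≠ 0) → (∀ p ∈ A ∪ B, g p ≠ 0) →
    (∀ p ∈ A ∪ B, ∀ q ∈ A ∪ B, p ≠ q → f p * g q ≠ g p * f q) →
    ((A ∪ B).filter (fun p => f p * g p < 0)).card ≤ N → k ≤ pc14 A B f → pc14 A B g ≤ k →
    ∃ t : ℝ, 0 ≤ t ∧ t ≤ 1 ∧ (∀ p ∈ A ∪ B, (1 - t) * f p + t * g p ≠ 0) ∧
      pc14 A B (fun p => (1 - t) * f p + t * g p) = k := by
  classical
  intro N
  induction N with
  | zero =>
    intro f g hf hg _ hN h1 h2
    have he : pc14 A B f = pc14 A B g := by
      apply pc14_congr
      intro p hp
      have hp' : ¬ f p * g p < 0 := by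
        intro hlt
        have : p ∈ (A ∪ B).filter (fun p => f p * g p < 0) := Finset.mem_filter.mpr ⟨hp, hlt⟩
        have := Finset.card_pos.mpr ⟨p, this⟩
        omega
      push Not at hp'
      constructor
      · intro h
        by_contra hcon
        push Not at hcon
        have h3 : 0 < g p := lt_of_le_of_ne hcon (hg p hp).symm
        have := mul_neg_of_neg_of_pos h h3
        linarith
      · intro h
        by_contra hcon
        push Not at hcon
        have h3 : 0 < f p := lt_of_le_of_ne hcon (hf p hp).symm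
        have := mul_neg_of_pos_of_neg h3 h
        linarith
    refine ⟨0, le_rfl, zero_le_one, ?_, ?_⟩
    · intro p hp
      simpa using hf p hp
    · have : (fun p => (1 - (0 : ℝ)) * f p + 0 * g p) = f := by funext p; ring
      rw [this]
      omega
  | succ N ih =>
    intro f g hf hg hne hN h1 h2
    have same : ∀ p ∈ A ∪ B, ¬ f p * g p < 0 → (f p < 0 ↔ g p < 0) := by
      intro p hp hp'
      push Not at hp'
      constructor
      · intro h
        by_contra hcon
        push Not at hcon
        have h3 : 0 < g p := lt_of_le_of_ne hcon (hg p hp).symm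
        have := mul_neg_of_neg_of_pos h h3
        linarith
      · intro h
        by_contra hcon
        push Not at hcon
        have h3 : 0 < f p := lt_of_le_of_ne hcon (hf p hp).symm
        have := mul_neg_of_pos_of_neg h3 h
        linarith
    have end0 : pc14 A B f = k → ∃ t : ℝ, 0 ≤ t ∧ t ≤ 1 ∧
        (∀ p ∈ A ∪ B, (1 - t) * f p + t * g p ≠ 0) ∧
        pc14 A B (fun p => (1 - t) * f p + t * g p) = k := by
      intro h
      refine ⟨0, le_rfl, zero_le_one, ?_, ?_⟩
      · intro p hp
        simpa using hf p hp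
      · have : (fun p => (1 - (0 : ℝ)) * f p + 0 * g p) = f := by funext p; ring
        rw [this]
        exact h
    have end1 : pc14 A B g = k → ∃ t : ℝ, 0 ≤ t ∧ t ≤ 1 ∧
        (∀ p ∈ A ∪ B, (1 - t) * f p + t * g p ≠ 0) ∧
        pc14 A B (fun p => (1 - t) * f p + t * g p) = k := by
      intro h
      refine ⟨1, zero_le_one, le_rfl, ?_, ?_⟩
      · intro p hp
        simpa using hg p hp
      · have : (fun p => (1 - (1 : ℝ)) * f p + 1 * g p) = g := by funext p; ring
        rw [this]
        exact h
    rcases Nat.lt_or_ge 1 ((A ∪ B).filter (fun p => f p * g p < 0)).card with hc | hc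
    · -- two sign changes
      obtain ⟨p, hp, q, hq, hpq⟩ := Finset.one_lt_card.mp hc
      obtain ⟨hpS, hpn⟩ := Finset.mem_filter.mp hp
      obtain ⟨hqS, hqn⟩ := Finset.mem_filter.mp hq
      -- the roots
      obtain ⟨τ, hτ⟩ : ∃ τ : ι → ℝ, ∀ r, τ r = f r / (f r - g r) := ⟨_, fun _ => rfl⟩
      have hsub : ∀ r, f r * g r < 0 → f r - g r ≠ 0 := by
        intro r hr h0
        have : f r = g r := by linarith
        rw [this] at hr
        nlinarith [mul_self_nonneg (g r)]
      have hroot : ∀ r, f r * g r < 0 → (1 - τ r) * f r + τ r * g r = 0 := by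
        intro r hr
        rw [hτ]
        have := hsub r hr
        field_simp
        ring
      have hval : ∀ r, f r * g r < 0 → ∀ t, (1 - t) * f r + t * g r = (τ r - t) * (f r - g r) := by
        intro r hr t
        have := hroot r hr
        linear_combination this
      have hτ01 : ∀ r, f r * g r < 0 → 0 < τ r ∧ τ r < 1 := by
        intro r hr
        rw [hτ]
        rcases lt_or_ge (f r) 0 with h | h
        · have hgp : 0 < g r := by
            by_contra hcon
            push Not at hcon
            have := mul_nonneg_of_nonpos_of_nonpos h.le hcon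
            linarith
          have h3 : f r - g r < 0 := by linarith
          constructor
          · exact div_pos_of_neg_of_neg h h3
          · rw [div_lt_one_of_neg h3]; linarith
        · have hgn : g r < 0 := by
            by_contra hcon
            push Not at hcon
            have := mul_nonneg h hcon
            linarith
          have hfp : 0 < f r := by
            rcases lt_or_eq_of_le h with h' | h'
            · exact h'
            · rw [← h'] at hr; simp at hr
          have h3 : 0 < f r - g r := by linarith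
          constructor
          · exact div_pos hfp h3
          · rw [div_lt_one h3]; linarith
      have hττ : ∀ a ∈ A ∪ B, ∀ b ∈ A ∪ B, f a * g a < 0 → f b * g b < 0 → a ≠ b → τ a ≠ τ b := by
        intro a ha b hb han hbn hab he
        apply hne a ha b hb hab
        have e1 := hroot a han
        have e2 := hroot b hbn
        rw [← he] at e2
        have h3 := (hτ01 a han).1
        -- (1-t) f a = - t g a ; (1-t) f b = - t g b
        have e3 : τ a * (f a * g b - g a * f b) = 0 := by
          linear_combination (-(f b)) * e1 + (f a) * e2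
        have := (mul_eq_zero.mp e3).resolve_left h3.ne'
        linarith
      -- a member of the pencil strictly between two roots
      have mid : ∀ a ∈ A ∪ B, ∀ b ∈ A ∪ B, f a * g a < 0 → f b * g b < 0 → τ a < τ b →
          ∃ t : ℝ, 0 ≤ t ∧ t ≤ 1 ∧ (∀ p ∈ A ∪ B, (1 - t) * f p + t * g p ≠ 0) ∧
            pc14 A B (fun p => (1 - t) * f p + t * g p) = k := by
        intro a ha b hb han hbn hlt
        obtain ⟨m, hm, hmF⟩ := (Set.Ioo_infinite hlt).exists_notMem_finset
          ((A ∪ B).image (fun r => f r / (f r - g r)))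
        obtain ⟨hm1, hm2⟩ := hm
        have hm0 : 0 < m := lt_trans (hτ01 a han).1 hm1
        have hm1' : m < 1 := lt_trans hm2 (hτ01 b hbn).2
        obtain ⟨w, hw⟩ : ∃ w : ι → ℝ, ∀ r, w r = (1 - m) * f r + m * g r := ⟨_, fun _ => rfl⟩
        have hw0 : ∀ r ∈ A ∪ B, w r ≠ 0 := by
          intro r hr h0
          apply hmF
          rw [Finset.mem_image]
          refine ⟨r, hr, ?_⟩
          rw [hw] at h0
          have hfg : f r - g r ≠ 0 := by
            intro h3
            apply hf r hr
            have : g r = f r := by linarith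
            rw [this] at h0
            linarith
          rw [div_eq_iff hfg]
          linarith
        have hcr0 : ∀ a ∈ A ∪ B, ∀ b ∈ A ∪ B, a ≠ b → f a * w b ≠ w a * f b := by
          intro a ha b hb hab h0
          apply hne a ha b hb hab
          rw [hw, hw] at h0
          have : m * (f a * g b - g a * f b) = 0 := by linear_combination h0
          have := (mul_eq_zero.mp this).resolve_left hm0.ne'
          linarith
        have hcr1 : ∀ a ∈ A ∪ B, ∀ b ∈ A ∪ B, a ≠ b → w a * g b ≠ g a * w b := by
          intro a ha b hb hab h0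
          apply hne a ha b hb hab
          rw [hw, hw] at h0
          have : (1 - m) * (f a * g b - g a * f b) = 0 := by linear_combination h0
          have := (mul_eq_zero.mp this).resolve_left (by linarith)
          linarith
        -- sign changes of the halves are sign changes of the whole
        have sub0 : (A ∪ B).filter (fun p => f p * w p < 0) ⊆
            ((A ∪ B).filter (fun p => f p * g p < 0)).erase b := by
          intro r hr
          obtain ⟨hrS, hrn⟩ := Finset.mem_filter.mp hr
          rw [hw] at hrn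
          have h3 : f r * g r < 0 := by
            by_contra hcon
            push Not at hcon
            have : f r * ((1 - m) * f r + m * g r) = (1 - m) * (f r * f r) + m * (f r * g r) := by ring
            rw [this] at hrn
            have := mul_nonneg (sub_nonneg.mpr hm1'.le) (mul_self_nonneg (f r))
            have := mul_nonneg hm0.le hcon
            linarith
          refine Finset.mem_erase.mpr ⟨?_, Finset.mem_filter.mpr ⟨hrS, h3⟩⟩
          rintro rfl
          rw [hval r h3 m] at hrn
          have h4 := hval r h3 0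
          simp only [sub_zero, one_mul, zero_mul, add_zero] at h4
          have h5 : 0 < τ r * (τ r - m) := mul_pos (hτ01 r h3).1 (sub_pos.mpr hm2)
          have h6 := mul_self_nonneg (f r - g r)
          have h7 : f r * ((τ r - m) * (f r - g r)) =
            (τ r * (τ r - m)) * ((f r - g r) * (f r - g r)) := by
            linear_combination ((τ r - m) * (f r - g r)) * h4
          rw [h7] at hrn
          have := mul_nonneg h5.le h6
          linarith
        have sub1 : (A ∪ B).filter (fun p => w p * g p < 0) ⊆
            ((A ∪ B).filter (fun p => f p * g p < 0)).erase a := by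
          intro r hr
          obtain ⟨hrS, hrn⟩ := Finset.mem_filter.mp hr
          rw [hw] at hrn
          have h3 : f r * g r < 0 := by
            by_contra hcon
            push Not at hcon
            have : ((1 - m) * f r + m * g r) * g r = (1 - m) * (f r * g r) + m * (g r * g r) := by ring
            rw [this] at hrn
            have := mul_nonneg (sub_nonneg.mpr hm1'.le) hcon
            have := mul_nonneg hm0.le (mul_self_nonneg (g r))
            linarith
          refine Finset.mem_erase.mpr ⟨?_, Finset.mem_filter.mpr ⟨hrS, h3⟩⟩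
          rintro rfl
          rw [hval r h3 m] at hrn
          have h4 := hval r h3 1
          simp only [sub_self, zero_mul, one_mul, zero_add] at h4
          have h5 : 0 < (m - τ r) * (1 - τ r) := mul_pos (sub_pos.mpr hm1) (sub_pos.mpr (hτ01 r h3).2)
          have h6 := mul_self_nonneg (f r - g r)
          have h7 : (τ r - m) * (f r - g r) * g r =
            ((m - τ r) * (1 - τ r)) * ((f r - g r) * (f r - g r)) := by
            linear_combination ((τ r - m) * (f r - g r)) * h4
          rw [h7] at hrn
          have := mul_nonneg h5.le h6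
          linarith
        have hbm : b ∈ (A ∪ B).filter (fun p => f p * g p < 0) := Finset.mem_filter.mpr ⟨hb, hbn⟩
        have ham : a ∈ (A ∪ B).filter (fun p => f p * g p < 0) := Finset.mem_filter.mpr ⟨ha, han⟩
        have c0 := Finset.card_le_card sub0
        have c1 := Finset.card_le_card sub1
        rw [Finset.card_erase_of_mem hbm] at c0
        rw [Finset.card_erase_of_mem ham] at c1
        rcases le_or_gt (pc14 A B w) k with hk | hk
        · obtain ⟨t, ht0, ht1, ht2, ht3⟩ := ih f w hf hw0 hcr0 (by omega) h1 hk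
          have e : ∀ p, (1 - t) * f p + t * w p = (1 - t * m) * f p + (t * m) * g p := by
            intro p; rw [hw]; ring
          refine ⟨t * m, mul_nonneg ht0 hm0.le, ?_, ?_, ?_⟩
          · have := mul_le_mul ht1 hm1'.le hm0.le zero_le_one
            linarith
          · intro p hp
            rw [← e]; exact ht2 p hp
          · rw [← ht3]
            congr 1
            funext p
            exact (e p).symm
        · obtain ⟨t, ht0, ht1, ht2, ht3⟩ := ih w g hw0 hg hcr1 (by omega) hk.le h2
          have e : ∀ p, (1 - t) * w p + t * g p =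
              (1 - ((1 - t) * m + t)) * f p + ((1 - t) * m + t) * g p := by
            intro p; rw [hw]; ring
          refine ⟨(1 - t) * m + t, ?_, ?_, ?_, ?_⟩
          · have := mul_nonneg (sub_nonneg.mpr ht1) hm0.le
            linarith
          · have := mul_nonneg (sub_nonneg.mpr ht1) (sub_nonneg.mpr hm1'.le)
            nlinarith
          · intro p hp
            rw [← e]; exact ht2 p hp
          · rw [← ht3]
            congr 1
            funext p
            exact (e p).symm
      rcases lt_or_gt_of_ne (hττ p hpS q hqS hpn hqn hpq) with h | h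
      · exact mid p hpS q hqS hpn hqn h
      · exact mid q hqS p hpS hqn hpn h
    · -- at most one sign change
      rcases Finset.eq_empty_or_nonempty ((A ∪ B).filter (fun p => f p * g p < 0)) with he | hne'
      · have : pc14 A B f = pc14 A B g := by
          apply pc14_congr
          intro p hp
          apply same p hp
          intro hlt
          have : p ∈ (A ∪ B).filter (fun p => f p * g p < 0) := Finset.mem_filter.mpr ⟨hp, hlt⟩
          rw [he] at this
          exact absurd this (Finset.notMem_empty p)
        exact end0 (by omega)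
      · obtain ⟨p0, hp0⟩ := Finset.card_eq_one.mp (le_antisymm hc (Finset.card_pos.mpr hne'))
        have hst : pc14 A B f ≤ pc14 A B g + 1 := by
          apply pc14_step (p0 := p0)
          intro p hp hpp
          apply same p hp
          intro hlt
          have : p ∈ (A ∪ B).filter (fun p => f p * g p < 0) := Finset.mem_filter.mpr ⟨hp, hlt⟩
          rw [hp0] at this
          exact hpp (Finset.mem_singleton.mp this)
        rcases eq_or_ne (pc14 A B f) k with h | h
        · exact end0 h
        · exact end1 (by omega)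

theorem dt_comb (w0 w1 x : ℝ × ℝ) (t : ℝ) :
    dt ((1 - t) • w0 + t • w1) x = (1 - t) * dt w0 x + t * dt w1 x := by
  simp only [dt, Prod.fst_add, Prod.snd_add, Prod.smul_fst, Prod.smul_snd, smul_eq_mul]; ring

/-- A signed count of the points strictly on the negative side of the line through c with
functional w. -/
noncomputable def ph14 (c : ℝ × ℝ) (A B : Finset (ℝ × ℝ)) (w : ℝ × ℝ) : ℤ :=
  ((A.filter (fun p => dt w (p - c) < 0)).card : ℤ) -
    ((B.filter (fun p => dt w (p - c) < 0)).card : ℤ)

/-- Lines through c, no two points of A or B on one of them. -/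
theorem ivt14 {c w0 w1 : ℝ × ℝ} {A B : Finset (ℝ × ℝ)}
    (hgp : ∀ p ∈ A ∪ B, ∀ q ∈ A ∪ B, p ≠ q → cr (p - c) (q - c) ≠ 0)
    (h0 : ∀ p ∈ A ∪ B, dt w0 (p - c) ≠ 0) (h1 : ∀ p ∈ A ∪ B, dt w1 (p - c) ≠ 0)
    (hcr : cr w0 w1 ≠ 0) {k : ℤ} (hk0 : k ≤ ph14 c A B w0) (hk1 : ph14 c A B w1 ≤ k) :
    ∃ t : ℝ, 0 ≤ t ∧ t ≤ 1 ∧ (∀ p ∈ A ∪ B, dt ((1 - t) • w0 + t • w1) (p - c) ≠ 0) ∧
      ph14 c A B ((1 - t) • w0 + t • w1) = k := by
  classical
  obtain ⟨t, ht0, ht1, ht2, ht3⟩ := pencil_ivt A B k _ (fun p => dt w0 (p - c))
    (fun p => dt w1 (p - c)) h0 h1 (by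
      intro p hp q hq hpq h
      have e : dt w0 (p - c) * dt w1 (q - c) - dt w1 (p - c) * dt w0 (q - c) =
        cr w0 w1 * cr (p - c) (q - c) := by
        simp only [dt, cr]; ring
      have h3 : cr w0 w1 * cr (p - c) (q - c) = 0 := by rw [← e]; linarith
      rcases mul_eq_zero.mp h3 with h4 | h4
      · exact hcr h4
      · exact hgp p hp q hq hpq h4) le_rfl hk0 hk1
  refine ⟨t, ht0, ht1, ?_, ?_⟩
  · intro p hp
    rw [dt_comb]; exact ht2 p hp
  · rw [← ht3]
    unfold ph14 pc14
    simp only [dt_comb]

/-- The same with the opposite order of the values. -/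
theorem ivt14' {c w0 w1 : ℝ × ℝ} {A B : Finset (ℝ × ℝ)}
    (hgp : ∀ p ∈ A ∪ B, ∀ q ∈ A ∪ B, p ≠ q → cr (p - c) (q - c) ≠ 0)
    (h0 : ∀ p ∈ A ∪ B, dt w0 (p - c) ≠ 0) (h1 : ∀ p ∈ A ∪ B, dt w1 (p - c) ≠ 0)
    (hcr : cr w0 w1 ≠ 0) {k : ℤ} (hk0 : ph14 c A B w0 ≤ k) (hk1 : k ≤ ph14 c A B w1) :
    ∃ t : ℝ, 0 ≤ t ∧ t ≤ 1 ∧ (∀ p ∈ A ∪ B, dt ((1 - t) • w0 + t • w1) (p - c) ≠ 0) ∧
      ph14 c A B ((1 - t) • w0 + t • w1) = k := by
  have hcr' : cr w1 w0 ≠ 0 := by
    intro h; apply hcr
    simp only [cr] at h ⊢
    linarith
  obtain ⟨t, ht0, ht1, ht2, ht3⟩ := ivt14 hgp h1 h0 hcr' hk1 hk0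
  have e : (1 - (1 - t)) • w0 + (1 - t) • w1 = (1 - t) • w1 + t • w0 := by
    rw [sub_sub_cancel, add_comm]
  refine ⟨1 - t, by linarith, by linarith, ?_, ?_⟩
  · rw [e]; exact ht2
  · rw [e]; exact ht3

/-- A small turn of the first line does not change any strict side. -/
theorem small_turn {c w0 w1 : ℝ × ℝ} {F : Finset (ℝ × ℝ)} (h0 : ∀ p ∈ F, dt w0 (p - c) ≠ 0) :
    ∃ e : ℝ, 0 < e ∧ e < 1 ∧ ∀ p ∈ F, ∀ t : ℝ, 0 ≤ t → t ≤ e →
      (dt ((1 - t) • w0 + t • w1) (p - c) ≠ 0 ∧
        (dt ((1 - t) • w0 + t • w1) (p - c) < 0 ↔ dt w0 (p - c) < 0)) := by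
  classical
  induction F using Finset.induction_on with
  | empty => exact ⟨1 / 2, by norm_num, by norm_num, fun p hp => absurd hp (Finset.notMem_empty p)⟩
  | insert q F hq ih =>
    obtain ⟨e, he, he1, hF⟩ := ih (fun p hp => h0 p (Finset.mem_insert_of_mem hp))
    have hq0 := h0 q (Finset.mem_insert_self q F)
    obtain ⟨x, hx⟩ : ∃ x, x = dt w0 (q - c) := ⟨_, rfl⟩
    obtain ⟨y, hy⟩ : ∃ y, y = dt w1 (q - c) := ⟨_, rfl⟩
    have hx0 : 0 < |x| := by rw [hx]; exact abs_pos.mpr hq0
    have hd : 0 < |x| + |y| + 1 := by positivity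
    refine ⟨min e (|x| / (2 * (|x| + |y| + 1))), lt_min he (by positivity), lt_of_le_of_lt (min_le_left _ _) he1, ?_⟩
    intro p hp t ht0 ht1
    rcases Finset.mem_insert.mp hp with rfl | hp
    · rw [dt_comb, ← hx, ← hy]
      have h3 : t ≤ |x| / (2 * (|x| + |y| + 1)) := ht1.trans (min_le_right _ _)
      rw [le_div_iff₀ (by positivity)] at h3
      have h4 : t * |x| + t * |y| ≤ |x| / 2 := by nlinarith
      have h5 : 0 ≤ t * |x| := mul_nonneg ht0 (abs_nonneg x)
      have h6 : 0 ≤ t * |y| := mul_nonneg ht0 (abs_nonneg y)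
      have h7 : -(t * |y|) ≤ t * y := by nlinarith [neg_abs_le y]
      have h8 : t * y ≤ t * |y| := by nlinarith [le_abs_self y]
      rcases lt_or_ge x 0 with h | h
      · have hax : |x| = -x := abs_of_neg h
        rw [hax] at h4 hx0
        have h9 : (1 - t) * x + t * y < 0 := by nlinarith
        exact ⟨h9.ne, fun _ => h, fun _ => h9⟩
      · have hax : |x| = x := abs_of_nonneg h
        rw [hax] at h4 hx0
        have h9 : 0 < (1 - t) * x + t * y := by nlinarith
        exact ⟨h9.ne', fun h' => absurd h' (not_lt.mpr h9.le), fun h' => absurd h' (not_lt.mpr h)⟩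
    · exact hF p hp t ht0 (ht1.trans (min_le_left _ _))

end Pool.Agent.AltALL
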