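import Pool.Agent.AltALL.Loc6b
import Pool.Agent.AltALL.Gm14

/-! The window lemma, part three: the recursion over the cells. -/

set_option autoImplicit false

namespace Pool.Agent.AltALL6

open Pool.Agent.AltPath Pool.Agent.AltHP Pool.Agent.AltALL Pool.Agent.AltAll Pool.Agent.AltAll12

/-- The red points above l and right of T. -/
noncomputable def At6 (R : Finset (ℝ × ℝ)) (v : ℕ) (z : ℕ → ℝ × ℝ) (i : ℕ) (tau : ℝ × ℝ) :
    Finset (ℝ × ℝ) :=
  R.filter (fun p => 0 < cr (z v - z i) (p - z i) ∧ 0 < dt tau (p - z i))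

/-- The separators w 1, .., w m with matched cells. -/
structure Inv6 (A L : Finset (ℝ × ℝ)) (q e : ℝ × ℝ) (c w : ℕ → ℝ × ℝ) (m : ℕ) : Prop where
  sq : ∀ j, 1 ≤ j → j ≤ m → dt (w j) (q - c j) < 0
  se : ∀ j, 1 ≤ j → j ≤ m → 0 < dt (w j) (e - c j)
  off : ∀ j < m, ∀ p ∈ VV A c w j ∪ VV L c w j, dt (w (j + 1)) (p - c (j + 1)) ≠ 0
  cnt : ∀ j < m, (CL A c w j).card = (CL L c w j).card + 1

/-- One more separator. -/
theorem step6 {R B : Finset (ℝ × ℝ)} {D M k v : ℕ} {z : ℕ → ℝ × ℝ} {i : ℕ} {tau : ℝ × ℝ}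
    (hgp : GP (R ∪ B)) (hdis : Disjoint R B) (hWB : WB30 R B D) (hC : Chain30 R B v z)
    (hk : D + 4 ≤ k) (hiv : i + M * k ≤ v) (hT : Tl30 R B v z M i tau) {w : ℕ → ℝ × ℝ}
    (hw0 : w 0 = tau) {m : ℕ} (hm : m + 1 < M)
    (hI : Inv6 (At6 R v z i tau) (Bl30 B v z i tau) (z i) (z v) (fun j => z (i + j * k)) w m)
    (hdw : (dw30 R B v z ((M - 1) * k) i).card ≤
      (VV (Bl30 B v z i tau) (fun j => z (i + j * k)) w m).card) :
    ∃ w' : ℕ → ℝ × ℝ, w' 0 = tau ∧
      Inv6 (At6 R v z i tau) (Bl30 B v z i tau) (z i) (z v) (fun j => z (i + j * k)) w' (m + 1) := by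
  classical
  set c : ℕ → ℝ × ℝ := fun j => z (i + j * k) with hc
  have hMk : (M - 1) * k + k = M * k := by
    obtain ⟨M', rfl⟩ : ∃ M', M = M' + 1 := ⟨M - 1, by omega⟩
    rw [Nat.add_sub_cancel]; ring
  have hmk : m * k + k ≤ (M - 1) * k := by
    have : (m + 1) * k ≤ (M - 1) * k := Nat.mul_le_mul_right _ (by omega)
    have e : (m + 1) * k = m * k + k := by ring
    omega
  have hb : i + (m + 1) * k = i + m * k + k := by ring
  have hbv : i + (m + 1) * k < v := by rw [hb]; omega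
  have hib : i < i + (m + 1) * k := by rw [hb]; omega
  have hq : z i ∈ R ∪ B := Finset.mem_union_right _ (hC.mem i (by omega))
  have hzv : z v ∈ R ∪ B := Finset.mem_union_right _ (hC.mem v le_rfl)
  have hc' : z (i + (m + 1) * k) ∈ B := hC.mem _ (by omega)
  have hc'P : z (i + (m + 1) * k) ∈ R ∪ B := Finset.mem_union_right _ hc'
  have hup : 0 < cr (z v - z i) (z (i + (m + 1) * k) - z i) := by
    rw [cr_anti6]
    have := hC.cw i _ v hib hbv le_rfl
    linarith
  have hAR : VV (At6 R v z i tau) c w m ⊆ R :=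
    (VV_sub m).trans (Finset.filter_subset _ _)
  have hLB : VV (Bl30 B v z i tau) c w m ⊆ B :=
    (VV_sub m).trans (Finset.filter_subset _ _)
  have hA1 : ∀ p ∈ VV (At6 R v z i tau) c w m, 0 < cr (z v - z i) (p - z i) :=
    fun p hp => (Finset.mem_filter.1 (VV_sub m hp)).2.1
  have hL1 : ∀ p ∈ VV (Bl30 B v z i tau) c w m, cr (z v - z i) (p - z i) < 0 :=
    fun p hp => (Finset.mem_filter.1 (VV_sub m hp)).2.1
  have hL2 : ∀ p ∈ VV (Bl30 B v z i tau) c w m, 0 < dt tau (p - z i) :=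
    fun p hp => (Finset.mem_filter.1 (VV_sub m hp)).2.2
  have tp : ∀ x, i < x → x ≤ v → 0 < dt tau (z x - z i) :=
    fun x h1 h2 => tau_pos hC hT.next hT.last h1 h2
  obtain ⟨wn, n1, n2, n3, n4⟩ := gm_cell (q := z i) (c := z v) (c' := z (i + (m + 1) * k))
    (A := VV (At6 R v z i tau) c w m) (L := VV (Bl30 B v z i tau) c w m) hA1 hL1 hup
    (by
      have hne : ∀ p ∈ insert (z i) (insert (z v) (VV (At6 R v z i tau) c w m ∪
          VV (Bl30 B v z i tau) c w m)), p ∈ R ∪ B ∧ p ≠ z (i + (m + 1) * k) := by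
        intro p hp
        rcases Finset.mem_insert.1 hp with rfl | hp
        · exact ⟨hq, hC.inj i _ hib (by omega)⟩
        rcases Finset.mem_insert.1 hp with rfl | hp
        · exact ⟨hzv, (hC.inj _ v hbv le_rfl).symm⟩
        rcases Finset.mem_union.1 hp with hp | hp
        · refine ⟨Finset.mem_union_left _ (hAR hp), ?_⟩
          rintro rfl
          exact Finset.disjoint_left.1 hdis (hAR hp) hc'
        · refine ⟨Finset.mem_union_right _ (hLB hp), ?_⟩
          rintro rfl
          have := hL1 _ hp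
          linarith
      intro p hp s hs hps
      obtain ⟨p1, p2⟩ := hne p hp
      obtain ⟨s1, s2⟩ := hne s hs
      exact hgp _ hc'P p p1 s s1 p2.symm s2.symm hps)
    (by
      obtain ⟨r, hr, r1, r2⟩ := sector_red (i := i) (a := i + m * k) (b := i + (m + 1) * k) hC
        (hWB (z i) hq) (by omega) (by omega) (by omega)
      have ha1 : i + m * k + 1 ≤ v := by omega
      refine ⟨r, (mem_VV m).2 ⟨Finset.mem_filter.2 ⟨hr, ?_, ?_⟩, ?_⟩, r2⟩
      · rw [cr_dt]
        refine sector_pos hC (by omega : i ≤ i + m * k) (by omega) (by omega) r1 r2 ?_ ?_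
        · rw [← cr_dt, cr_anti6]
          have := hC.cw i (i + m * k + 1) v (by omega) (by omega) le_rfl
          linarith
        · rw [← cr_dt]; exact hup
      · exact sector_pos hC (by omega : i ≤ i + m * k) (by omega) (by omega) r1 r2
          (tp _ (by omega) (by omega)) (tp _ hib (by omega))
      · intro j hj
        rcases Nat.eq_zero_or_pos j with rfl | hj0
        · rw [hw0]
          have e0 : c 0 = z i := by rw [hc]; simp
          rw [e0]
          exact sector_pos hC (by omega : i ≤ i + m * k) (by omega) (by omega) r1 r2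
            (tp _ (by omega) (by omega)) (tp _ hib (by omega))
        · have hjk : j * k ≤ m * k := Nat.mul_le_mul_right _ hj
          have hjk1 : 1 * k ≤ j * k := Nat.mul_le_mul_right _ hj0
          exact sector_sep hC (by omega : i < i + j * k) (by omega : i + j * k ≤ i + m * k)
            (by omega) hbv hr r1 r2 (hI.sq j hj0 hj) (hI.se j hj0 hj))
    (fun p hp => start_low hC hib hbv (tp _ hib (by omega)) (tp _ (by omega) le_rfl)
      (hL1 p hp) (hL2 p hp))
    (end_count hgp hC hib (by omega) (by omega) (hAR.trans Finset.subset_union_left)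
      (hLB.trans Finset.subset_union_right) hA1 hL1 hdw)
  -- the new sequence
  have hup' : ∀ j ≤ m, w j = Function.update w (m + 1) wn j := by
    intro j hj
    rw [Function.update_of_ne (by omega)]
  refine ⟨Function.update w (m + 1) wn, by rw [← hup' 0 (by omega)]; exact hw0, ?_, ?_, ?_, ?_⟩
  · intro j hj1 hj
    rcases Nat.lt_or_ge j (m + 1) with h | h
    · rw [← hup' j (by omega)]; exact hI.sq j hj1 (by omega)
    · obtain rfl : j = m + 1 := by omega
      rw [Function.update_self]; exact n1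
  · intro j hj1 hj
    rcases Nat.lt_or_ge j (m + 1) with h | h
    · rw [← hup' j (by omega)]; exact hI.se j hj1 (by omega)
    · obtain rfl : j = m + 1 := by omega
      rw [Function.update_self]; exact n2
  · intro j hj p hp
    rcases Nat.lt_or_ge j m with h | h
    · rw [← VV_congr (fun a ha => hup' a (by omega)),
        ← VV_congr (fun a ha => hup' a (by omega))] at hp
      rw [← hup' (j + 1) (by omega)]
      exact hI.off j h p hp
    · obtain rfl : j = m := by omega
      rw [← VV_congr (fun a ha => hup' a (by omega)),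
        ← VV_congr (fun a ha => hup' a (by omega))] at hp
      rw [Function.update_self]
      exact n3 p hp
  · intro j hj
    rcases Nat.lt_or_ge j m with h | h
    · rw [← CL_congr (fun a ha => hup' a (by omega)), ← CL_congr (fun a ha => hup' a (by omega))]
      exact hI.cnt j h
    · obtain rfl : j = m := by omega
      rw [CL, CL, ← VV_congr (fun a ha => hup' a (by omega)),
        ← VV_congr (fun a ha => hup' a (by omega)), Function.update_self]
      exact n4

/-- Lemma X in the cells. -/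
theorem cellX6 {R B : Finset (ℝ × ℝ)} {M k v : ℕ} {z : ℕ → ℝ × ℝ} {i : ℕ} {tau : ℝ × ℝ}
    (hC : Chain30 R B v z) (hk : 1 ≤ k) (hT : Tl30 R B v z M i tau) {w : ℕ → ℝ × ℝ}
    (hw0 : w 0 = tau) {m : ℕ} (hmv : i + m * k < v)
    (hI : Inv6 (At6 R v z i tau) (Bl30 B v z i tau) (z i) (z v) (fun j => z (i + j * k)) w m)
    {j : ℕ} (hj : j < m) {a b : ℝ × ℝ}
    (ha : a ∈ CL (At6 R v z i tau) (fun j => z (i + j * k)) w j)
    (hb : b ∈ CL (Bl30 B v z i tau) (fun j => z (i + j * k)) w j) :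
    0 < cr (a - b) (z (i + j * k) - b) ∧ cr (a - b) (z (i + (j + 1) * k) - b) < 0 := by
  obtain ⟨ha1, ha2, ha3⟩ := mem_CL.1 ha
  obtain ⟨hb1, hb2, hb3⟩ := mem_CL.1 hb
  obtain ⟨haR, haup, haT⟩ := Finset.mem_filter.1 ha1
  obtain ⟨hbB, hblow, hbT⟩ := Finset.mem_filter.1 hb1
  have hjm : (j + 1) * k ≤ m * k := Nat.mul_le_mul_right _ hj
  have hj1 : (j + 1) * k = j * k + k := by ring
  have hq'' : dt (w (j + 1)) (z i - z (i + (j + 1) * k)) < 0 := hI.sq (j + 1) (by omega) (by omega)
  have hc'' : 0 < dt (w (j + 1)) (z v - z (i + (j + 1) * k)) := hI.se (j + 1) (by omega) (by omega)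
  have hib : i < i + (j + 1) * k := by omega
  have hbv : i + (j + 1) * k < v := by omega
  have up : ∀ x, i < x → x < v → 0 < cr (z v - z i) (z x - z i) := by
    intro x h1 h2
    rw [cr_anti6]
    have := hC.cw i x v h1 h2 le_rfl
    linarith
  have out : ∀ x, i < x → x < v → ¬ (0 < cr (z v - z i) (a - z i) ∧
      0 < cr (z x - z v) (a - z v) ∧ 0 < cr (z i - z x) (a - z x)) := by
    rintro x h1 h2 ⟨t1, t2, t3⟩
    refine hC.free i x v (by omega) (by omega) le_rfl a haR ⟨?_, ?_, ?_⟩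
    · rw [neg6] at t3; linarith
    · rw [neg6] at t2; linarith
    · rw [neg6]; linarith
  rcases Nat.eq_zero_or_pos j with rfl | hj0
  · have e0 : z (i + 0 * k) = z i := by simp
    rw [e0]
    have h2 : 0 < dt (w 0) (z v - z i) := by rw [hw0]; exact hT.last
    have a0 : 0 < dt (w 0) (a - z i) := by rw [hw0]; exact haT
    have b0 : 0 < dt (w 0) (b - z i) := by rw [hw0]; exact hbT
    have q0 : dt (w 0) (z i - z i) ≤ 0 := by rw [dt_self_sub]
    exact ⟨lemX_first haup hblow h2 a0 b0,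
      lemX_right (up _ hib hbv) haup hblow q0 h2 a0 b0 hq'' hc''.le ha3 hb3 (out _ hib hbv)⟩
  · have hjk1 : 1 * k ≤ j * k := Nat.mul_le_mul_right _ hj0
    have h1 : dt (w j) (z i - z (i + j * k)) < 0 := hI.sq j hj0 (by omega)
    have h2 : 0 < dt (w j) (z v - z (i + j * k)) := hI.se j hj0 (by omega)
    exact ⟨lemX_left (up _ (by omega) (by omega)) haup hblow h1.le h2 (ha2 j le_rfl)
        (hb2 j le_rfl) hq'' hc''.le ha3 hb3 (out _ (by omega) (by omega)),
      lemX_right (up _ hib hbv) haup hblow h1.le h2 (ha2 j le_rfl)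
        (hb2 j le_rfl) hq'' hc''.le ha3 hb3 (out _ hib hbv)⟩

theorem flip6 (x y s : ℝ × ℝ) : cr (y - x) (s - x) = -cr (x - y) (s - y) := by
  simp only [cr, Prod.fst_sub, Prod.snd_sub]; ring

/-- The pairs of the cells. -/
theorem pairs6 {R B : Finset (ℝ × ℝ)} {M k v : ℕ} {z : ℕ → ℝ × ℝ} {i : ℕ} {tau : ℝ × ℝ}
    (hC : Chain30 R B v z) (hk : 1 ≤ k) (hT : Tl30 R B v z M i tau) {w : ℕ → ℝ × ℝ}
    (hw0 : w 0 = tau) {m : ℕ} (hmM : m + 1 ≤ M) (hmv : i + m * k < v)
    (hI : Inv6 (At6 R v z i tau) (Bl30 B v z i tau) (z i) (z v) (fun j => z (i + j * k)) w m) :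
    (∑ j ∈ Finset.range m, (CL (Bl30 B v z i tau) (fun j => z (i + j * k)) w j).card) ^ 2 ≤
      M * (Pi30 R B z ((M - 1) * k) i).card := by
  classical
  set c : ℕ → ℝ × ℝ := fun j => z (i + j * k) with hc
  set F : ℕ → Finset ((ℝ × ℝ) × (ℝ × ℝ)) :=
    fun j => CL (At6 R v z i tau) c w j ×ˢ CL (Bl30 B v z i tau) c w j with hF
  have hdisj : ∀ a ∈ Finset.range m, ∀ b ∈ Finset.range m, a ≠ b → Disjoint (F a) (F b) := by
    intro a _ b _ hab
    rw [Finset.disjoint_left]
    rintro ⟨x, y⟩ h1 h2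
    exact Finset.disjoint_left.1 (CL_disj hab) (Finset.mem_product.1 h1).1
      (Finset.mem_product.1 h2).1
  have hsub : (Finset.range m).biUnion F ⊆ Pi30 R B z ((M - 1) * k) i := by
    intro x hx
    obtain ⟨j, hj, hxj⟩ := Finset.mem_biUnion.1 hx
    rw [Finset.mem_range] at hj
    obtain ⟨h1, h2⟩ := Finset.mem_product.1 hxj
    obtain ⟨t1, t2⟩ := cellX6 hC hk hT hw0 hmv hI hj h1 h2
    have hjm : (j + 1) * k ≤ (M - 1) * k := Nat.mul_le_mul_right _ (by omega)
    have hj1 : (j + 1) * k = j * k + k := by ring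
    rw [Pi30]
    refine Finset.mem_filter.2 ⟨Finset.mem_product.2 ⟨?_, ?_⟩, i + j * k, i + (j + 1) * k,
      by omega, by omega, by omega, ?_⟩
    · exact (Finset.mem_filter.1 (mem_CL.1 h1).1).1
    · exact (Finset.mem_filter.1 (mem_CL.1 h2).1).1
    · rw [flip6, flip6 x.1 x.2 (z (i + (j + 1) * k))]
      have := mul_neg_of_pos_of_neg t1 t2
      linarith
  have hcard : ∑ j ∈ Finset.range m, (CL (Bl30 B v z i tau) c w j).card ^ 2 ≤
      (Pi30 R B z ((M - 1) * k) i).card := by
    refine le_trans ?_ (Finset.card_le_card hsub)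
    rw [Finset.card_biUnion hdisj]
    refine Finset.sum_le_sum fun j hj => ?_
    rw [Finset.mem_range] at hj
    rw [hF]
    simp only
    rw [Finset.card_product, hI.cnt j hj, pow_two]
    exact Nat.mul_le_mul_right _ (Nat.le_succ _)
  calc (∑ j ∈ Finset.range m, (CL (Bl30 B v z i tau) c w j).card) ^ 2
      ≤ (Finset.range m).card * ∑ j ∈ Finset.range m, (CL (Bl30 B v z i tau) c w j).card ^ 2 :=
        sq_sum_le_card_mul_sum_sq
    _ ≤ M * (Pi30 R B z ((M - 1) * k) i).card := by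
        rw [Finset.card_range]
        exact Nat.mul_le_mul (by omega) hcard

/-- The recursion: all separators exist, or a matched cell family has used almost everything. -/
theorem rec6 {R B : Finset (ℝ × ℝ)} {D M k v : ℕ} {z : ℕ → ℝ × ℝ} {i : ℕ} {tau : ℝ × ℝ}
    (hgp : GP (R ∪ B)) (hdis : Disjoint R B) (hWB : WB30 R B D) (hC : Chain30 R B v z)
    (hk : D + 4 ≤ k) (hiv : i + M * k ≤ v) (hT : Tl30 R B v z M i tau) : ∀ m : ℕ, m < M →
    (∃ w : ℕ → ℝ × ℝ, w 0 = tau ∧ Inv6 (At6 R v z i tau) (Bl30 B v z i tau) (z i) (z v)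
      (fun j => z (i + j * k)) w m) ∨
    ∃ m' : ℕ, m' < M ∧ ∃ w : ℕ → ℝ × ℝ, w 0 = tau ∧
      Inv6 (At6 R v z i tau) (Bl30 B v z i tau) (z i) (z v) (fun j => z (i + j * k)) w m' ∧
      (VV (Bl30 B v z i tau) (fun j => z (i + j * k)) w m').card <
        (dw30 R B v z ((M - 1) * k) i).card
  | 0 => fun _ => Or.inl ⟨fun _ => tau, rfl, ⟨fun j h1 h2 => by omega, fun j h1 h2 => by omega,
      fun j h => by omega, fun j h => by omega⟩⟩
  | m + 1 => fun hm => by
    rcases rec6 hgp hdis hWB hC hk hiv hT m (by omega) with ⟨w, hw0, hI⟩ | h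
    · rcases Nat.lt_or_ge (VV (Bl30 B v z i tau) (fun j => z (i + j * k)) w m).card
        (dw30 R B v z ((M - 1) * k) i).card with h | h
      · exact Or.inr ⟨m, by omega, w, hw0, hI, h⟩
      · exact Or.inl (step6 hgp hdis hWB hC hk hiv hT hw0 hm hI h)
    · exact Or.inr h

/-- The second alternative of the window lemma. -/
theorem alt6 {R B : Finset (ℝ × ℝ)} {D M k v : ℕ} {z : ℕ → ℝ × ℝ} {i : ℕ} {tau : ℝ × ℝ}
    (hC : Chain30 R B v z) (hk : D + 4 ≤ k) (hiv : i + M * k ≤ v)
    (hT : Tl30 R B v z M i tau) {m : ℕ} (hm : m < M) {w : ℕ → ℝ × ℝ} (hw0 : w 0 = tau)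
    (hI : Inv6 (At6 R v z i tau) (Bl30 B v z i tau) (z i) (z v) (fun j => z (i + j * k)) w m)
    (h : (VV (Bl30 B v z i tau) (fun j => z (i + j * k)) w m).card <
        (dw30 R B v z ((M - 1) * k) i).card) :
    ((Bl30 B v z i tau).card - (dw30 R B v z ((M - 1) * k) i).card) ^ 2 ≤
        M * (Pi30 R B z ((M - 1) * k) i).card := by
  classical
  have hmk : (m + 1) * k ≤ M * k := Nat.mul_le_mul_right _ hm
  have e : (m + 1) * k = m * k + k := by ring
  refine le_trans (Nat.pow_le_pow_left ?_ 2)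
    (pairs6 hC (by omega) hT hw0 hm (by omega : i + m * k < v) hI)
  have h0 : VV (Bl30 B v z i tau) (fun j => z (i + j * k)) w 0 = Bl30 B v z i tau := by
    rw [VV, Finset.filter_true_of_mem]
    intro p hp
    have e0 : z (i + 0 * k) = z i := by simp
    rw [e0, hw0]
    exact (Finset.mem_filter.1 hp).2.2
  have h1 := card_sum (S := Bl30 B v z i tau) (c := fun j => z (i + j * k)) (w := w) m
    (fun j hj p hp => hI.off j hj p (Finset.mem_union_right _ hp))
  rw [h0] at h1
  omega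

end Pool.Agent.AltALL6
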