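import Pool.Agent.AltAll.Iface30
import Pool.Agent.AltAll.LemX12

/-! The window lemma, part one: the sets between the separators and the signs along the chain. -/

set_option autoImplicit false

namespace Pool.Agent.AltALL6

open Pool.Agent.AltPath Pool.Agent.AltHP Pool.Agent.AltALL Pool.Agent.AltAll

/-- The points of S on the positive side of the lines w 0, .., w m through c 0, .., c m. -/
noncomputable def VV (S : Finset (ℝ × ℝ)) (c w : ℕ → ℝ × ℝ) : ℕ → Finset (ℝ × ℝ)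
  | 0 => S.filter (fun p => 0 < dt (w 0) (p - c 0))
  | m + 1 => (VV S c w m).filter (fun p => 0 < dt (w (m + 1)) (p - c (m + 1)))

/-- The cell between the lines w m and w (m + 1). -/
noncomputable def CL (S : Finset (ℝ × ℝ)) (c w : ℕ → ℝ × ℝ) (m : ℕ) : Finset (ℝ × ℝ) :=
  (VV S c w m).filter (fun p => dt (w (m + 1)) (p - c (m + 1)) < 0)

theorem mem_VV {S : Finset (ℝ × ℝ)} {c w : ℕ → ℝ × ℝ} {p : ℝ × ℝ} : ∀ m : ℕ,
    p ∈ VV S c w m ↔ p ∈ S ∧ ∀ j ≤ m, 0 < dt (w j) (p - c j)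
  | 0 => by
    rw [VV, Finset.mem_filter]
    constructor
    · rintro ⟨h1, h2⟩
      refine ⟨h1, fun j hj => ?_⟩
      obtain rfl : j = 0 := by omega
      exact h2
    · rintro ⟨h1, h2⟩
      exact ⟨h1, h2 0 le_rfl⟩
  | m + 1 => by
    rw [VV, Finset.mem_filter, mem_VV m]
    constructor
    · rintro ⟨⟨h1, h2⟩, h3⟩
      refine ⟨h1, fun j hj => ?_⟩
      rcases Nat.lt_or_ge j (m + 1) with h | h
      · exact h2 j (by omega)
      · obtain rfl : j = m + 1 := by omega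
        exact h3
    · rintro ⟨h1, h2⟩
      exact ⟨⟨h1, fun j hj => h2 j (by omega)⟩, h2 (m + 1) le_rfl⟩

theorem VV_sub {S : Finset (ℝ × ℝ)} {c w : ℕ → ℝ × ℝ} (m : ℕ) : VV S c w m ⊆ S :=
  fun _ hp => ((mem_VV m).1 hp).1

theorem mem_CL {S : Finset (ℝ × ℝ)} {c w : ℕ → ℝ × ℝ} {p : ℝ × ℝ} {m : ℕ} :
    p ∈ CL S c w m ↔ p ∈ S ∧ (∀ j ≤ m, 0 < dt (w j) (p - c j)) ∧
      dt (w (m + 1)) (p - c (m + 1)) < 0 := by
  rw [CL, Finset.mem_filter, mem_VV, and_assoc]

theorem VV_congr {S : Finset (ℝ × ℝ)} {c w w' : ℕ → ℝ × ℝ} {m : ℕ} (h : ∀ j ≤ m, w j = w' j) :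
    VV S c w m = VV S c w' m := by
  ext p
  rw [mem_VV, mem_VV]
  constructor
  · rintro ⟨h1, h2⟩
    exact ⟨h1, fun j hj => by rw [← h j hj]; exact h2 j hj⟩
  · rintro ⟨h1, h2⟩
    exact ⟨h1, fun j hj => by rw [h j hj]; exact h2 j hj⟩

theorem CL_congr {S : Finset (ℝ × ℝ)} {c w w' : ℕ → ℝ × ℝ} {m : ℕ}
    (h : ∀ j ≤ m + 1, w j = w' j) : CL S c w m = CL S c w' m := by
  rw [CL, CL, VV_congr (fun j hj => h j (by omega)), h (m + 1) le_rfl]

theorem card_step {S : Finset (ℝ × ℝ)} {c w : ℕ → ℝ × ℝ} {m : ℕ}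
    (h : ∀ p ∈ VV S c w m, dt (w (m + 1)) (p - c (m + 1)) ≠ 0) :
    (VV S c w m).card = (CL S c w m).card + (VV S c w (m + 1)).card := by
  rw [← Finset.card_filter_add_card_filter_not (s := VV S c w m)
    (fun p => dt (w (m + 1)) (p - c (m + 1)) < 0)]
  congr 1
  rw [VV]
  apply congrArg
  apply Finset.filter_congr
  intro p hp
  rw [not_lt]
  exact ⟨fun h1 => lt_of_le_of_ne h1 (h p hp).symm, le_of_lt⟩

theorem card_sum {S : Finset (ℝ × ℝ)} {c w : ℕ → ℝ × ℝ} : ∀ m : ℕ,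
    (∀ j < m, ∀ p ∈ VV S c w j, dt (w (j + 1)) (p - c (j + 1)) ≠ 0) →
    (VV S c w 0).card = ∑ j ∈ Finset.range m, (CL S c w j).card + (VV S c w m).card
  | 0 => fun _ => by rw [Finset.range_zero, Finset.sum_empty, zero_add]
  | m + 1 => fun h => by
    rw [card_sum m (fun j hj => h j (by omega)), card_step (h m (Nat.lt_succ_self m)),
      Finset.sum_range_succ]
    ring

/-- Two different cells are disjoint. -/
theorem CL_disj {S : Finset (ℝ × ℝ)} {c w : ℕ → ℝ × ℝ} {i j : ℕ} (h : i ≠ j) :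
    Disjoint (CL S c w i) (CL S c w j) := by
  have key : ∀ i j, i < j → Disjoint (CL S c w i) (CL S c w j) := by
    intro i j hij
    rw [Finset.disjoint_left]
    intro p hp hp'
    have h1 := (mem_CL.1 hp).2.2
    have h2 := (mem_CL.1 hp').2.1 (i + 1) (by omega)
    linarith
  rcases lt_or_gt_of_ne h with h | h
  · exact key i j h
  · exact (key j i h).symm

section signs

variable {v : ℕ} {z : ℕ → ℝ × ℝ}

theorem neg_aff (w x y : ℝ × ℝ) : dt (-w) x + dt w y = -dt w (x - y) := by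
  simp only [dt, Prod.fst_neg, Prod.snd_neg, Prod.fst_sub, Prod.snd_sub]; ring

/-- A line through the vertex j, the vertex i before and the vertex l behind it on its two sides:
the vertices between j and l are on the positive side. -/
theorem after6 (hz : ∀ i j k, i < j → j < k → k ≤ v → cr (z j - z i) (z k - z i) < 0)
    {i j k l : ℕ} (hij : i < j) (hjk : j < k) (hkl : k < l) (hl : l ≤ v) {w : ℝ × ℝ}
    (h1 : dt w (z i - z j) < 0) (h2 : 0 < dt w (z l - z j)) : 0 < dt w (z k - z j) := by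
  by_contra hcon
  push Not at hcon
  refine no_alt hz hij hjk hkl hl (-w) (dt w (z j)) ?_ ?_ ?_ ?_ (Or.inl ?_)
  · rw [neg_aff]; linarith
  · rw [neg_aff, dt_self_sub]; simp
  · rw [neg_aff]; linarith
  · rw [neg_aff]; linarith
  · rw [neg_aff]; linarith

theorem before6 (hz : ∀ i j k, i < j → j < k → k ≤ v → cr (z j - z i) (z k - z i) < 0)
    {i j k l : ℕ} (hij : i < j) (hjk : j < k) (hkl : k < l) (hl : l ≤ v) {w : ℝ × ℝ}
    (h1 : dt w (z i - z k) < 0) (h2 : 0 < dt w (z l - z k)) : dt w (z j - z k) < 0 := by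
  by_contra hcon
  push Not at hcon
  refine no_alt hz hij hjk hkl hl (-w) (dt w (z k)) ?_ ?_ ?_ ?_ (Or.inl ?_)
  · rw [neg_aff]; linarith
  · rw [neg_aff]; linarith
  · rw [neg_aff, dt_self_sub]; simp
  · rw [neg_aff]; linarith
  · rw [neg_aff]; linarith

end signs

/-- A vector in the cone of two vectors. -/
theorem cone6 {t u e x : ℝ × ℝ} (hue : cr u e < 0) (h1 : 0 < cr e x) (h2 : cr u x < 0)
    (hu : 0 < dt t u) (he : 0 < dt t e) : 0 < dt t x := by
  have key : dt t x * cr e u = cr e x * dt t u + (-cr u x) * dt t e := by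
    simp only [dt, cr]; ring
  have h3 : 0 < cr e u := by
    have : cr e u = -cr u e := by simp only [cr]; ring
    rw [this]; linarith
  have h4 : 0 < dt t x * cr e u := by
    rw [key]
    exact add_pos (mul_pos h1 hu) (mul_pos (neg_pos.2 h2) he)
  exact (mul_pos_iff_of_pos_right h3).mp h4

/-- The functional x ↦ cr e x. -/
theorem cr_dt (e x : ℝ × ℝ) : cr e x = dt (-e.2, e.1) x := by
  simp only [cr, dt]; ring

/-- A point of the sector beyond the triangle. -/
theorem beyond6 {G : ℝ × ℝ → ℝ} (hG : ∃ w : ℝ × ℝ, ∃ s : ℝ, ∀ x, G x = dt w x + s)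
    {q u c' p : ℝ × ℝ} (huc : cr (u - q) (c' - q) < 0) (h1 : 0 < cr (c' - q) (p - q))
    (h2 : cr (u - q) (p - q) < 0) (h3 : 0 ≤ cr (c' - u) (p - u)) (gq : G q ≤ 0) (gu : 0 < G u)
    (gc : 0 < G c') : 0 < G p := by
  obtain ⟨w, s, hw⟩ := hG
  rw [hw] at gq gu gc ⊢
  have key : (dt w p + s) * (-cr (u - q) (c' - q)) =
      -(cr (c' - u) (p - u)) * (dt w q + s) + cr (c' - q) (p - q) * (dt w u + s) +
        (-cr (u - q) (p - q)) * (dt w c' + s) := by
    simp only [cr, dt, Prod.fst_sub, Prod.snd_sub]; ring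
  have h4 : 0 < (dt w p + s) * (-cr (u - q) (c' - q)) := by
    rw [key]
    have t1 : 0 ≤ -(cr (c' - u) (p - u)) * (dt w q + s) :=
      mul_nonneg_of_nonpos_of_nonpos (by linarith) gq
    have t2 := mul_pos h1 gu
    have t3 := mul_pos (neg_pos.2 h2) gc
    linarith
  exact (mul_pos_iff_of_pos_right (neg_pos.2 huc)).mp h4

end Pool.Agent.AltALL6
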