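import Pool.Agent.AltALL.Loc6a

/-! The window lemma, part two: the two ends of the turn of a separator. -/

set_option autoImplicit false

namespace Pool.Agent.AltALL6

open Pool.Agent.AltPath Pool.Agent.AltHP Pool.Agent.AltALL Pool.Agent.AltAll

variable {R B : Finset (ℝ × ℝ)} {v : ℕ} {z : ℕ → ℝ × ℝ}

theorem cr_anti6 (u x : ℝ × ℝ) : cr u x = -cr x u := by simp only [cr]; ring

/-- cyclic orientation -/
theorem cyc6 (a b c : ℝ × ℝ) : cr (c - b) (a - b) = cr (b - a) (c - a) := by
  simp only [cr, Prod.fst_sub, Prod.snd_sub]; ring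

theorem neg6 (a b p : ℝ × ℝ) : cr (a - b) (p - b) = -cr (b - a) (p - a) := by
  simp only [cr, Prod.fst_sub, Prod.snd_sub]; ring

/-- The line T has all later vertices on its right. -/
theorem tau_pos (hC : Chain30 R B v z) {i k : ℕ} {tau : ℝ × ℝ}
    (hn : 0 < dt tau (z (i + 1) - z i)) (hl : 0 < dt tau (z v - z i)) (hik : i < k) (hk : k ≤ v) :
    0 < dt tau (z k - z i) := by
  rcases Nat.eq_or_lt_of_le hk with rfl | hkv
  · exact hl
  rcases Nat.eq_or_lt_of_le (Nat.succ_le_of_lt hik) with h | h
  · rw [← h]; exact hn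
  · refine cone6 (u := z (i + 1) - z i) (e := z v - z i) ?_ ?_ ?_ hn hl
    · exact hC.cw i (i + 1) v (by omega) (by omega) le_rfl
    · rw [cr_anti6]
      have := hC.cw i k v hik hkv le_rfl
      linarith
    · exact hC.cw i (i + 1) k (by omega) (by omega) hk

/-- The sector between two vertices, seen from the vertex i, has a red point. -/
theorem sector_red (hC : Chain30 R B v z) {D i a b : ℕ}
    (hW : ∀ w1 w2 : ℝ × ℝ,
      |((R.filter (fun p => 0 < dt w1 (p - z i) ∧ 0 < dt w2 (p - z i))).card : ℤ) -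
      ((B.filter (fun p => 0 < dt w1 (p - z i) ∧ 0 < dt w2 (p - z i))).card : ℤ)| ≤ D)
    (hia : i ≤ a) (hab : a + 2 + D < b) (hb : b ≤ v) :
    ∃ r ∈ R, cr (z (a + 1) - z i) (r - z i) < 0 ∧ 0 < cr (z b - z i) (r - z i) := by
  classical
  set w1 : ℝ × ℝ := ((z (a + 1) - z i).2, -(z (a + 1) - z i).1) with hw1
  set w2 : ℝ × ℝ := (-(z b - z i).2, (z b - z i).1) with hw2
  have e1 : ∀ x, dt w1 x = -cr (z (a + 1) - z i) x := by
    intro x; rw [hw1]; simp only [dt, cr]; ring
  have e2 : ∀ x, dt w2 x = cr (z b - z i) x := by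
    intro x; rw [hw2]; simp only [dt, cr]; ring
  have h := hW w1 w2
  have hsub : (Finset.Ioo (a + 1) b).image z ⊆
      B.filter (fun p => 0 < dt w1 (p - z i) ∧ 0 < dt w2 (p - z i)) := by
    intro p hp
    obtain ⟨k, hk, rfl⟩ := Finset.mem_image.1 hp
    rw [Finset.mem_Ioo] at hk
    refine Finset.mem_filter.2 ⟨hC.mem k (by omega), ?_, ?_⟩
    · rw [e1]
      have := hC.cw i (a + 1) k (by omega) hk.1 (by omega)
      linarith
    · rw [e2, cr_anti6]
      have := hC.cw i k b (by omega) hk.2 hb
      linarith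
  have hcard : ((Finset.Ioo (a + 1) b).image z).card = b - (a + 1) - 1 := by
    rw [Finset.card_image_of_injOn, Nat.card_Ioo]
    intro x hx y hy hxy
    rw [Finset.mem_coe, Finset.mem_Ioo] at hx hy
    rcases lt_trichotomy x y with h | h | h
    · exact (hC.inj x y h (by omega) hxy).elim
    · exact h
    · exact (hC.inj y x h (by omega) hxy.symm).elim
  have h1 := Finset.card_le_card hsub
  rw [hcard] at h1
  have h2 : 0 < (R.filter (fun p => 0 < dt w1 (p - z i) ∧ 0 < dt w2 (p - z i))).card := by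
    have h3 := (abs_le.1 h).1
    omega
  obtain ⟨r, hr⟩ := Finset.card_pos.1 h2
  obtain ⟨hrR, hr1, hr2⟩ := Finset.mem_filter.1 hr
  rw [e1] at hr1
  rw [e2] at hr2
  exact ⟨r, hrR, by linarith, hr2⟩

/-- The red point of the sector is on the positive side of every functional which is positive at
the two vertices. -/
theorem sector_pos (hC : Chain30 R B v z) {i a b : ℕ} (hia : i ≤ a) (hab : a + 1 < b) (hb : b ≤ v)
    {r : ℝ × ℝ} (h1 : cr (z (a + 1) - z i) (r - z i) < 0) (h2 : 0 < cr (z b - z i) (r - z i))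
    {t : ℝ × ℝ} (t1 : 0 < dt t (z (a + 1) - z i)) (t2 : 0 < dt t (z b - z i)) :
    0 < dt t (r - z i) :=
  cone6 (hC.cw i (a + 1) b (by omega) hab hb) h2 h1 t1 t2

/-- The red point of the sector is on the positive side of the earlier separators. -/
theorem sector_sep (hC : Chain30 R B v z) {i j a b : ℕ} (hij : i < j)
    (hja : j ≤ a) (hab : a + 1 < b) (hb : b < v) {r w : ℝ × ℝ} (hr : r ∈ R)
    (h1 : cr (z (a + 1) - z i) (r - z i) < 0) (h2 : 0 < cr (z b - z i) (r - z i))
    (w1 : dt w (z i - z j) < 0) (w2 : 0 < dt w (z v - z j)) : 0 < dt w (r - z j) := by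
  have h3 : 0 ≤ cr (z b - z (a + 1)) (r - z (a + 1)) := by
    by_contra hcon
    push Not at hcon
    refine hC.free i (a + 1) b (by omega) (by omega) (by omega) r hr ⟨h1, hcon, ?_⟩
    rw [neg6]; linarith
  refine beyond6 (G := fun x => dt w (x - z j)) ⟨w, -dt w (z j), fun x => by rw [dt_sub]; ring⟩
    (hC.cw i (a + 1) b (by omega) hab (by omega)) h2 h1 h3 w1.le ?_ ?_
  · exact after6 hC.cw hij (by omega : j < a + 1) (by omega) le_rfl w1 w2
  · exact after6 hC.cw hij (by omega : j < b) hb le_rfl w1 w2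

/-- The points below l and right of T are right of the line from q to a later vertex. -/
theorem start_low (hC : Chain30 R B v z) {i b : ℕ} {tau p : ℝ × ℝ} (hib : i < b) (hb : b < v)
    (t1 : 0 < dt tau (z b - z i)) (t2 : 0 < dt tau (z v - z i))
    (h1 : cr (z v - z i) (p - z i) < 0) (h2 : 0 < dt tau (p - z i)) :
    cr (z b - z i) (p - z i) < 0 := by
  by_contra hcon
  push Not at hcon
  have key : dt tau (p - z i) * cr (z v - z i) (z b - z i) =
      cr (z v - z i) (p - z i) * dt tau (z b - z i) +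
        (-cr (z b - z i) (p - z i)) * dt tau (z v - z i) := by
    simp only [dt, cr]; ring
  have h3 : 0 < cr (z v - z i) (z b - z i) := by
    rw [cr_anti6]
    have := hC.cw i b v hib hb le_rfl
    linarith
  have h4 := mul_pos h2 h3
  have h5 : cr (z v - z i) (p - z i) * dt tau (z b - z i) < 0 := mul_neg_of_neg_of_pos h1 t1
  have h6 : (-cr (z b - z i) (p - z i)) * dt tau (z v - z i) ≤ 0 :=
    mul_nonpos_of_nonpos_of_nonneg (by linarith) t2.le
  linarith

/-- The double cone at the last vertex. -/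
theorem cone_dw (hC : Chain30 R B v z) {i b e : ℕ} (hib : i < b) (hbe : b ≤ e) (he : e < v)
    {p : ℝ × ℝ}
    (h : (0 < cr (z v - z i) (p - z i) ∧ 0 < cr (z b - z v) (p - z v)) ∨
      (cr (z v - z i) (p - z i) < 0 ∧ cr (z b - z v) (p - z v) < 0)) :
    cr (z i - z v) (p - z v) * cr (z e - z v) (p - z v) < 0 := by
  have hq : cr (z i - z v) (p - z v) = -cr (z v - z i) (p - z i) := neg6 _ _ _
  rcases Nat.eq_or_lt_of_le hbe with rfl | hbe
  · rcases h with ⟨h1, h2⟩ | ⟨h1, h2⟩
    · exact mul_neg_of_neg_of_pos (by linarith) h2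
    · exact mul_neg_of_pos_of_neg (by linarith) h2
  have key : cr (z b - z v) (p - z v) * cr (z i - z v) (z e - z v) =
      cr (z b - z v) (z e - z v) * cr (z i - z v) (p - z v) +
        cr (z i - z v) (z b - z v) * cr (z e - z v) (p - z v) := by
    simp only [cr, Prod.fst_sub, Prod.snd_sub]; ring
  have s1 : cr (z i - z v) (z e - z v) < 0 := by
    have := hC.cw i e v (by omega) he le_rfl
    rw [← cyc6, ← cyc6] at this
    exact this
  have s2 : cr (z i - z v) (z b - z v) < 0 := by
    have := hC.cw i b v (by omega) (by omega) le_rfl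
    rw [← cyc6, ← cyc6] at this
    exact this
  have s3 : cr (z b - z v) (z e - z v) < 0 := by
    have := hC.cw b e v (by omega) he le_rfl
    rw [← cyc6, ← cyc6] at this
    exact this
  rcases h with ⟨h1, h2⟩ | ⟨h1, h2⟩
  · have hqn : cr (z i - z v) (p - z v) < 0 := by linarith
    have t1 := mul_neg_of_pos_of_neg h2 s1
    have t2 := mul_pos_of_neg_of_neg s3 hqn
    have t3 : cr (z i - z v) (z b - z v) * cr (z e - z v) (p - z v) < 0 := by linarith
    have t4 : 0 < cr (z e - z v) (p - z v) := by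
      by_contra hcon
      push Not at hcon
      have := mul_nonneg_of_nonpos_of_nonpos s2.le hcon
      linarith
    exact mul_neg_of_neg_of_pos hqn t4
  · have hqp : 0 < cr (z i - z v) (p - z v) := by linarith
    have t1 := mul_pos_of_neg_of_neg h2 s1
    have t2 := mul_neg_of_neg_of_pos s3 hqp
    have t3 : 0 < cr (z i - z v) (z b - z v) * cr (z e - z v) (p - z v) := by linarith
    have t4 : cr (z e - z v) (p - z v) < 0 := by
      by_contra hcon
      push Not at hcon
      have := mul_nonpos_of_nonpos_of_nonneg s2.le hcon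
      linarith
    exact mul_neg_of_pos_of_neg hqp t4

/-- The end of the turn: the double cone has at most as many points as the lower set. -/
theorem end_count (hgp : GP (R ∪ B)) (hC : Chain30 R B v z) {i b L : ℕ} (hib : i < b)
    (hbe : b ≤ i + L) (he : i + L < v) {A Bl : Finset (ℝ × ℝ)} (hA : A ⊆ R ∪ B)
    (hB : Bl ⊆ R ∪ B) (ha : ∀ p ∈ A, 0 < cr (z v - z i) (p - z i))
    (hb : ∀ p ∈ Bl, cr (z v - z i) (p - z i) < 0) (hdw : (dw30 R B v z L i).card ≤ Bl.card) :
    (A.filter (fun p => 0 < cr (z b - z v) (p - z v))).card ≤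
      (Bl.filter (fun p => 0 < cr (z b - z v) (p - z v))).card := by
  classical
  have hzb : z b ∈ R ∪ B := Finset.mem_union_right _ (hC.mem b (by omega))
  have hzv : z v ∈ R ∪ B := Finset.mem_union_right _ (hC.mem v le_rfl)
  have h1 : A.filter (fun p => 0 < cr (z b - z v) (p - z v)) ∪
      Bl.filter (fun p => ¬ 0 < cr (z b - z v) (p - z v)) ⊆ dw30 R B v z L i := by
    intro p hp
    rcases Finset.mem_union.1 hp with hp | hp
    · obtain ⟨hp1, hp2⟩ := Finset.mem_filter.1 hp
      exact Finset.mem_filter.2 ⟨hA hp1, cone_dw hC hib hbe he (Or.inl ⟨ha p hp1, hp2⟩)⟩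
    · obtain ⟨hp1, hp2⟩ := Finset.mem_filter.1 hp
      refine Finset.mem_filter.2 ⟨hB hp1, cone_dw hC hib hbe he (Or.inr ⟨hb p hp1, ?_⟩)⟩
      refine lt_of_le_of_ne (not_lt.1 hp2) ?_
      have hpb : p ≠ z b := by
        rintro rfl
        have t1 := hb _ hp1
        have t2 := hC.cw i b v hib (by omega) le_rfl
        rw [cr_anti6] at t2
        linarith
      have hpv : p ≠ z v := by
        rintro rfl
        have t1 := hb _ hp1
        have t2 : cr (z v - z i) (z v - z i) = 0 := by simp only [cr]; ring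
        linarith
      have hbv : z b ≠ z v := hC.inj b v (by omega) le_rfl
      exact hgp (z v) hzv (z b) hzb p (hB hp1) hbv.symm hpv.symm hpb.symm
  have hdisj : Disjoint (A.filter (fun p => 0 < cr (z b - z v) (p - z v)))
      (Bl.filter (fun p => ¬ 0 < cr (z b - z v) (p - z v))) := by
    rw [Finset.disjoint_left]
    intro p hp hp'
    exact (Finset.mem_filter.1 hp').2 (Finset.mem_filter.1 hp).2
  have h2 := Finset.card_le_card h1
  rw [Finset.card_union_of_disjoint hdisj] at h2
  have h3 := Finset.card_filter_add_card_filter_not (s := Bl)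
    (fun p => 0 < cr (z b - z v) (p - z v))
  omega

/-- Before the last cell no red point is left below the line from the last corner to the end. -/
theorem last_none (hC : Chain30 R B v z) {i a : ℕ} (hia : i < a) (hav : a < v) {p w : ℝ × ℝ}
    (hp : p ∈ R) (h1 : 0 < cr (z v - z i) (p - z i)) (w1 : dt w (z i - z a) < 0)
    (w2 : 0 < dt w (z v - z a)) (hw : 0 < dt w (p - z a)) :
    ¬ 0 < cr (z a - z v) (p - z v) := by
  intro h2
  have h3 : cr (z v - z a) (p - z a) < 0 := by
    rw [neg6]; linarith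
  have h4 : cr (z i - z v) (p - z v) < 0 := by
    rw [neg6]; linarith
  have hcw := hC.cw i a v hia hav le_rfl
  refine hC.free i a v (by omega) (by omega) le_rfl p hp ⟨?_, h3, h4⟩
  by_contra hcon
  push Not at hcon
  have key : dt w (p - z a) * cr (z a - z i) (z v - z i) =
      cr (z v - z a) (p - z a) * dt w (z i - z a) +
        cr (z a - z i) (p - z i) * dt w (z v - z a) := by
    simp only [cr, dt, Prod.fst_sub, Prod.snd_sub]; ring
  have t1 := mul_neg_of_pos_of_neg hw hcw
  have t2 := mul_pos_of_neg_of_neg h3 w1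
  have t3 := mul_nonneg hcon w2.le
  linarith

end Pool.Agent.AltALL6
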