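import Mathlib

/-! The final numerics of the theorem for all point sets (MP_421d50), helper42. -/

namespace Pool.Agent.AltALL42

/-- All the quantities of the argument against x = (g + 1) L. -/
theorem num42 (Ck Cw A : ℕ) : ∃ C : ℝ, 0 < C ∧ ∀ (n g K D v F : ℕ) (L : ℝ), 1 ≤ L →
    (K : ℝ) ≤ Ck * (g + 1) * L → D ≤ Cw * (g + K + 1) → n ≤ 2 * (g + K + 2) * (3 * F + 1) →
    F ≤ (v + 1) + (v - 1) * (3 * D + 3) → C * ((g + 1) * L) ^ 9 ≤ n →
    A * ((g + K + D + 2) * (D + 3)) ≤ v ∧ A * (n * ((g + K + D + 2) * (D + 3))) ≤ v ^ 2 ∧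
      A * ((g + K + D + 2) ^ 2 * (D + 3) * n ^ 2) ≤ v ^ 3 := by
  obtain ⟨e, he⟩ : ∃ e : ℝ, e = Ck + 3 := ⟨_, rfl⟩
  obtain ⟨a, ha⟩ : ∃ a : ℝ, a = e + e * Cw + 3 := ⟨_, rfl⟩
  obtain ⟨b, hb⟩ : ∃ b : ℝ, b = 40 * e * a := ⟨_, rfl⟩
  have he3 : 3 ≤ e := by
    have : (0 : ℝ) ≤ Ck := Nat.cast_nonneg _
    linarith
  have hCw : (0 : ℝ) ≤ Cw := Nat.cast_nonneg _
  have hA0 : (0 : ℝ) ≤ A := Nat.cast_nonneg _
  have hae : e + 3 ≤ a := by
    have : 0 ≤ e * Cw := by positivity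
    linarith
  have ha6 : 6 ≤ a := by linarith
  have hea : 1 ≤ e * a := by
    calc (1 : ℝ) = 1 * 1 := (one_mul 1).symm
      _ ≤ e * a := mul_le_mul (by linarith) (by linarith) zero_le_one (by linarith)
  have hb1 : 1 ≤ b := by
    rw [hb, mul_assoc]; linarith
  have hb0 : 0 < b := by linarith
  refine ⟨(A + 1) * a ^ 3 * b ^ 3, by positivity, ?_⟩
  intro n g K D v F L hL hK hD hF hv hn
  obtain ⟨x, hx⟩ : ∃ x : ℝ, x = (g + 1) * L := ⟨_, rfl⟩
  rw [← hx] at hn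
  have hg0 : (0 : ℝ) ≤ g := Nat.cast_nonneg _
  have hgx : (g : ℝ) + 1 ≤ x := by
    rw [hx]; exact le_mul_of_one_le_right (by linarith) hL
  have hx1 : 1 ≤ x := by linarith
  have hK' : (K : ℝ) ≤ Ck * x := by rw [hx]; linarith
  have hsx : (g : ℝ) + K + 2 ≤ e * x := by
    have : e * x = Ck * x + 3 * x := by rw [he]; ring
    linarith
  have hD' : (D : ℝ) ≤ Cw * (g + K + 1) := by exact_mod_cast hD
  have hDx : (D : ℝ) ≤ e * Cw * x := by
    have h1 : (g : ℝ) + K + 1 ≤ e * x := by linarith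
    have h2 := mul_le_mul_of_nonneg_left h1 hCw
    calc (D : ℝ) ≤ Cw * (g + K + 1) := hD'
      _ ≤ Cw * (e * x) := h2
      _ = e * Cw * x := by ring
  have hMx : (g : ℝ) + K + D + 2 ≤ a * x := by
    have : a * x = e * x + e * Cw * x + 3 * x := by rw [ha]; ring
    linarith
  have hK0x : (D : ℝ) + 3 ≤ a * x := by
    have : a * x = e * x + e * Cw * x + 3 * x := by rw [ha]; ring
    have : 0 ≤ e * x := by positivity
    linarith
  have hD0 : (0 : ℝ) ≤ D := Nat.cast_nonneg _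
  have hK0 : (0 : ℝ) ≤ K := Nat.cast_nonneg _
  have hv0 : (0 : ℝ) ≤ v := Nat.cast_nonneg _
  have hFv : (F : ℝ) ≤ (v + 1) * (3 * (a * x)) := by
    have h1 : F ≤ (v + 1) * (3 * D + 4) := by
      have : (v - 1) * (3 * D + 3) ≤ (v + 1) * (3 * D + 3) :=
        Nat.mul_le_mul_right _ (by omega)
      calc F ≤ (v + 1) + (v - 1) * (3 * D + 3) := hv
        _ ≤ (v + 1) + (v + 1) * (3 * D + 3) := by omega
        _ = (v + 1) * (3 * D + 4) := by ring
    have h2 : (F : ℝ) ≤ (v + 1) * (3 * D + 4) := by exact_mod_cast h1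
    refine h2.trans ?_
    apply mul_le_mul_of_nonneg_left _ (by positivity)
    linarith
  have hnb : (n : ℝ) ≤ b / 2 * x ^ 2 * (v + 1) := by
    have h1 : (n : ℝ) ≤ 2 * (g + K + 2) * (3 * F + 1) := by exact_mod_cast hF
    have h2 : (3 * (F : ℝ) + 1) ≤ 10 * ((v + 1) * (a * x)) := by
      have h3 : 1 ≤ a * x := by
        calc (1 : ℝ) = 1 * 1 := (one_mul 1).symm
          _ ≤ a * x := mul_le_mul (by linarith) hx1 zero_le_one (by linarith)
      have h4 : 1 ≤ ((v : ℝ) + 1) * (a * x) := by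
        calc (1 : ℝ) = 1 * 1 := (one_mul 1).symm
          _ ≤ ((v : ℝ) + 1) * (a * x) := mul_le_mul (by linarith) h3 zero_le_one (by linarith)
      have h5 : 3 * (F : ℝ) ≤ 9 * ((v + 1) * (a * x)) := by
        calc 3 * (F : ℝ) ≤ 3 * ((v + 1) * (3 * (a * x))) := by linarith
          _ = 9 * ((v + 1) * (a * x)) := by ring
      linarith
    calc (n : ℝ) ≤ 2 * (g + K + 2) * (3 * F + 1) := h1
      _ ≤ 2 * (e * x) * (10 * ((v + 1) * (a * x))) := by
          apply mul_le_mul _ h2 (by positivity) (by positivity)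
          linarith
      _ = b / 2 * x ^ 2 * (v + 1) := by rw [hb]; ring
  have hx0 : 0 < x := by linarith
  have hpow : ∀ i j : ℕ, i ≤ j → x ^ i ≤ x ^ j := fun i j h => pow_le_pow_right₀ hx1 h
  have hbig : b * x ^ 2 < n := by
    have h1 : b * x ^ 2 ≤ b * x ^ 9 := mul_le_mul_of_nonneg_left (hpow 2 9 (by norm_num)) hb0.le
    have h2 : b < (A + 1) * a ^ 3 * b ^ 3 := by
      have h3 : 1 < a ^ 3 := one_lt_pow₀ (by linarith) (by norm_num)
      have h4 : b ≤ b ^ 3 := by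
        calc b = b ^ 1 := (pow_one b).symm
          _ ≤ b ^ 3 := pow_le_pow_right₀ hb1 (by norm_num)
      have h5 : (1 : ℝ) ≤ A + 1 := by linarith
      calc b ≤ b ^ 3 := h4
        _ < a ^ 3 * b ^ 3 := lt_mul_of_one_lt_left (by positivity) h3
        _ ≤ (A + 1) * (a ^ 3 * b ^ 3) := le_mul_of_one_le_left (by positivity) h5
        _ = (A + 1) * a ^ 3 * b ^ 3 := by ring
    have h6 : b * x ^ 9 < (A + 1) * a ^ 3 * b ^ 3 * x ^ 9 :=
      mul_lt_mul_of_pos_right h2 (by positivity)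
    linarith
  have hv1 : 1 ≤ v := by
    by_contra hc
    have hv' : v = 0 := by omega
    rw [hv'] at hnb
    have : b / 2 * x ^ 2 * ((0 : ℕ) + 1 : ℝ) = b * x ^ 2 / 2 := by push_cast; ring
    rw [this] at hnb
    have : 0 < b * x ^ 2 := by positivity
    linarith
  have hv1' : (1 : ℝ) ≤ v := by exact_mod_cast hv1
  have hnv : (n : ℝ) ≤ b * x ^ 2 * v := by
    calc (n : ℝ) ≤ b / 2 * x ^ 2 * (v + 1) := hnb
      _ ≤ b / 2 * x ^ 2 * (v + v) := by
          apply mul_le_mul_of_nonneg_left _ (by positivity)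
          linarith
      _ = b * x ^ 2 * v := by ring
  -- the lower bound for v
  have hvx : (A + 1) * a ^ 3 * b ^ 2 * x ^ 7 ≤ v := by
    have h1 : (A + 1) * a ^ 3 * b ^ 3 * x ^ 9 ≤ b * x ^ 2 * v := le_trans hn hnv
    have h2 : b * x ^ 2 * ((A + 1) * a ^ 3 * b ^ 2 * x ^ 7) ≤ b * x ^ 2 * v := by
      calc b * x ^ 2 * ((A + 1) * a ^ 3 * b ^ 2 * x ^ 7) = (A + 1) * a ^ 3 * b ^ 3 * x ^ 9 := by
            ring
        _ ≤ b * x ^ 2 * v := h1
    exact le_of_mul_le_mul_left h2 (by positivity)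
  have hn0 : (0 : ℝ) ≤ n := Nat.cast_nonneg _
  have hM0 : (0 : ℝ) ≤ (g : ℝ) + K + D + 2 := by positivity
  have hMK : ((g : ℝ) + K + D + 2) * (D + 3) ≤ a ^ 2 * x ^ 2 := by
    calc ((g : ℝ) + K + D + 2) * (D + 3) ≤ (a * x) * (a * x) :=
          mul_le_mul hMx hK0x (by positivity) (by positivity)
      _ = a ^ 2 * x ^ 2 := by ring
  have hMMK : ((g : ℝ) + K + D + 2) ^ 2 * (D + 3) ≤ a ^ 3 * x ^ 3 := by
    calc ((g : ℝ) + K + D + 2) ^ 2 * (D + 3) ≤ (a * x) ^ 2 * (a * x) :=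
          mul_le_mul (pow_le_pow_left₀ hM0 hMx 2) hK0x (by positivity) (by positivity)
      _ = a ^ 3 * x ^ 3 := by ring
  have hb2 : 1 ≤ b ^ 2 := one_le_pow₀ hb1
  have ha1 : 1 ≤ a := by linarith
  -- x^2 v >= n / b
  have c1 : (A : ℝ) * (a ^ 2 * x ^ 2) ≤ v := by
    refine le_trans ?_ hvx
    calc (A : ℝ) * (a ^ 2 * x ^ 2) ≤ (A + 1) * (a ^ 3 * x ^ 7) := by
          apply mul_le_mul (by linarith) _ (by positivity) (by positivity)
          apply mul_le_mul (pow_le_pow_right₀ ha1 (by norm_num)) (hpow 2 7 (by norm_num))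
            (by positivity) (by positivity)
      _ ≤ (A + 1) * (a ^ 3 * x ^ 7) * b ^ 2 := le_mul_of_one_le_right (by positivity) hb2
      _ = (A + 1) * a ^ 3 * b ^ 2 * x ^ 7 := by ring
  have c2 : (A : ℝ) * (n * (a ^ 2 * x ^ 2)) ≤ v ^ 2 := by
    have h1 : (A : ℝ) * (b * x ^ 2) * (a ^ 2 * x ^ 2) ≤ v := by
      refine le_trans ?_ hvx
      have hbb : b ≤ b ^ 2 := by
        calc b = b ^ 1 := (pow_one b).symm
          _ ≤ b ^ 2 := pow_le_pow_right₀ hb1 (by norm_num)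
      calc (A : ℝ) * (b * x ^ 2) * (a ^ 2 * x ^ 2) = A * (a ^ 2 * b * x ^ 4) := by ring
        _ ≤ (A + 1) * (a ^ 3 * b ^ 2 * x ^ 7) := by
            apply mul_le_mul (by linarith) _ (by positivity) (by positivity)
            apply mul_le_mul _ (hpow 4 7 (by norm_num)) (by positivity) (by positivity)
            exact mul_le_mul (pow_le_pow_right₀ ha1 (by norm_num)) hbb (by positivity)
              (by positivity)
        _ = (A + 1) * a ^ 3 * b ^ 2 * x ^ 7 := by ring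
    calc (A : ℝ) * (n * (a ^ 2 * x ^ 2)) = n * (A * (a ^ 2 * x ^ 2)) := by ring
      _ ≤ (b * x ^ 2 * v) * (A * (a ^ 2 * x ^ 2)) :=
          mul_le_mul_of_nonneg_right hnv (by positivity)
      _ = (A * (b * x ^ 2) * (a ^ 2 * x ^ 2)) * v := by ring
      _ ≤ v * v := mul_le_mul_of_nonneg_right h1 hv0
      _ = v ^ 2 := by ring
  have c3 : (A : ℝ) * (a ^ 3 * x ^ 3 * n ^ 2) ≤ v ^ 3 := by
    have h1 : (A : ℝ) * (a ^ 3 * x ^ 3) * (b * x ^ 2) ^ 2 ≤ v := by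
      refine le_trans ?_ hvx
      calc (A : ℝ) * (a ^ 3 * x ^ 3) * (b * x ^ 2) ^ 2 = A * (a ^ 3 * b ^ 2 * x ^ 7) := by ring
        _ ≤ (A + 1) * (a ^ 3 * b ^ 2 * x ^ 7) := by
            apply mul_le_mul_of_nonneg_right (by linarith) (by positivity)
        _ = (A + 1) * a ^ 3 * b ^ 2 * x ^ 7 := by ring
    calc (A : ℝ) * (a ^ 3 * x ^ 3 * n ^ 2) = A * (a ^ 3 * x ^ 3) * n ^ 2 := by ring
      _ ≤ A * (a ^ 3 * x ^ 3) * (b * x ^ 2 * v) ^ 2 := by
          apply mul_le_mul_of_nonneg_left _ (by positivity)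
          exact pow_le_pow_left₀ hn0 hnv 2
      _ = (A * (a ^ 3 * x ^ 3) * (b * x ^ 2) ^ 2) * v ^ 2 := by ring
      _ ≤ v * v ^ 2 := mul_le_mul_of_nonneg_right h1 (by positivity)
      _ = v ^ 3 := by ring
  refine ⟨?_, ?_, ?_⟩
  · have h : (A : ℝ) * (((g : ℝ) + K + D + 2) * (D + 3)) ≤ v :=
      le_trans (mul_le_mul_of_nonneg_left hMK hA0) c1
    exact_mod_cast h
  · have h : (A : ℝ) * (n * (((g : ℝ) + K + D + 2) * (D + 3))) ≤ (v : ℝ) ^ 2 :=
      le_trans (mul_le_mul_of_nonneg_left (mul_le_mul_of_nonneg_left hMK hn0) hA0) c2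
    exact_mod_cast h
  · have h : (A : ℝ) * (((g : ℝ) + K + D + 2) ^ 2 * (D + 3) * n ^ 2) ≤ (v : ℝ) ^ 3 :=
      le_trans (mul_le_mul_of_nonneg_left (mul_le_mul_of_nonneg_right hMMK (by positivity)) hA0) c3
    exact_mod_cast h

/-- From the ninth power to the final form. -/
theorem fin42 (C : ℝ) (hC : 0 < C) : ∃ c : ℝ, 0 < c ∧ ∀ n g : ℕ, 2 ≤ n → 1 ≤ g →
    (n : ℝ) < C * ((g + 1) * (1 + Real.logb 2 n)) ^ 9 →
    c * (n : ℝ) ^ (1 / 9 : ℝ) / Real.log n ≤ g := by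
  obtain ⟨r, hr⟩ : ∃ r : ℝ, r = C ^ (1 / 9 : ℝ) := ⟨_, rfl⟩
  have hr0 : 0 < r := by rw [hr]; exact Real.rpow_pos_of_pos hC _
  have hr9 : r ^ 9 = C := by
    rw [hr, ← Real.rpow_natCast, ← Real.rpow_mul hC.le]
    norm_num
  have hl2 : 0 < Real.log 2 := Real.log_pos (by norm_num)
  refine ⟨Real.log 2 / (4 * r), by positivity, ?_⟩
  intro n g hn hg h
  have hn2 : (2 : ℝ) ≤ n := by exact_mod_cast hn
  have hn0 : (0 : ℝ) ≤ n := by linarith
  have hg1 : (1 : ℝ) ≤ g := by exact_mod_cast hg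
  have hln : Real.log 2 ≤ Real.log n := Real.log_le_log (by norm_num) hn2
  have hln0 : 0 < Real.log n := by linarith
  have hL0 : 0 ≤ Real.logb 2 n := by
    rw [Real.logb]
    positivity
  obtain ⟨y, hy⟩ : ∃ y : ℝ, y = (n : ℝ) ^ (1 / 9 : ℝ) := ⟨_, rfl⟩
  have hy0 : 0 ≤ y := by rw [hy]; exact Real.rpow_nonneg hn0 _
  have hy9 : y ^ 9 = n := by
    rw [hy, ← Real.rpow_natCast, ← Real.rpow_mul hn0]
    norm_num
  have h1 : y ^ 9 < (r * ((g + 1) * (1 + Real.logb 2 n))) ^ 9 := by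
    rw [hy9, mul_pow, hr9]; exact h
  have h2 : y < r * ((g + 1) * (1 + Real.logb 2 n)) := by
    refine lt_of_pow_lt_pow_left₀ 9 ?_ h1
    positivity
  have h3 : 1 + Real.logb 2 n ≤ 2 * (Real.log n / Real.log 2) := by
    rw [Real.logb]
    have : 1 ≤ Real.log n / Real.log 2 := by
      rw [le_div_iff₀ hl2]; linarith
    linarith
  have h4 : y ≤ r * (2 * g * (2 * (Real.log n / Real.log 2))) := by
    refine h2.le.trans ?_
    apply mul_le_mul_of_nonneg_left _ hr0.le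
    apply mul_le_mul _ h3 (by positivity) (by positivity)
    linarith
  rw [div_le_iff₀ hln0, ← hy]
  calc Real.log 2 / (4 * r) * y ≤
        Real.log 2 / (4 * r) * (r * (2 * g * (2 * (Real.log n / Real.log 2)))) :=
        mul_le_mul_of_nonneg_left h4 (by positivity)
    _ = g * Real.log n := by
        field_simp
        ring

end Pool.Agent.AltALL42
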