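import Pool.Agent.AltHP.Arms

/-! Simple alternating polygonal paths given as lists: concatenation and reversal. -/

namespace Pool.Agent.AltALL

open Pool.Agent.AltPath Pool.Agent.AltHP

/-- The union of the segments of the polygonal path with the given list of vertices. -/
def Tr : List (ℝ × ℝ) → Set (ℝ × ℝ)
  | [] => ∅
  | [p] => {p}
  | p :: q :: l => segment ℝ p q ∪ Tr (q :: l)

/-- Simple polygonal path: each edge meets the later part of the path only in its second end. -/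
def Simp : List (ℝ × ℝ) → Prop
  | [] => True
  | [_] => True
  | p :: q :: l => p ≠ q ∧ (∀ z ∈ segment ℝ p q, z ∈ Tr (q :: l) → z = q) ∧ Simp (q :: l)

/-- Consecutive vertices have different colours. -/
def AltL (R : Finset (ℝ × ℝ)) : List (ℝ × ℝ) → Prop
  | [] => True
  | [_] => True
  | p :: q :: l => (p ∈ R ↔ q ∉ R) ∧ AltL R (q :: l)

theorem head_mem_Tr (p : ℝ × ℝ) (l : List (ℝ × ℝ)) : p ∈ Tr (p :: l) := by
  cases l with
  | nil => exact Set.mem_singleton p
  | cons q l => exact Or.inl (left_mem_segment ℝ _ _)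

theorem mem_Tr : ∀ (l : List (ℝ × ℝ)) (p : ℝ × ℝ), p ∈ l → p ∈ Tr l
  | [], p, h => absurd h List.not_mem_nil
  | [q], p, h => by rw [List.mem_singleton.mp h]; exact Set.mem_singleton q
  | q :: r :: l, p, h => by
    rcases List.mem_cons.mp h with rfl | h
    · exact head_mem_Tr _ _
    · exact Or.inr (mem_Tr (r :: l) p h)

theorem Tr_append : ∀ (l1 l2 : List (ℝ × ℝ)) (c : ℝ × ℝ),
    Tr (l1 ++ c :: l2) = Tr (l1 ++ [c]) ∪ Tr (c :: l2)
  | [], l2, c => by
    have h : ({c} : Set (ℝ × ℝ)) ⊆ Tr (c :: l2) := by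
      intro z hz
      rw [Set.mem_singleton_iff.mp hz]
      exact head_mem_Tr _ _
    show Tr (c :: l2) = {c} ∪ Tr (c :: l2)
    exact (Set.union_eq_right.mpr h).symm
  | [p], l2, c => by
    show segment ℝ p c ∪ Tr (c :: l2) = (segment ℝ p c ∪ {c}) ∪ Tr (c :: l2)
    have h : ({c} : Set (ℝ × ℝ)) ⊆ Tr (c :: l2) := by
      intro z hz
      rw [Set.mem_singleton_iff.mp hz]
      exact head_mem_Tr _ _
    rw [Set.union_assoc, Set.union_eq_right.mpr h]
  | p :: q :: l, l2, c => by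
    have ih := Tr_append (q :: l) l2 c
    show segment ℝ p q ∪ Tr (q :: l ++ c :: l2) = (segment ℝ p q ∪ Tr (q :: l ++ [c])) ∪ Tr (c :: l2)
    rw [ih, Set.union_assoc]

theorem Tr_reverse : ∀ (l : List (ℝ × ℝ)), Tr l.reverse = Tr l
  | [] => rfl
  | [_] => rfl
  | p :: q :: l => by
    have ih := Tr_reverse (q :: l)
    rw [List.reverse_cons, List.reverse_cons, List.append_assoc]
    show Tr (l.reverse ++ q :: [p]) = segment ℝ p q ∪ Tr (q :: l)
    rw [Tr_append, ← List.reverse_cons, ih]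
    show Tr (q :: l) ∪ (segment ℝ q p ∪ {p}) = segment ℝ p q ∪ Tr (q :: l)
    have h : ({p} : Set (ℝ × ℝ)) ⊆ segment ℝ q p := by
      intro z hz
      rw [Set.mem_singleton_iff.mp hz]
      exact right_mem_segment ℝ _ _
    rw [Set.union_eq_left.mpr h, segment_symm ℝ q p, Set.union_comm]

theorem Tr_subset {C : Set (ℝ × ℝ)} (hC : Convex ℝ C) : ∀ (l : List (ℝ × ℝ)),
    (∀ p ∈ l, p ∈ C) → Tr l ⊆ C
  | [], _ => Set.empty_subset _
  | [p], h => by
    intro z hz
    rw [Set.mem_singleton_iff.mp hz]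
    exact h p (List.mem_singleton.mpr rfl)
  | p :: q :: l, h => by
    intro z hz
    rcases hz with hz | hz
    · exact hC.segment_subset (h p (by simp)) (h q (by simp)) hz
    · exact Tr_subset hC (q :: l) (fun r hr => h r (List.mem_cons_of_mem p hr)) hz

theorem convex_pos (w c : ℝ × ℝ) : Convex ℝ {z : ℝ × ℝ | 0 < dt w (z - c)} := by
  rw [convex_iff_segment_subset]
  intro x hx y hy z hz
  obtain ⟨s, t, hs, ht, hst, -, e⟩ := dt_segment (a := w) (g := c) hz
  simp only [Set.mem_ofPred_eq] at hx hy ⊢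
  rw [e]
  rcases lt_or_eq_of_le hs with h | h
  · have := mul_pos h hx
    have := mul_nonneg ht hy.le
    linarith
  · have : t = 1 := by linarith
    rw [← h, this]; linarith

theorem convex_nonneg (w c : ℝ × ℝ) : Convex ℝ {z : ℝ × ℝ | 0 ≤ dt w (z - c)} := by
  rw [convex_iff_segment_subset]
  intro x hx y hy z hz
  obtain ⟨s, t, hs, ht, hst, -, e⟩ := dt_segment (a := w) (g := c) hz
  simp only [Set.mem_ofPred_eq] at hx hy ⊢
  rw [e]
  have := mul_nonneg hs hx
  have := mul_nonneg ht hy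
  linarith

theorem convex_neg (w c : ℝ × ℝ) : Convex ℝ {z : ℝ × ℝ | dt w (z - c) < 0} := by
  rw [convex_iff_segment_subset]
  intro x hx y hy z hz
  obtain ⟨s, t, hs, ht, hst, -, e⟩ := dt_segment (a := w) (g := c) hz
  simp only [Set.mem_ofPred_eq] at hx hy ⊢
  rw [e]
  rcases lt_or_eq_of_le hs with h | h
  · have := mul_neg_of_pos_of_neg h hx
    have := mul_nonpos_of_nonneg_of_nonpos ht hy.le
    linarith
  · have : t = 1 := by linarith
    rw [← h, this]; linarith

theorem convex_nonpos (w c : ℝ × ℝ) : Convex ℝ {z : ℝ × ℝ | dt w (z - c) ≤ 0} := by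
  rw [convex_iff_segment_subset]
  intro x hx y hy z hz
  obtain ⟨s, t, hs, ht, hst, -, e⟩ := dt_segment (a := w) (g := c) hz
  simp only [Set.mem_ofPred_eq] at hx hy ⊢
  rw [e]
  have := mul_nonpos_of_nonneg_of_nonpos hs hx
  have := mul_nonpos_of_nonneg_of_nonpos ht hy
  linarith

/-- On a segment starting at c and going to the positive side. -/
theorem seg_from {w c q z : ℝ × ℝ} (hq : 0 < dt w (q - c)) (hz : z ∈ segment ℝ c q) :
    z = c ∨ 0 < dt w (z - c) := by
  obtain ⟨s, t, hs, ht, hst, hzz, e⟩ := dt_segment (a := w) (g := c) hz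
  rw [dt_self_sub, mul_zero, zero_add] at e
  rcases lt_or_eq_of_le ht with h | h
  · right; rw [e]; exact mul_pos h hq
  · left
    have : s = 1 := by linarith
    rw [hzz, ← h, this, one_smul, zero_smul, add_zero]

theorem Tr_from {w c : ℝ × ℝ} : ∀ {l : List (ℝ × ℝ)}, (∀ p ∈ l, 0 < dt w (p - c)) →
    ∀ {z : ℝ × ℝ}, z ∈ Tr (c :: l) → z = c ∨ 0 < dt w (z - c)
  | [], _, z, hz => Or.inl (Set.mem_singleton_iff.mp hz)
  | q :: l, h, z, hz => by
    rcases hz with hz | hz
    · exact seg_from (h q (by simp)) hz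
    · exact Or.inr (Tr_subset (convex_pos w c) (q :: l) h hz)

theorem Simp.tail {p : ℝ × ℝ} {l : List (ℝ × ℝ)} (h : Simp (p :: l)) : Simp l := by
  cases l with
  | nil => trivial
  | cons q l => exact h.2.2

theorem Simp.notMem_Tr {p q : ℝ × ℝ} {l : List (ℝ × ℝ)} (h : Simp (p :: q :: l)) :
    p ∉ Tr (q :: l) := fun hp => h.1 (h.2.1 p (left_mem_segment ℝ _ _) hp)

theorem Simp.nodup : ∀ {l : List (ℝ × ℝ)}, Simp l → l.Nodup
  | [], _ => List.nodup_nil
  | [p], _ => List.nodup_singleton p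
  | p :: q :: l, h => by
    refine List.nodup_cons.mpr ⟨?_, Simp.nodup h.2.2⟩
    intro hp
    exact h.notMem_Tr (mem_Tr _ _ hp)

/-- A good list is a simple path. -/
theorem good_simp : ∀ (l : List (ℝ × ℝ)) (p : ℝ × ℝ), Good p l → Simp (p :: l)
  | [], _, _ => trivial
  | q :: l, p, h => by
    obtain ⟨⟨a, ha, hr⟩, hg⟩ := h
    refine ⟨?_, ?_, good_simp l q hg⟩
    · rintro rfl
      rw [dt_self_sub] at ha
      exact lt_irrefl _ ha
    · intro z hz hz'
      rcases Tr_from hr hz' with h1 | h1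
      · exact h1
      · have h2 : dt a (z - q) ≤ 0 :=
          (convex_nonpos a q).segment_subset ha.le (dt_self_sub a q).le hz
        exact absurd h1 (not_lt.mpr h2)

/-- Concatenation of two simple paths which lie on different sides of a line through the common
point. -/
theorem Simp.concat {c w : ℝ × ℝ} {l2 : List (ℝ × ℝ)} (h2 : Simp (c :: l2))
    (s2 : ∀ p ∈ l2, 0 < dt w (p - c)) : ∀ {l1 : List (ℝ × ℝ)}, Simp (l1 ++ [c]) →
    (∀ p ∈ l1, dt w (p - c) ≤ 0) → Simp (l1 ++ c :: l2)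
  | [], _, _ => h2
  | [p], h1, s1 => by
    have h1' : p ≠ c := h1.1
    refine ⟨h1', ?_, h2⟩
    intro z hz hz'
    rcases Tr_from s2 hz' with h | h
    · exact h
    · have h3 : dt w (z - c) ≤ 0 :=
        (convex_nonpos w c).segment_subset (s1 p (by simp)) (dt_self_sub w c).le hz
      exact absurd h (not_lt.mpr h3)
  | p :: q :: l, h1, s1 => by
    have h1' : p ≠ q ∧ (∀ z ∈ segment ℝ p q, z ∈ Tr (q :: l ++ [c]) → z = q) ∧
      Simp (q :: l ++ [c]) := h1
    have ih := Simp.concat h2 s2 (l1 := q :: l) h1'.2.2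
      (fun r hr => s1 r (List.mem_cons_of_mem p hr))
    refine ⟨h1'.1, ?_, ih⟩
    intro z hz hz'
    have hz'' : z ∈ Tr (q :: l ++ [c]) ∪ Tr (c :: l2) := by rw [← Tr_append]; exact hz'
    rcases hz'' with h | h
    · exact h1'.2.1 z hz h
    · rcases Tr_from s2 h with h3 | h3
      · refine h1'.2.1 z hz ?_
        rw [h3]
        exact mem_Tr _ _ (by simp)
      · have h4 : dt w (z - c) ≤ 0 :=
          (convex_nonpos w c).segment_subset (s1 p (by simp)) (s1 q (by simp)) hz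
        exact absurd h3 (not_lt.mpr h4)

theorem Simp.snoc {p q : ℝ × ℝ} : ∀ {l : List (ℝ × ℝ)}, Simp (l ++ [q]) → p ≠ q →
    (∀ z ∈ segment ℝ q p, z ∈ Tr (l ++ [q]) → z = q) → Simp (l ++ [q, p])
  | [], _, hpq, _ => ⟨hpq.symm, fun _ _ hz => Set.mem_singleton_iff.mp hz, trivial⟩
  | [r], h, hpq, hz => by
    have h' : r ≠ q := h.1
    refine ⟨h', ?_, hpq.symm, fun _ _ hz => Set.mem_singleton_iff.mp hz, trivial⟩
    intro z h1 h2
    rcases h2 with h2 | h2
    · exact hz z h2 (Or.inl h1)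
    · rw [Set.mem_singleton_iff.mp h2] at h1 ⊢
      exact hz p (right_mem_segment ℝ _ _) (Or.inl h1)
  | r :: s :: l, h, hpq, hz => by
    have h' : r ≠ s ∧ (∀ z ∈ segment ℝ r s, z ∈ Tr (s :: l ++ [q]) → z = s) ∧
      Simp (s :: l ++ [q]) := h
    refine ⟨h'.1, ?_, Simp.snoc (l := s :: l) h'.2.2 hpq (fun z h1 h2 => hz z h1 (Or.inr h2))⟩
    intro z h1 h2
    have h3 : z ∈ Tr (s :: l ++ [q]) ∪ Tr (q :: [p]) := by rw [← Tr_append]; exact h2
    rcases h3 with h3 | h3
    · exact h'.2.1 z h1 h3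
    · have h4 : z ∈ segment ℝ q p := by
        rcases h3 with h3 | h3
        · exact h3
        · rw [Set.mem_singleton_iff.mp h3]; exact right_mem_segment ℝ _ _
      have h5 := hz z h4 (Or.inl h1)
      refine h'.2.1 z h1 ?_
      rw [h5]
      exact mem_Tr _ _ (by simp)

theorem Simp.reverse : ∀ {l : List (ℝ × ℝ)}, Simp l → Simp l.reverse
  | [], _ => trivial
  | [_], _ => trivial
  | p :: q :: l, h => by
    have ih := Simp.reverse h.2.2
    rw [List.reverse_cons] at ih
    rw [List.reverse_cons, List.reverse_cons, List.append_assoc]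
    refine Simp.snoc ih h.1 ?_
    intro z h1 h2
    rw [← List.reverse_cons, Tr_reverse] at h2
    rw [segment_symm] at h1
    exact h.2.1 z h1 h2

theorem AltL.concat {R : Finset (ℝ × ℝ)} {c : ℝ × ℝ} {l2 : List (ℝ × ℝ)}
    (h2 : AltL R (c :: l2)) : ∀ {l1 : List (ℝ × ℝ)}, AltL R (l1 ++ [c]) → AltL R (l1 ++ c :: l2)
  | [], _ => h2
  | [_], h1 => ⟨h1.1, h2⟩
  | p :: q :: l, h1 => by
    have h1' : (p ∈ R ↔ q ∉ R) ∧ AltL R (q :: l ++ [c]) := h1
    exact ⟨h1'.1, AltL.concat h2 (l1 := q :: l) h1'.2⟩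

theorem AltL.tail {R : Finset (ℝ × ℝ)} {p : ℝ × ℝ} {l : List (ℝ × ℝ)} (h : AltL R (p :: l)) :
    AltL R l := by
  cases l with
  | nil => trivial
  | cons q l => exact h.2

theorem AltL.reverse {R : Finset (ℝ × ℝ)} : ∀ {l : List (ℝ × ℝ)}, AltL R l → AltL R l.reverse
  | [], _ => trivial
  | [_], _ => trivial
  | p :: q :: l, h => by
    have ih := AltL.reverse h.2
    rw [List.reverse_cons] at ih
    rw [List.reverse_cons, List.reverse_cons, List.append_assoc]
    have h1 := h.1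
    have h2 : AltL R [q, p] := ⟨by tauto, trivial⟩
    exact AltL.concat h2 ih

theorem altL_of_alt {R : Finset (ℝ × ℝ)} : ∀ (l : List (ℝ × ℝ)) (p : ℝ × ℝ) (b : Bool),
    Alt R b l → (p ∈ R ↔ b = true) → AltL R (p :: l)
  | [], _, _, _, _ => trivial
  | q :: l, p, b, h, hp => by
    refine ⟨?_, altL_of_alt l q (!b) h.2 ?_⟩
    · rw [hp, h.1]; cases b <;> simp
    · rw [h.1]; cases b <;> simp

theorem seg_sub_Tr (d : ℝ × ℝ) : ∀ (k : ℕ) (l : List (ℝ × ℝ)) (j : ℕ), k ≤ j → j + 1 < l.length →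
    segment ℝ (l.getD j d) (l.getD (j + 1) d) ⊆ Tr (l.drop k)
  | 0, [], j, _, hj => absurd hj (Nat.not_lt_zero _)
  | 0, [_], j, _, hj => by simp at hj
  | 0, p :: q :: l, 0, _, _ => by
    rw [List.drop_zero]
    simp only [List.getD_cons_zero, List.getD_cons_succ]
    exact Set.subset_union_left
  | 0, p :: q :: l, j + 1, _, hj => by
    rw [List.drop_zero, List.getD_cons_succ, List.getD_cons_succ]
    have ih := seg_sub_Tr d 0 (q :: l) j (Nat.zero_le _) (by simp only [List.length_cons] at hj ⊢; omega)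
    rw [List.drop_zero] at ih
    exact ih.trans Set.subset_union_right
  | k + 1, [], j, _, hj => absurd hj (Nat.not_lt_zero _)
  | k + 1, p :: l, 0, hk, _ => absurd hk (Nat.not_succ_le_zero k)
  | k + 1, p :: l, j + 1, hk, hj => by
    rw [List.drop_succ_cons, List.getD_cons_succ, List.getD_cons_succ]
    exact seg_sub_Tr d k l j (by omega) (by simp only [List.length_cons] at hj; omega)

theorem Simp.get (d : ℝ × ℝ) : ∀ (i : ℕ) (l : List (ℝ × ℝ)), Simp l → i + 1 < l.length →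
    (∀ z ∈ segment ℝ (l.getD i d) (l.getD (i + 1) d), z ∈ Tr (l.drop (i + 1)) →
      z = l.getD (i + 1) d) ∧ l.getD i d ∉ Tr (l.drop (i + 1))
  | _, [], _, hi => absurd hi (Nat.not_lt_zero _)
  | _, [_], _, hi => by simp at hi
  | 0, p :: q :: l, h, _ => by
    simp only [List.getD_cons_zero, List.getD_cons_succ, List.drop_succ_cons, List.drop_zero]
    exact ⟨h.2.1, h.notMem_Tr⟩
  | i + 1, p :: q :: l, h, hi => by
    rw [List.getD_cons_succ, List.getD_cons_succ, List.drop_succ_cons]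
    exact Simp.get d i (q :: l) h.2.2 (by simp only [List.length_cons] at hi ⊢; omega)

theorem AltL.get {R : Finset (ℝ × ℝ)} (d : ℝ × ℝ) : ∀ (i : ℕ) (l : List (ℝ × ℝ)), AltL R l →
    i + 1 < l.length → (l.getD i d ∈ R ↔ l.getD (i + 1) d ∉ R)
  | _, [], _, hi => absurd hi (Nat.not_lt_zero _)
  | _, [_], _, hi => by simp at hi
  | 0, p :: q :: l, h, _ => by
    simp only [List.getD_cons_zero, List.getD_cons_succ]
    exact h.1
  | i + 1, p :: q :: l, h, hi => by
    rw [List.getD_cons_succ, List.getD_cons_succ]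
    exact AltL.get d i (q :: l) h.2 (by simp only [List.length_cons] at hi ⊢; omega)

/-- From a list to the path predicate. -/
theorem hasPath_of_simp {R B : Finset (ℝ × ℝ)} (hdis : Disjoint R B) {l : List (ℝ × ℝ)}
    (hs : Simp l) (ha : AltL R l) (hm : ∀ p ∈ l, p ∈ R ∪ B) : HasPath R B l.length := by
  have hnd := hs.nodup
  obtain ⟨d, hd⟩ : ∃ d : ℝ × ℝ, d = 0 := ⟨_, rfl⟩
  have hmem : ∀ i, i < l.length → l.getD i d ∈ R ∪ B := by
    intro i hi
    rw [List.getD_eq_getElem _ _ hi]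
    exact hm _ (List.getElem_mem hi)
  refine ⟨fun i => l.getD i d, hmem, ?_, ?_, ?_, ?_⟩
  · intro i j hi hj hij
    simp only at hij
    rw [List.getD_eq_getElem _ _ hi, List.getD_eq_getElem _ _ hj] at hij
    exact (List.Nodup.getElem_inj_iff hnd).mp hij
  · intro i hi
    have h1 := AltL.get d i l ha hi
    have h2 := hmem (i + 1) hi
    have h3 : ∀ q, q ∈ R → q ∉ B := fun q h h' => Finset.disjoint_left.mp hdis h h'
    have h4 := h3 (l.getD (i + 1) d)
    rw [Finset.mem_union] at h2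
    show l.getD i d ∈ R ↔ l.getD (i + 1) d ∈ B
    tauto
  · intro i j hj hij
    rw [Set.disjoint_left]
    intro z hz1 hz2
    have h1 := (Simp.get d i l hs (by omega)).1 z hz1 (seg_sub_Tr d (i + 1) l j (by omega) hj hz2)
    have h2 := (Simp.get d (i + 1) l hs (by omega)).2
    apply h2
    rw [← h1]
    exact seg_sub_Tr d (i + 1 + 1) l j (by omega) hj hz2
  · intro i hi
    apply Set.eq_singleton_iff_unique_mem.mpr
    refine ⟨⟨right_mem_segment ℝ _ _, left_mem_segment ℝ _ _⟩, ?_⟩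
    rintro z ⟨hz1, hz2⟩
    exact (Simp.get d i l hs (by omega)).1 z hz1 (seg_sub_Tr d (i + 1) l (i + 1) le_rfl (by omega) hz2)

end Pool.Agent.AltALL
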