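import Mathlib
import Pool.Agent.AltPath.Path
import Pool.Agent.AltALL.Tline42
import Pool.Agent.Helper79.HPD.Fam

/-! The swap of the two coordinates: everything in the argument is invariant (helper42). -/

namespace Pool.Agent.AltALL42

open Pool.Agent.AltPath Pool.Agent.HPD79

/-- The image of a finite set under the swap of the coordinates. -/
noncomputable def sw (S : Finset (ℝ × ℝ)) : Finset (ℝ × ℝ) := S.image Prod.swap

theorem mem_sw {S : Finset (ℝ × ℝ)} {p : ℝ × ℝ} : p ∈ sw S ↔ p.swap ∈ S := by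
  rw [sw, Finset.mem_image]
  constructor
  · rintro ⟨q, hq, rfl⟩
    rwa [Prod.swap_swap]
  · intro h
    exact ⟨p.swap, h, Prod.swap_swap p⟩

theorem swap_mem_sw {S : Finset (ℝ × ℝ)} {p : ℝ × ℝ} : p.swap ∈ sw S ↔ p ∈ S := by
  rw [mem_sw, Prod.swap_swap]

theorem sw_sw (S : Finset (ℝ × ℝ)) : sw (sw S) = S := by
  ext p; rw [mem_sw, mem_sw, Prod.swap_swap]

theorem sw_union (S T : Finset (ℝ × ℝ)) : sw (S ∪ T) = sw S ∪ sw T := by
  ext p; simp only [mem_sw, Finset.mem_union]

theorem card_sw (S : Finset (ℝ × ℝ)) : (sw S).card = S.card :=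
  Finset.card_image_of_injective _ Prod.swap_injective

theorem disjoint_sw {S T : Finset (ℝ × ℝ)} (h : Disjoint S T) : Disjoint (sw S) (sw T) := by
  rw [Finset.disjoint_left] at h ⊢
  intro p hp hq
  exact h (mem_sw.mp hp) (mem_sw.mp hq)

theorem dt_swap (a v : ℝ × ℝ) : dt a.swap v.swap = dt a v := by
  simp only [dt, Prod.fst_swap, Prod.snd_swap]; ring

theorem cr_swap (u v : ℝ × ℝ) : cr u.swap v.swap = -cr u v := by
  simp only [cr, Prod.fst_swap, Prod.snd_swap]; ring

theorem swap_sub (u v : ℝ × ℝ) : (u - v).swap = u.swap - v.swap := by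
  ext <;> simp

theorem filter_sw (S : Finset (ℝ × ℝ)) (Q : ℝ × ℝ → Prop) [DecidablePred Q]
    [DecidablePred fun p : ℝ × ℝ => Q p.swap] :
    (sw S).filter Q = sw (S.filter fun p => Q p.swap) := by
  ext p
  simp only [Finset.mem_filter, mem_sw, Prod.swap_swap]

theorem card_filter_sw (S : Finset (ℝ × ℝ)) (Q : ℝ × ℝ → Prop) [DecidablePred Q]
    [DecidablePred fun p : ℝ × ℝ => Q p.swap] :
    ((sw S).filter Q).card = (S.filter fun p => Q p.swap).card := by
  rw [filter_sw, card_sw]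

theorem gp_sw {P : Finset (ℝ × ℝ)} (h : GP P) : GP (sw P) := by
  intro p hp q hq r hr hpq hpr hqr h0
  have h1 := h p.swap (mem_sw.mp hp) q.swap (mem_sw.mp hq) r.swap (mem_sw.mp hr)
    (fun hc => hpq (Prod.swap_injective hc)) (fun hc => hpr (Prod.swap_injective hc))
    (fun hc => hqr (Prod.swap_injective hc))
  apply h1
  rw [← swap_sub, ← swap_sub, cr_swap, h0, neg_zero]

theorem segment_swap (a b : ℝ × ℝ) :
    segment ℝ a.swap b.swap = Prod.swap '' segment ℝ a b := by
  have h := image_segment ℝ ((LinearEquiv.prodComm ℝ ℝ ℝ).toLinearMap.toAffineMap) a b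
  have e : ∀ x : ℝ × ℝ, ((LinearEquiv.prodComm ℝ ℝ ℝ).toLinearMap.toAffineMap) x = x.swap :=
    fun x => rfl
  rw [e, e] at h
  rw [← h]
  rfl

theorem hasPath_sw {R B : Finset (ℝ × ℝ)} {k : ℕ} (h : HasPath R B k) :
    HasPath (sw R) (sw B) k := by
  obtain ⟨v, h1, h2, h3, h4, h5⟩ := h
  refine ⟨fun i => (v i).swap, ?_, ?_, ?_, ?_, ?_⟩
  · intro i hi
    rw [← sw_union, swap_mem_sw]
    exact h1 i hi
  · intro i j hi hj hij
    exact h2 i j hi hj (Prod.swap_injective hij)
  · intro i hi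
    simp only [swap_mem_sw]
    exact h3 i hi
  · intro i j hj hij
    simp only [segment_swap]
    rw [Set.disjoint_image_iff Prod.swap_injective]
    exact h4 i j hj hij
  · intro i hi
    simp only [segment_swap]
    rw [← Set.image_inter Prod.swap_injective, h5 i hi, Set.image_singleton]

theorem hasPath_sw_iff {R B : Finset (ℝ × ℝ)} {k : ℕ} :
    HasPath (sw R) (sw B) k ↔ HasPath R B k := by
  constructor
  · intro h
    have := hasPath_sw h
    rwa [sw_sw, sw_sw] at this
  · exact hasPath_sw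

/-- The wedge bound at all points of the set. -/
def WB (R B : Finset (ℝ × ℝ)) (D : ℕ) : Prop :=
  ∀ x ∈ R ∪ B, ∀ w1 w2 : ℝ × ℝ,
    |((R.filter fun p => 0 < dt w1 (p - x) ∧ 0 < dt w2 (p - x)).card : ℤ) -
      ((B.filter fun p => 0 < dt w1 (p - x) ∧ 0 < dt w2 (p - x)).card : ℤ)| ≤ D

theorem wb_sw {R B : Finset (ℝ × ℝ)} {D : ℕ} (h : WB R B D) : WB (sw R) (sw B) D := by
  intro x hx w1 w2
  rw [← sw_union] at hx
  have h1 := h x.swap (mem_sw.mp hx) w1.swap w2.swap
  rw [card_filter_sw, card_filter_sw]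
  have e : ∀ w p : ℝ × ℝ, dt w (p.swap - x) = dt w.swap (p - x.swap) := by
    intro w p
    rw [← dt_swap w, swap_sub, Prod.swap_swap]
  simp only [e]
  exact h1

theorem wb_of_dc {R B : Finset (ℝ × ℝ)} (hdis : Disjoint R B) {D : ℕ}
    (h : ∀ x ∈ R ∪ B, ∀ w1 w2 : ℝ × ℝ,
      |Dc79 R ((R ∪ B).filter (fun p => 0 < dt w1 (p - x) ∧ 0 < dt w2 (p - x)))| ≤ D) :
    WB R B D := by
  intro x hx w1 w2
  have h1 := h x hx w1 w2
  rw [Dc79] at h1
  have e1 : ((R ∪ B).filter (fun p => 0 < dt w1 (p - x) ∧ 0 < dt w2 (p - x))) ∩ R =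
      R.filter (fun p => 0 < dt w1 (p - x) ∧ 0 < dt w2 (p - x)) := by
    ext p
    simp only [Finset.mem_inter, Finset.mem_filter, Finset.mem_union]
    tauto
  have e2 : ((R ∪ B).filter (fun p => 0 < dt w1 (p - x) ∧ 0 < dt w2 (p - x))) \ R =
      B.filter (fun p => 0 < dt w1 (p - x) ∧ 0 < dt w2 (p - x)) := by
    ext p
    have := fun (h1 : p ∈ B) (h2 : p ∈ R) => Finset.disjoint_left.mp hdis h2 h1
    simp only [Finset.mem_sdiff, Finset.mem_filter, Finset.mem_union]
    tauto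
  rw [e1, e2] at h1
  exact h1

theorem isHP_sw {P H : Finset (ℝ × ℝ)} (h : IsHP79 (sw P) H) : IsHP79 P (sw H) := by
  obtain ⟨h1, a, ha⟩ := h
  refine ⟨?_, a.swap, ?_⟩
  · intro p hp
    have := h1 (mem_sw.mp hp)
    rwa [swap_mem_sw] at this
  · intro x hx y hy hyH
    have h2 := ha x.swap (mem_sw.mp hx) y.swap (swap_mem_sw.mpr hy)
      (fun hc => hyH (mem_sw.mpr hc))
    rw [← dt_swap, Prod.swap_swap] at h2
    rw [← dt_swap a, Prod.swap_swap] at h2
    exact h2

theorem sw_inter (S T : Finset (ℝ × ℝ)) : sw (S ∩ T) = sw S ∩ sw T := by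
  ext p; simp only [mem_sw, Finset.mem_inter]

theorem sw_sdiff (S T : Finset (ℝ × ℝ)) : sw (S \ T) = sw S \ sw T := by
  ext p; simp only [mem_sw, Finset.mem_sdiff]

theorem dc_sw (R H : Finset (ℝ × ℝ)) : Dc79 (sw R) H = Dc79 R (sw H) := by
  have h1 : ((H ∩ sw R).card : ℤ) = ((sw H ∩ R).card : ℤ) := by
    rw [← card_sw (H ∩ sw R), sw_inter, sw_sw]
  have h2 : ((H \ sw R).card : ℤ) = ((sw H \ R).card : ℤ) := by
    rw [← card_sw (H \ sw R), sw_sdiff, sw_sw]
  rw [Dc79, Dc79, h1, h2]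

theorem hp_sw {R B : Finset (ℝ × ℝ)} {K : ℕ} (h : ∀ H, IsHP79 (R ∪ B) H → |Dc79 R H| ≤ K) :
    ∀ H, IsHP79 (sw R ∪ sw B) H → |Dc79 (sw R) H| ≤ K := by
  intro H hH
  rw [← sw_union] at hH
  rw [dc_sw]
  exact h _ (isHP_sw hH)

theorem lg_sw {R B : Finset (ℝ × ℝ)} {M : ℕ} {q q0 c0 : ℝ × ℝ} (h : LG R B M q q0 c0) :
    RG (sw R) (sw B) M q.swap q0.swap c0.swap := by
  rw [RG, card_filter_sw, card_filter_sw]
  have e : ∀ u p : ℝ × ℝ, cr (u.swap - q.swap) (p.swap - q.swap) = -cr (u - q) (p - q) := by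
    intro u p
    rw [← swap_sub, ← swap_sub, cr_swap]
  simp only [e, Left.neg_neg_iff, Left.neg_pos_iff]
  exact h

/-- The clockwise chain of a finite set. -/
def IsCh (S : Finset (ℝ × ℝ)) (v : ℕ) (z : ℕ → ℝ × ℝ) : Prop :=
  (∀ i ≤ v, z i ∈ S) ∧ (∀ i j, i < j → j ≤ v → z i ≠ z j) ∧
    ∀ i j k, i < j → j < k → k ≤ v → cr (z j - z i) (z k - z i) < 0

/-- The chain of the mirror image. -/
theorem isCh_sw {S : Finset (ℝ × ℝ)} {v : ℕ} {z : ℕ → ℝ × ℝ} (h : IsCh S v z) :
    IsCh (sw S) v (fun i => (z (v - i)).swap) := by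
  obtain ⟨h1, h2, h3⟩ := h
  refine ⟨?_, ?_, ?_⟩
  · intro i hi
    rw [swap_mem_sw]
    exact h1 _ (Nat.sub_le _ _)
  · intro i j hij hj hc
    exact h2 (v - j) (v - i) (by omega) (by omega) (Prod.swap_injective hc).symm
  · intro i j k hij hjk hk
    have h4 := h3 (v - k) (v - j) (v - i) (by omega) (by omega) (by omega)
    have e : cr ((z (v - j)).swap - (z (v - i)).swap) ((z (v - k)).swap - (z (v - i)).swap) =
        cr (z (v - j) - z (v - k)) (z (v - i) - z (v - k)) := by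
      simp only [cr, Prod.fst_sub, Prod.snd_sub, Prod.fst_swap, Prod.snd_swap]; ring
    rw [e]
    exact h4

/-- At every inner vertex of the chain one of the two directions is usable. -/
theorem chain_rg_or_lg {R B : Finset (ℝ × ℝ)} {M D v : ℕ} {z : ℕ → ℝ × ℝ} (hDM : D ≤ M)
    (hW : WB R B D) (hz : IsCh B v z) {i : ℕ} (hi : 2 ≤ i) (hiv : i + 2 ≤ v) :
    RG R B M (z i) (z (i + 1)) (z v) ∨ LG R B M (z i) (z (i - 1)) (z 0) := by
  obtain ⟨h1, h2, h3⟩ := hz
  have cyc : ∀ a b c : ℝ × ℝ, cr (c - b) (a - b) = cr (b - a) (c - a) := by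
    intro a b c
    simp only [cr, Prod.fst_sub, Prod.snd_sub]; ring
  apply rg_or_lg R B M D hDM (hW (z i) (Finset.mem_union_right _ (h1 i (by omega))))
  · exact h3 i (i + 1) v (by omega) (by omega) (le_refl _)
  · rw [cyc]; exact h3 0 i v (by omega) (by omega) (le_refl _)
  · have h4 := h3 0 (i - 1) i (by omega) (by omega) (by omega)
    rw [← cyc, ← cyc] at h4
    exact h4
  · rw [cyc]; exact h3 0 i (i + 1) (by omega) (by omega) (by omega)
  · rw [cyc]; exact h3 (i - 1) i v (by omega) (by omega) (le_refl _)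
  · rw [cyc]; exact h3 (i - 1) i (i + 1) (by omega) (by omega) (by omega)

/-- The line T at an inner vertex of the chain, with many blue points on its right. -/
theorem chain_T {R B : Finset (ℝ × ℝ)} (hdis : Disjoint R B) (hgp : GP (R ∪ B)) {M D v : ℕ}
    {z : ℕ → ℝ × ℝ} (hW : WB R B D) (hz : IsCh B v z) {i : ℕ} (hi : i + M + D + 1 ≤ v)
    (hiv : i + 2 ≤ v) (hRG : RG R B M (z i) (z (i + 1)) (z v)) :
    ∃ τ : ℝ × ℝ, 0 < dt τ (z v - z i) ∧ 0 < dt τ (z (i + 1) - z i) ∧
      (∀ p ∈ R ∪ B, p ≠ z i → dt τ (p - z i) ≠ 0) ∧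
      (∀ k, i < k → k ≤ v → 0 < dt τ (z k - z i)) ∧
      (R.filter fun p => 0 < cr (z v - z i) (p - z i) ∧ 0 < dt τ (p - z i)).card =
        (B.filter fun p => cr (z v - z i) (p - z i) < 0 ∧ 0 < dt τ (p - z i)).card + M ∧
      v ≤ i + 2 + D + M +
        (B.filter fun p => cr (z v - z i) (p - z i) < 0 ∧ 0 < dt τ (p - z i)).card := by
  classical
  obtain ⟨h1, h2, h3⟩ := hz
  have hWi := hW (z i) (Finset.mem_union_right _ (h1 i (by omega)))
  have htri := h3 i (i + 1) v (by omega) (by omega) (le_refl _)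
  -- the blue points z (i+1), .., z (v-1) are above the line
  have hup : v - i - 1 ≤ (B.filter fun p => 0 < cr (z v - z i) (p - z i)).card := by
    have hsub : (Finset.Ioo i v).image z ⊆ B.filter fun p => 0 < cr (z v - z i) (p - z i) := by
      intro p hp
      obtain ⟨k, hk, rfl⟩ := Finset.mem_image.mp hp
      rw [Finset.mem_Ioo] at hk
      refine Finset.mem_filter.mpr ⟨h1 k (by omega), ?_⟩
      have := h3 i k v hk.1 hk.2 (le_refl _)
      rw [cr_anti]; linarith
    have hc := Finset.card_le_card hsub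
    rw [Finset.card_image_of_injOn, Nat.card_Ioo] at hc
    · omega
    · intro a ha b hb hab
      rw [Finset.coe_Ioo, Set.mem_Ioo] at ha hb
      rcases lt_trichotomy a b with h | h | h
      · exact absurd hab (h2 a b h (by omega))
      · exact h
      · exact absurd hab.symm (h2 b a h (by omega))
  have hsec : v - i - 2 ≤ (B.filter fun p => 0 < cr (z v - z i) (p - z i) ∧
      cr (z (i + 1) - z i) (p - z i) < 0).card := by
    have hsub : (Finset.Ioo (i + 1) v).image z ⊆ B.filter fun p => 0 < cr (z v - z i) (p - z i) ∧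
        cr (z (i + 1) - z i) (p - z i) < 0 := by
      intro p hp
      obtain ⟨k, hk, rfl⟩ := Finset.mem_image.mp hp
      rw [Finset.mem_Ioo] at hk
      refine Finset.mem_filter.mpr ⟨h1 k (by omega), ?_, ?_⟩
      · have := h3 i k v (by omega) hk.2 (le_refl _)
        rw [cr_anti]; linarith
      · exact h3 i (i + 1) k (by omega) hk.1 (by omega)
    have hc := Finset.card_le_card hsub
    rw [Finset.card_image_of_injOn, Nat.card_Ioo] at hc
    · omega
    · intro a ha b hb hab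
      rw [Finset.coe_Ioo, Set.mem_Ioo] at ha hb
      rcases lt_trichotomy a b with h | h | h
      · exact absurd hab (h2 a b h (by omega))
      · exact h
      · exact absurd hab.symm (h2 b a h (by omega))
  have j1 := hWi (lf (z v - z i)) (lf (z v - z i))
  have j2 := hWi (lf (z v - z i)) (-lf (z (i + 1) - z i))
  have k1 : ∀ e v : ℝ × ℝ, (0 < dt (-lf e) v ↔ cr e v < 0) := by
    intro e v
    have : dt (-lf e) v = -cr e v := by
      simp only [dt, cr, lf, Prod.fst_neg, Prod.snd_neg]; ring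
    rw [this]; constructor <;> intro <;> linarith
  simp only [dt_lf, k1, and_self] at j1 j2
  rw [abs_le] at j1 j2
  have j3 := j1.1
  have j4 := j2.1
  obtain ⟨τ, t1, t2, t3, t4⟩ := T_exists R B hdis hgp
    (Finset.mem_union_right _ (h1 i (by omega))) (h1 (i + 1) (by omega)) htri M (by omega) hRG
  refine ⟨τ, t1, t2, t3, ?_, t4, ?_⟩
  · intro k hk hkv
    rcases Nat.lt_or_ge k v with h | h
    · rcases Nat.lt_or_ge (i + 1) k with h' | h'
      · apply cone_dt htri _ _ t2 t1
        · have := h3 i k v hk h (le_refl _)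
          rw [cr_anti]; linarith
        · exact h3 i (i + 1) k (by omega) h' (by omega)
      · have : k = i + 1 := by omega
        rw [this]; exact t2
    · have : k = v := by omega
      rw [this]; exact t1
  · have := Finset.card_le_card (sec_sub R htri t1 t2)
    omega

end Pool.Agent.AltALL42
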