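import Pool.Agent.AltALL.Chain79

/-! Counting of crossing pairs over disjoint windows of a convex chain. -/

namespace Pool.Agent.AltALL

open Pool.Agent.AltPath

/-- Double counting: every pair is used by at most two indices. -/
theorem pairs_le {ι : Type*} (I : Finset ι) (R B : Finset (ℝ × ℝ))
    (X Y : ι → Finset (ℝ × ℝ)) (hX : ∀ i ∈ I, X i ⊆ R) (hY : ∀ i ∈ I, Y i ⊆ B)
    (h3 : ∀ p ∈ R, ∀ q ∈ B, ∀ J ⊆ I, (∀ i ∈ J, p ∈ X i ∧ q ∈ Y i) → J.card ≤ 2) :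
    ∑ i ∈ I, (X i).card * (Y i).card ≤ 2 * (R.card * B.card) := by
  classical
  have h1 : ∀ i ∈ I, (X i).card * (Y i).card =
      ∑ pq ∈ R ×ˢ B, if (pq.1 ∈ X i ∧ pq.2 ∈ Y i) then 1 else 0 := by
    intro i hi
    rw [← Finset.card_product, Finset.sum_ite, Finset.sum_const_zero, add_zero,
      Finset.sum_const, smul_eq_mul, mul_one]
    congr 1
    ext pq
    simp only [Finset.mem_product, Finset.mem_filter]
    constructor
    · rintro ⟨h, h'⟩
      exact ⟨⟨hX i hi h, hY i hi h'⟩, h, h'⟩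
    · rintro ⟨-, h, h'⟩
      exact ⟨h, h'⟩
  rw [Finset.sum_congr rfl h1, Finset.sum_comm]
  calc ∑ pq ∈ R ×ˢ B, ∑ i ∈ I, (if (pq.1 ∈ X i ∧ pq.2 ∈ Y i) then 1 else 0)
      ≤ ∑ pq ∈ R ×ˢ B, 2 := by
        refine Finset.sum_le_sum ?_
        rintro ⟨p, q⟩ hpq
        obtain ⟨hp, hq⟩ := Finset.mem_product.1 hpq
        rw [Finset.sum_ite, Finset.sum_const_zero, add_zero, Finset.sum_const, smul_eq_mul,
          mul_one]
        exact h3 p hp q hq _ (Finset.filter_subset _ _) (fun i hi => (Finset.mem_filter.1 hi).2)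
    _ = 2 * (R.card * B.card) := by
        rw [Finset.sum_const, Finset.card_product, smul_eq_mul, mul_comm]

theorem cr_as_dt (p q x : ℝ × ℝ) :
    cr (q - p) (x - p) = dt (-(q - p).2, (q - p).1) x + (-dt (-(q - p).2, (q - p).1) p) := by
  simp only [cr, dt, Prod.fst_sub, Prod.snd_sub]; ring

/-- Three elements of a finite set of naturals in increasing order. -/
theorem three_lt {J : Finset ℕ} (h : 2 < J.card) : ∃ i ∈ J, ∃ j ∈ J, ∃ k ∈ J, i < j ∧ j < k := by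
  classical
  obtain ⟨a, b, c, ha, hb, hc, hab, hac, hbc⟩ := Finset.two_lt_card_iff.1 h
  rcases lt_or_gt_of_ne hab with h1 | h1 <;> rcases lt_or_gt_of_ne hac with h2 | h2 <;>
    rcases lt_or_gt_of_ne hbc with h3 | h3
  · exact ⟨a, ha, b, hb, c, hc, h1, h3⟩
  · exact ⟨a, ha, c, hc, b, hb, h2, h3⟩
  · omega
  · exact ⟨c, hc, a, ha, b, hb, h2, h1⟩
  · exact ⟨b, hb, a, ha, c, hc, h1, h2⟩
  · omega
  · exact ⟨b, hb, c, hc, a, ha, h3, h2⟩
  · exact ⟨c, hc, b, hb, a, ha, h3, h1⟩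

/-- Counting of the pairs of the cells: the windows W, the cells j < m a of the window a between the
chain vertices with numbers lo a j and lo a (j + 1). -/
theorem cells_sum {v : ℕ} {z : ℕ → ℝ × ℝ}
    (hz : ∀ i j k, i < j → j < k → k ≤ v → cr (z j - z i) (z k - z i) < 0)
    (R B : Finset (ℝ × ℝ)) {n M : ℕ} (hR : R.card = n) (hB : B.card = n) (W : Finset ℕ)
    (m : ℕ → ℕ) (lo : ℕ → ℕ → ℕ) (hm : ∀ a ∈ W, m a ≤ M)
    (hlo : ∀ a ∈ W, ∀ j < m a, lo a j < lo a (j + 1))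
    (hsep : ∀ a ∈ W, ∀ b ∈ W, a < b → lo a (m a) ≤ lo b 0) (hv : ∀ a ∈ W, lo a (m a) ≤ v)
    (X Y : ℕ → ℕ → Finset (ℝ × ℝ)) (hX : ∀ a ∈ W, ∀ j < m a, X a j ⊆ R)
    (hY : ∀ a ∈ W, ∀ j < m a, Y a j ⊆ B)
    (hXY : ∀ a ∈ W, ∀ j < m a, (Y a j).card ≤ (X a j).card)
    (hcross : ∀ a ∈ W, ∀ j < m a, ∀ p ∈ X a j, ∀ q ∈ Y a j,
      cr (q - p) (z (lo a j) - p) * cr (q - p) (z (lo a (j + 1)) - p) < 0) :
    ∑ a ∈ W, ∑ j ∈ Finset.range (m a), (Y a j).card ^ 2 ≤ 2 * n ^ 2 := by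
  classical
  have hmono : ∀ a ∈ W, ∀ i j, i ≤ j → j ≤ m a → lo a i ≤ lo a j := by
    intro a ha i j hij
    induction j, hij using Nat.le_induction with
    | base => intro _; exact le_refl _
    | succ j hj ih =>
      intro hjm
      exact (ih (by omega)).trans (hlo a ha j (by omega)).le
  -- the number of the cell
  set c : ℕ × ℕ → ℕ := fun i => i.1 * (M + 1) + i.2 with hc
  set I : Finset (ℕ × ℕ) := (W ×ˢ Finset.range (M + 1)).filter (fun i => i.2 < m i.1) with hI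
  have hmemI : ∀ i, i ∈ I ↔ i.1 ∈ W ∧ i.2 < m i.1 := by
    intro i
    rw [hI, Finset.mem_filter, Finset.mem_product, Finset.mem_range]
    constructor
    · rintro ⟨⟨h, -⟩, h'⟩
      exact ⟨h, h'⟩
    · rintro ⟨h, h'⟩
      exact ⟨⟨h, by have := hm _ h; omega⟩, h'⟩
  have hsum : ∑ a ∈ W, ∑ j ∈ Finset.range (m a), (Y a j).card ^ 2 =
      ∑ i ∈ I, (Y i.1 i.2).card ^ 2 := by
    rw [hI, Finset.sum_filter, Finset.sum_product]
    refine Finset.sum_congr rfl fun a ha => ?_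
    rw [← Finset.sum_filter]
    refine Finset.sum_congr ?_ fun _ _ => rfl
    ext j
    rw [Finset.mem_filter, Finset.mem_range, Finset.mem_range]
    constructor
    · intro h
      exact ⟨by have := hm _ ha; omega, h⟩
    · rintro ⟨-, h⟩
      exact h
  rw [hsum]
  have hle : ∑ i ∈ I, (Y i.1 i.2).card ^ 2 ≤ ∑ i ∈ I, (X i.1 i.2).card * (Y i.1 i.2).card := by
    refine Finset.sum_le_sum fun i hi => ?_
    obtain ⟨h1, h2⟩ := (hmemI i).1 hi
    rw [pow_two]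
    exact Nat.mul_le_mul_right _ (hXY i.1 h1 i.2 h2)
  refine hle.trans ?_
  have hfin := pairs_le I R B (fun i => X i.1 i.2) (fun i => Y i.1 i.2)
    (fun i hi => hX _ ((hmemI i).1 hi).1 _ ((hmemI i).1 hi).2)
    (fun i hi => hY _ ((hmemI i).1 hi).1 _ ((hmemI i).1 hi).2) ?_
  · rw [hR, hB, ← pow_two] at hfin
    exact hfin
  intro p _ q _ J hJ hJpq
  by_contra hcon
  push Not at hcon
  -- order the three cells
  have hcinj : Set.InjOn c J := by
    rintro ⟨a, j⟩ ha ⟨b, k⟩ hb hab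
    have h1 := (hmemI _).1 (hJ ha)
    have h2 := (hmemI _).1 (hJ hb)
    have h3 := hm _ h1.1
    have h4 := hm _ h2.1
    simp only [hc] at hab
    simp only at h1 h2 h3 h4
    have h5 : j < M + 1 := by omega
    have h6 : k < M + 1 := by omega
    have h7 : a = b := by
      have e1 : (a * (M + 1) + j) / (M + 1) = a := by
        rw [Nat.add_comm, Nat.add_mul_div_right _ _ (by omega), Nat.div_eq_of_lt h5, zero_add]
      have e2 : (b * (M + 1) + k) / (M + 1) = b := by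
        rw [Nat.add_comm, Nat.add_mul_div_right _ _ (by omega), Nat.div_eq_of_lt h6, zero_add]
      rw [← e1, ← e2, hab]
    subst h7
    have h8 : j = k := by omega
    rw [h8]
  have hcard : (J.image c).card = J.card := Finset.card_image_of_injOn hcinj
  obtain ⟨x1, hx1, x2, hx2, x3, hx3, h12, h23⟩ := three_lt (J := J.image c) (by omega)
  obtain ⟨i1, hi1, rfl⟩ := Finset.mem_image.1 hx1
  obtain ⟨i2, hi2, rfl⟩ := Finset.mem_image.1 hx2
  obtain ⟨i3, hi3, rfl⟩ := Finset.mem_image.1 hx3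
  have hord : ∀ i ∈ J, ∀ k ∈ J, c i < c k → lo i.1 (i.2 + 1) ≤ lo k.1 k.2 := by
    rintro ⟨a, j⟩ ha ⟨b, k⟩ hb hab
    have h1 := (hmemI _).1 (hJ ha)
    have h2 := (hmemI _).1 (hJ hb)
    have h3 := hm _ h1.1
    have h4 := hm _ h2.1
    simp only [hc] at hab
    simp only at h1 h2 h3 h4 ⊢
    rcases lt_trichotomy a b with h | h | h
    · exact (hmono a h1.1 (j + 1) (m a) (by omega) le_rfl).trans
        ((hsep a h1.1 b h2.1 h).trans (hmono b h2.1 0 k (by omega) (by omega)))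
    · subst h
      exact hmono a h1.1 (j + 1) k (by omega) (by omega)
    · exfalso
      have h5 : (b + 1) * (M + 1) ≤ a * (M + 1) := Nat.mul_le_mul_right _ h
      have h6 : (b + 1) * (M + 1) = b * (M + 1) + (M + 1) := by ring
      omega
  have g : ∀ i ∈ J, lo i.1 i.2 < lo i.1 (i.2 + 1) ∧
      (dt (-(q - p).2, (q - p).1) (z (lo i.1 i.2)) + (-dt (-(q - p).2, (q - p).1) p)) *
      (dt (-(q - p).2, (q - p).1) (z (lo i.1 (i.2 + 1))) + (-dt (-(q - p).2, (q - p).1) p)) < 0 := by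
    intro i hi
    obtain ⟨h1, h2⟩ := (hmemI i).1 (hJ hi)
    refine ⟨hlo _ h1 _ h2, ?_⟩
    rw [← cr_as_dt, ← cr_as_dt]
    exact hcross _ h1 _ h2 p (hJpq i hi).1 q (hJpq i hi).2
  have h3I := (hmemI i3).1 (hJ hi3)
  exact no_three_windows hz (g i1 hi1).1 (hord i1 hi1 i2 hi2 h12) (g i2 hi2).1
    (hord i2 hi2 i3 hi3 h23) (g i3 hi3).1
    ((hmono _ h3I.1 (i3.2 + 1) (m i3.1) (by have := h3I.2; omega) le_rfl).trans (hv _ h3I.1))
    _ _ (g i1 hi1).2 (g i2 hi2).2 (g i3 hi3).2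

/-- If all windows are bad there are few windows. -/
theorem few_windows {v : ℕ} {z : ℕ → ℝ × ℝ}
    (hz : ∀ i j k, i < j → j < k → k ≤ v → cr (z j - z i) (z k - z i) < 0)
    (R B : Finset (ℝ × ℝ)) {n M L : ℕ} (hR : R.card = n) (hB : B.card = n) (W : Finset ℕ)
    (m : ℕ → ℕ) (lo : ℕ → ℕ → ℕ) (hm : ∀ a ∈ W, m a ≤ M)
    (hlo : ∀ a ∈ W, ∀ j < m a, lo a j < lo a (j + 1))
    (hsep : ∀ a ∈ W, ∀ b ∈ W, a < b → lo a (m a) ≤ lo b 0) (hv : ∀ a ∈ W, lo a (m a) ≤ v)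
    (X Y : ℕ → ℕ → Finset (ℝ × ℝ)) (hX : ∀ a ∈ W, ∀ j < m a, X a j ⊆ R)
    (hY : ∀ a ∈ W, ∀ j < m a, Y a j ⊆ B)
    (hXY : ∀ a ∈ W, ∀ j < m a, (Y a j).card ≤ (X a j).card)
    (hcross : ∀ a ∈ W, ∀ j < m a, ∀ p ∈ X a j, ∀ q ∈ Y a j,
      cr (q - p) (z (lo a j) - p) * cr (q - p) (z (lo a (j + 1)) - p) < 0)
    (dw : ℕ → Finset (ℝ × ℝ)) (hdw : ∀ a ∈ W, dw a ⊆ R ∪ B)
    (hdwd : ∀ a ∈ W, ∀ b ∈ W, a ≠ b → Disjoint (dw a) (dw b))
    (hbad : ∀ a ∈ W, L ≤ (dw a).card ∨ L ≤ ∑ j ∈ Finset.range (m a), (Y a j).card) :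
    W.card * L ^ 2 ≤ 2 * M * n ^ 2 + 2 * n * L := by
  classical
  have hS := cells_sum hz R B hR hB W m lo hm hlo hsep hv X Y hX hY hXY hcross
  have hD : ∑ a ∈ W, (dw a).card ≤ 2 * n := by
    rw [← Finset.card_biUnion hdwd]
    calc (W.biUnion dw).card ≤ (R ∪ B).card :=
          Finset.card_le_card (Finset.biUnion_subset.2 hdw)
      _ ≤ R.card + B.card := Finset.card_union_le _ _
      _ = 2 * n := by rw [hR, hB]; ring
  have hkey : ∀ a ∈ W, L ^ 2 ≤ M * ∑ j ∈ Finset.range (m a), (Y a j).card ^ 2 +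
      (dw a).card * L := by
    intro a ha
    rcases hbad a ha with h | h
    · calc L ^ 2 = L * L := pow_two L
        _ ≤ (dw a).card * L := Nat.mul_le_mul_right _ h
        _ ≤ _ := Nat.le_add_left _ _
    · have h1 : (∑ j ∈ Finset.range (m a), (Y a j).card) ^ 2 ≤
          (Finset.range (m a)).card * ∑ j ∈ Finset.range (m a), (Y a j).card ^ 2 :=
        sq_sum_le_card_mul_sum_sq
      rw [Finset.card_range] at h1
      calc L ^ 2 ≤ (∑ j ∈ Finset.range (m a), (Y a j).card) ^ 2 := Nat.pow_le_pow_left h 2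
        _ ≤ m a * ∑ j ∈ Finset.range (m a), (Y a j).card ^ 2 := h1
        _ ≤ M * ∑ j ∈ Finset.range (m a), (Y a j).card ^ 2 :=
          Nat.mul_le_mul_right _ (hm a ha)
        _ ≤ _ := Nat.le_add_right _ _
  calc W.card * L ^ 2 = ∑ a ∈ W, L ^ 2 := by rw [Finset.sum_const, smul_eq_mul]
    _ ≤ ∑ a ∈ W, (M * ∑ j ∈ Finset.range (m a), (Y a j).card ^ 2 + (dw a).card * L) :=
      Finset.sum_le_sum hkey
    _ = M * ∑ a ∈ W, ∑ j ∈ Finset.range (m a), (Y a j).card ^ 2 +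
        (∑ a ∈ W, (dw a).card) * L := by
      rw [Finset.sum_add_distrib, Finset.mul_sum, Finset.sum_mul]
    _ ≤ M * (2 * n ^ 2) + (2 * n) * L :=
      Nat.add_le_add (Nat.mul_le_mul_left _ hS) (Nat.mul_le_mul_right _ hD)
    _ = 2 * M * n ^ 2 + 2 * n * L := by ring

end Pool.Agent.AltALL
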